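import Pool.Agent.Run7.h245.SR.Iface2
import Pool.Agent.Run7.h245.NF.Gf
import Pool.Agent.Run7.h245.MO.Iface

/-!
# Project DI: the distribution of the 2-Selmer group in a congruence family of all elliptic curves over `ℚ`

Aim: for every `δ > 0` there is a congruence family of elliptic curves over `ℚ` (ordered by height, all curves of the family)
in which the proportion of `dim Sel_2 = d` is within `δ` of the number `C_{2,d}` of Poonen and Rains, for every `d`.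

The group `Λ ⊆ (𝔽₂ × 𝔽₂)^S` of project SR is isotropic. New: (E1) over `ℚ`, with `f = x³ + x + 1` modulo `16`, it has at least
`2 ^ |S|` elements, so it is maximal isotropic; (E2) the pseudorandomness is two-sided: a class which is ramified only at
earlier levels is trivial at at most `(1/2 + ε)` AND nontrivial at at most `(1/2 + ε)` of the primes of a level; (E3) then
`dim Sel` of the twists by `J` with one element in each level is a Markov chain `d → d + 1` with probability `2 ^ (-d)`, `d → d - 1`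
otherwise, which converges (in each parity) to the Poonen-Rains distribution; (E4) both parities are mixed by means of one fixed
prime `q₀` and two short intervals near `y` and `q₀ y` (prime number theorem in progressions).

Every piece: write `theorem x : S_X` (or `theorem x (h1 : S_Y) ... : S_X` where the docstring says so) in your own directory
`Pool/Agent/Run7/<your seat>/DI/X.lean`; land it yourself; see the table `h245_di`. Most pieces are modifications of existing files of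
about 100 - 200 lines.
-/

set_option autoImplicit false
set_option linter.all false

open Polynomial IsDedekindDomain Matrix NumberField
open scoped Classical

namespace Pool.Agent.Run7.h245.DI

open Pool.Agent.N352.PJ (Mt Typ dd)
open Pool.Agent.N783.PQ (chp form Dist Gap Mid Deep eA eB eU uu LocIm)
open Pool.Agent.N874.PP (Ev Sq1 U0 sW IsBeta Rt sg)
open Pool.Agent.N874.PM (PLoc)
open Pool.Agent.N874.JM (LocF)
open Pool.Agent.N783.PF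
open Pool.Agent.Run7.h245.SR (LatR Sj)
open Pool.Agent.Run7.h245.MO (JJ)

/-! ### E2. Pseudorandomness from the other side: NOT distinguished -/

section mats

variable {F : Type} [Field F] [NumberField F]

/-- The pairs over which we count: congruences at the primes in `S`, NOT distinguished at the
primes in `C`. -/
structure XsetN (g N c : ℕ) (w : Fin (2 * g + 1) → ℤ) (S C : Finset ℕ) (𝔮 : ℕ → Ideal (𝓞 F))
    (P : ℕ → (𝓞 F)[X]) (A B : Mt g (𝓞 F)) : Prop where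
  box : Box g N c w A B
  con : ∀ q ∈ S, ∀ 𝔭 : Ideal (𝓞 F), 𝔭.IsPrime → (q : 𝓞 F) ∈ 𝔭 → chp (rm 𝔭 A) (rm 𝔭 B) = rd 𝔭 (P q)
  ndist : ∀ q ∈ C, ¬ Dist (rm (𝔮 q) A) (rm (𝔮 q) B)

/-- The polynomial `f` is bad: it is irreducible and comes from a pair. -/
def LBadN (g N c : ℕ) (S C : Finset ℕ) (𝔮 : ℕ → Ideal (𝓞 F)) (P : ℕ → (𝓞 F)[X])
    (f : (𝓞 F)[X]) : Prop :=
  Irreducible (fF f) ∧ ∃ w, Typ g w ∧ Gap g N w ∧ (Mid g N w ∨ Deep g N c w) ∧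
    ∃ A B : Mt g (𝓞 F), XsetN g N c w S C 𝔮 P A B ∧ chp (mF A) (mF B) = fF f

end mats

/-- CQN. Over a finite field: the symmetric `B` with characteristic polynomial `x h(x)` (with respect to `A`) which are not
distinguished. This is in the proof of `Run7/h13/SR/CQC.lean` (the second class, `c = c₀`). -/
def S_CQN : Prop := ∀ (g : ℕ) (κ : Type) [Field κ] [Finite κ], 1 ≤ g → (2 : κ) ≠ 0 →
  ∀ h : κ[X], h.Monic → Irreducible h → h.natDegree = 2 * g → ∀ A : Mt g κ, A.IsSymm →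
  (∃ x : κ, x ≠ 0 ∧ A.det = (-1) ^ g * x ^ 2) →
  2 * Nat.card {B : Mt g κ // B.IsSymm ∧ chp A B = X * h ∧ ¬ Dist A B} ≤
    Nat.card κ ^ (g * (2 * g + 1))

/-- PBN (`theorem pbn (h1 : S_CQN) : S_PBN`). Copy `Run7/h13/SR/PBC.lean` with `XsetN` instead of `XsetC`: for `q ∈ C` use `CQN`
at `𝔮 q` instead of `CQA`. -/
def S_PBN : Prop := ∀ (F : Type) [Field F] [NumberField F] (g c : ℕ), 1 ≤ g → ∃ C₀ K : ℕ,
  ∀ (W : ℕ) (S C : Finset ℕ) (𝔮 : ℕ → Ideal (𝓞 F)) (h P : ℕ → (𝓞 F)[X]), K ≤ W →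
  GoodS g W S 𝔮 h P → C ⊆ S → ∀ (N : ℕ) (w : Fin (2 * g + 1) → ℤ), Typ g w →
  ((∏ q ∈ S, q : ℕ) : ℝ) ≤ (2 : ℝ) ^ (2 * (N : ℤ) + 2 * w 0) →
  2 ^ C.card * (∏ q ∈ S, q ^ (2 * g)) ^ Module.finrank ℚ F *
      {p : Mt g (𝓞 F) × Mt g (𝓞 F) | XsetN g N c w S C 𝔮 P p.1 p.2}.ncard ≤
    C₀ * 2 ^ (Module.finrank ℚ F * (eA g w + 2 * N * dd g))

/-- PBN0: the trivial bound, copy of `PBC0`. -/
def S_PBN0 : Prop := ∀ (F : Type) [Field F] [NumberField F] (g c : ℕ), 1 ≤ g → ∃ C₀ : ℕ,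
  ∀ (S C : Finset ℕ) (𝔮 : ℕ → Ideal (𝓞 F)) (P : ℕ → (𝓞 F)[X]) (N : ℕ)
  (w : Fin (2 * g + 1) → ℤ), Typ g w →
  {p : Mt g (𝓞 F) × Mt g (𝓞 F) | XsetN g N c w S C 𝔮 P p.1 p.2}.Finite ∧
  2 ^ (Module.finrank ℚ F * (2 * N)) *
      {p : Mt g (𝓞 F) × Mt g (𝓞 F) | XsetN g N c w S C 𝔮 P p.1 p.2}.ncard ≤
    C₀ * 2 ^ (Module.finrank ℚ F * (eA g w + eB g N w))

/-- ORBN: copy `Run7/h824/SR/ORBC.lean` with `XsetN` (the unipotent matrices preserve `Dist`, and so does the inverse). -/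
def S_ORBN : Prop := ∀ (F : Type) [Field F] [NumberField F] (g : ℕ), ∃ κ C₀ : ℕ, ∀ (c : ℕ)
  (S C : Finset ℕ) (𝔮 : ℕ → Ideal (𝓞 F)) (P : ℕ → (𝓞 F)[X]) (N : ℕ)
  (w : Fin (2 * g + 1) → ℤ), Typ g w →
  {p : Mt g (𝓞 F) × Mt g (𝓞 F) | XsetN g (N + κ) (c + κ) w S C 𝔮 P p.1 p.2}.Finite →
  {f : (𝓞 F)[X] | Irreducible (fF f) ∧ ∃ A B : Mt g (𝓞 F), XsetN g N c w S C 𝔮 P A B ∧
      chp (mF A) (mF B) = fF f}.ncard * 2 ^ (Module.finrank ℚ F * eU g w) ≤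
  C₀ * {p : Mt g (𝓞 F) × Mt g (𝓞 F) | XsetN g (N + κ) (c + κ) w S C 𝔮 P p.1 p.2}.ncard

/-- BADN (`theorem badn (h1 : S_PBN) (h2 : S_PBN0) (h3 : S_ORBN) : S_BADN`): copy `Run7/h13/SR/BADC.lean`. -/
def S_BADN : Prop := ∀ (F : Type) [Field F] [NumberField F] (g c : ℕ), 1 ≤ g → ∃ C₀ K : ℕ,
  ∀ (W : ℕ) (S C : Finset ℕ) (𝔮 : ℕ → Ideal (𝓞 F)) (h P : ℕ → (𝓞 F)[X]), K ≤ W →
  GoodS g W S 𝔮 h P → C ⊆ S → ∃ N₀ : ℕ, ∀ N ≥ N₀, {f : (𝓞 F)[X] | LBadN g N c S C 𝔮 P f}.Finite ∧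
  2 ^ C.card * (∏ q ∈ S, q ^ (2 * g)) ^ Module.finrank ℚ F *
      {f : (𝓞 F)[X] | LBadN g N c S C 𝔮 P f}.ncard ≤
    C₀ * 2 ^ (Module.finrank ℚ F * (2 * N * dd g))

/-- LEVBN (`theorem levbn (h : S_BADN) : S_LEVBN`): copy `Run7/h576/SR/LEVB.lean`. -/
def S_LEVBN : Prop := ∀ (F : Type) [Field F] [NumberField F] (g κ : ℕ), 1 ≤ g →
  ∀ δ ε : ℝ, 0 < δ → 0 < ε → ε < 1 / 2 → ∃ m s₀ K : ℕ,
  ∀ (W : ℕ) (S T : Finset ℕ) (𝔮 : ℕ → Ideal (𝓞 F)) (h P : ℕ → (𝓞 F)[X]), K ≤ W →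
  GoodS g W S 𝔮 h P → T ⊆ S → s₀ ≤ T.card → ∃ N₀ : ℕ, ∀ N ≥ N₀,
  {f : (𝓞 F)[X] | ∃ Z ⊆ T, (1 / 2 + ε) * T.card ≤ Z.card ∧
    ∀ C ⊆ Z, C.card = m → LBadN g N κ S C 𝔮 P f}.Finite ∧
  (((∏ q ∈ S, q ^ (2 * g)) ^ Module.finrank ℚ F : ℕ) : ℝ) *
    ({f : (𝓞 F)[X] | ∃ Z ⊆ T, (1 / 2 + ε) * T.card ≤ Z.card ∧
      ∀ C ⊆ Z, C.card = m → LBadN g N κ S C 𝔮 P f}.ncard : ℝ) ≤
    δ * 2 ^ (Module.finrank ℚ F * (2 * N * dd g))

/-- CHIN. A distinguished pair gives a distinguished vector. Proof. `ξ` over `𝓞 F / 𝔮`; lift its coordinates to `𝓞 F` and put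
`x = ∑ ξ_i e_i`, `s = 1`. The relation between `form` of the Gram matrices and `top (θ ^ m x ^ 2 / α)` is in
`Run7/h824/SR/CHIR.lean` (there it is used in the other direction). -/
def S_CHIN : Prop := ∀ (g : ℕ) (F L : Type) [Field F] [NumberField F] [Field L] [NumberField L]
  [Algebra F L] (f : (𝓞 F)[X]) (θ : L) (hG : IsGen g f θ) (m₀ : ℕ) (α : L)
  (Λ : Submodule (𝓞 F) L)
  (e : Fin (2 * g + 1) → L), f.coeff (2 * g) = 0 → α ≠ 0 → LatR hG m₀ α Λ → (∀ i, e i ∈ Λ) →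
  LinearIndependent F e → ∀ A B : Mt g (𝓞 F), Gr hG α e A B →
  ∀ 𝔮 : Ideal (𝓞 F), 𝔮.IsPrime → 𝔮 ≠ ⊥ → A.det ∉ 𝔮 →
    Dist (rm 𝔮 A) (rm 𝔮 B) → DVec hG α Λ 𝔮

/-- TVN: the converse of `S_TVR`. Proof. Let `x, s` be the distinguished vector, `z = x ^ 2 / α - s ^ 2`, integral (`SDn`), and
`top (θ ^ m z) ∈ 𝔮` for `m ≤ 2 g` (as `top (θ ^ m) = 0` for `m < 2 g`, `top (θ ^ (2 g)) = 1`). As `𝓞 L = 𝓞 F [θ]` (`S_INT`, used in
`Run7/h711/SR/TVR.lean`) write `z = ∑ c_i θ ^ i` with `c_i ∈ 𝓞 F`; the matrix of the `top (θ ^ (m + i))` is triangular with ones on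
the antidiagonal, so all `c_i ∈ 𝔮`. So `z ∈ 𝔓`, `x ^ 2 / α` is congruent to the unit `s ^ 2` modulo `𝔓`, which is `Sq1 𝔓 α`. -/
def S_TVN : Prop := ∀ (g : ℕ) (F L : Type) [Field F] [NumberField F] [Field L] [NumberField L]
  [Algebra F L] (f : (𝓞 F)[X]) (θ : L), ∀ hG : IsGen g f θ, SqF g f → ∀ (m₀ : ℕ) (α : L)
  (Λ : Submodule (𝓞 F) L), α ≠ 0 → SDn α Λ → LatR hG m₀ α Λ →
  ∀ 𝔮 : Ideal (𝓞 F), 𝔮.IsPrime → 𝔮 ≠ ⊥ → DVec hG α Λ 𝔮 →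
  ∀ 𝔓 : HeightOneSpectrum (𝓞 L), Ov 𝔮 𝔓 → Sq1 𝔓 α

/-- LBN (`theorem lbn (h3 : S_CHIN) : S_LBN`): copy `Run7/h824/SR/LBR.lean` (use `chir` and other pieces which are proved there; the
Gram matrices `A`, `B` of `CHIR` satisfy `Gr`, so `CHIN` applies to them and gives `¬ Dist` at the `q ∈ C`). -/
def S_LBN : Prop := ∀ (g : ℕ) (F : Type) [Field F] [NumberField F] (m₀ : ℕ), m₀ ≠ 0 → 1 ≤ g →
  ∃ κ : ℕ,
  ∀ (L : Type) [Field L] [NumberField L] [Algebra F L] (f : (𝓞 F)[X]) (θ : L) (B N W : ℕ)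
  (S C : Finset ℕ) (𝔮 : ℕ → Ideal (𝓞 F)) (h P : ℕ → (𝓞 F)[X]), κ ≤ W → GoodS g W S 𝔮 h P →
  C ⊆ S → ∀ hG : IsGen g f θ, Ht g B f → 2 ^ κ * B ≤ 4 ^ N → (∀ q ∈ S, Cg (sp F q) f (P q)) →
  ∀ (α : L) (Λ : Submodule (𝓞 F) L), α ≠ 0 → IsSquare (Algebra.norm F α) → LatR hG m₀ α Λ →
  (∀ q ∈ C, ¬ DVec hG α Λ (𝔮 q)) → ¬ IsSquare α → LBadN g N κ S C 𝔮 P f

/-- PRN (`theorem prn (h2 : S_TVN) (h3 : S_LBN) : S_PRN`). Copy `Run7/h824/SR/PRX.lean`: if `α` is not a square at a prime over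
`𝔮 q` (`q ∈ C`) then there is no distinguished vector at `𝔮 q` (`TVN`), and `LBN` applies (`SDR` gives the lattice). -/
def S_PRN : Prop := ∀ (g : ℕ) (F : Type) [Field F] [NumberField F] (m₀ : ℕ), m₀ ≠ 0 → 1 ≤ g →
  ∃ κ : ℕ,
  ∀ (L : Type) [Field L] [NumberField L] [Algebra F L] (f : (𝓞 F)[X]) (θ : L) (B N W : ℕ)
  (S C : Finset ℕ) (𝔮 : ℕ → Ideal (𝓞 F)) (h P : ℕ → (𝓞 F)[X]), κ ≤ W → GoodS g W S 𝔮 h P →
  C ⊆ S → IsGen g f θ → SqF g f → Ht g B f → 2 ^ κ * B ≤ 4 ^ N →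
  (∀ q ∈ S, Cg (sp F q) f (P q)) →
  ∀ α : L, α ≠ 0 → IsSquare (Algebra.norm F α) → ¬ IsSquare α →
  (∀ 𝔓 : HeightOneSpectrum (𝓞 L), Ev 𝔓 α ∨ (m₀ : 𝓞 L) ∈ 𝔓.asIdeal) →
  (∀ q ∈ C, ∀ 𝔓 : HeightOneSpectrum (𝓞 L), Ov (𝔮 q) 𝔓 → Ev 𝔓 α) →
  (∀ q ∈ C, ∃ 𝔓 : HeightOneSpectrum (𝓞 L), Ov (𝔮 q) 𝔓 ∧ ¬ Sq1 𝔓 α) →
  LBadN g N κ S C 𝔮 P f

/-! ### E1. The exact size over `ℚ` -/

/-- UNX. All units outside a finite set `T` of primes, modulo squares. Proof. As in `Run7/h382/SR/UN1.lean` (which finds `2 ^ |T|`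
elements; the same proof shows that a product of two different ones times a UNIT of `𝓞 L` is not a square), multiplied with
representatives of the units modulo squares: the unit group is (finite cyclic of even order) `× ℤ ^ rank`, so there are
`2 ^ (rank + 1)` units no two of which differ by a square (Mathlib: `NumberField.Units.torsion`,
`NumberField.Units.fundSystem`, `NumberField.Units.exist_unique_eq_mul_prod`; `-1` is in the torsion group). -/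
def S_UNX : Prop := ∀ (L : Type) [Field L] [NumberField L] (T : Finset (HeightOneSpectrum (𝓞 L))),
  ∃ X : Finset L, X.card = 2 ^ (T.card + NumberField.Units.rank L + 1) ∧
    (∀ x ∈ X, x ≠ 0 ∧ ∀ 𝔓 : HeightOneSpectrum (𝓞 L), 𝔓 ∉ T → 𝔓.valuation L x = 1) ∧
    ∀ x ∈ X, ∀ y ∈ X, x ≠ y → ¬ IsSquare (x * y)

/-- RE2. The real place. `[L : ℚ] = 3`, so the rank of the units is `1` (one real embedding of `L`) or `2` (three). Proof. If `f` has one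
real zero `e`, an `x = p(θ)` with positive norm has `p(e) > 0`, and `p` is a square modulo `f` over `ℝ` (`κ = 0`;
`Run7.h245.NF.exists_sq`; `S_SQR` in `Run7/h711/SR/SQR.lean`). If `f` has three real zeros `e₁ < e₂ < e₃` let `κ x` be the sign of
`p(e₁)`; if `κ x = κ y` then `(p p')(e₁) > 0`, `(p p')(e₂) (p p')(e₃) > 0`. If `(p p')(e₂) > 0` it is a square modulo `f`; otherwise
take `c ∈ (e₁, e₂)`, `f(c) > 0`, and `(c - X) p p'` is positive at the three zeros, so a square modulo `f` (`LocIm` with `u = X - c`,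
`v = √f(c)`). -/
def S_RE2 : Prop := ∀ (L : Type) [Field L] [NumberField L] [Algebra ℚ L] (f : (𝓞 ℚ)[X]) (θ : L),
  IsGen 1 f θ → f.coeff 2 = 0 →
  (NumberField.Units.rank L = 1 ∨ NumberField.Units.rank L = 2) ∧
  ∃ κ : L → Fin 2, (NumberField.Units.rank L = 1 → ∀ x, κ x = 0) ∧
    ∀ x y : L, x ≠ 0 → y ≠ 0 → IsSquare (Algebra.norm ℚ x) → IsSquare (Algebra.norm ℚ y) →
    κ x = κ y → ∀ h₀ : ℚ[X], aeval θ h₀ = x * y → ∀ σ : ℚ →+* ℝ,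
      LocIm ℝ ((fF f).map σ) (h₀.map σ)

/-- The ring `ℤ / 8 [θ]`, `θ ^ 3 = - θ - 1`: the product. -/
def m8 (a b : ZMod 8 × ZMod 8 × ZMod 8) : ZMod 8 × ZMod 8 × ZMod 8 :=
  (a.1 * b.1 - (a.2.1 * b.2.2 + a.2.2 * b.2.1),
    a.1 * b.2.1 + a.2.1 * b.1 - (a.2.1 * b.2.2 + a.2.2 * b.2.1) - a.2.2 * b.2.2,
    a.1 * b.2.2 + a.2.1 * b.2.1 + a.2.2 * b.1 - a.2.2 * b.2.2)

/-- The norm. -/
def n8 (a : ZMod 8 × ZMod 8 × ZMod 8) : ZMod 8 :=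
  (Matrix.of ![![(m8 a (1, 0, 0)).1, (m8 a (0, 1, 0)).1, (m8 a (0, 0, 1)).1],
    ![(m8 a (1, 0, 0)).2.1, (m8 a (0, 1, 0)).2.1, (m8 a (0, 0, 1)).2.1],
    ![(m8 a (1, 0, 0)).2.2, (m8 a (0, 1, 0)).2.2, (m8 a (0, 0, 1)).2.2]]).det

/-- `a` is a square of a unit or `- θ` times such a square. -/
def K8 (a : ZMod 8 × ZMod 8 × ZMod 8) : Prop :=
  ∃ s : ZMod 8 × ZMod 8 × ZMod 8, IsUnit (n8 s) ∧ (a = m8 s s ∨ a = m8 (0, -1, 0) (m8 s s))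

/-- TWF. The `a` with norm `1` (112 of them) form two classes modulo `K8` (56 elements); checked with a computer. By `decide` (find a
clever way: e.g. `m8` is associative and commutative, `n8` multiplicative, and for one fixed `t` of norm `1`, not in `K8`, every
`a` of norm `1` satisfies `K8 a` or `K8 (m8 t a)`; the latter is a search over at most `512` elements for each of `112`), or by
hand. -/
def S_TWF : Prop := ∀ a b : ZMod 8 × ZMod 8 × ZMod 8, n8 a = 1 → n8 b = 1 → (K8 a ↔ K8 b) →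
  K8 (m8 a b)

/-- SQE (`theorem sqe : S_SQE`): as `S_SQ2` (`Run7/h228/SR/SQ2.lean`) with `8` instead of `16`: `y ^ 2 + y - 2 Z / m`. -/
def S_SQE : Prop := ∀ (g : ℕ) (F L : Type) [Field F] [NumberField F] [Field L] [NumberField L]
  [Algebra F L] (f : (𝓞 F)[X]) (θ : L), 1 ≤ g → IsGen g f θ → ∀ w : HeightOneSpectrum (𝓞 F),
  (2 : 𝓞 F) ∈ w.asIdeal → (rd w.asIdeal f).Separable → ∀ (h₀ : F[X]) (u z : L),
  aeval θ h₀ = u ^ 2 * (1 + 8 * z) →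
  (∀ 𝔓 : HeightOneSpectrum (𝓞 L), Ov w.asIdeal 𝔓 → 𝔓.valuation L z ≤ 1) →
  ∃ s : (w.adicCompletion F)[X], (fF f).map (algebraMap F (w.adicCompletion F)) ∣
    h₀.map (algebraMap F (w.adicCompletion F)) - s ^ 2

/-- TW2 (`theorem tw2 (h1 : S_TWF) (h2 : S_SQE) : S_TW2`). The place 2. Proof. `x` a unit at the primes over `2`. By `GAT`
(`Run7/h366/SR/GAT.lean`) there is an odd `m` with `m x = a(θ)`, `a` integral of degree `≤ 2`; `a' = m a`, `a'(θ) = m ^ 2 x`. Its coefficients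
modulo `8` are an element `a` of `ℤ / 8 [θ]`; if the norm of `x` is a square then `N(a'(θ))` is an odd square, so `n8 a = 1`.
Let `κ x` say whether `K8 a`. If `κ x = κ y` then by `TWF` `a'(θ) b'(θ) = s ^ 2` or `- θ s ^ 2` modulo `8`, `s` a unit at `2`, so
`x y = u ^ 2 (1 + 8 z)` or `- θ u ^ 2 (1 + 8 z)` with `z` integral at the primes over `2`. In the first case `x y` is a square over the
completion (`SQE`), in the second case `x y (0 - θ)` is a square and `X = 0` is the `x`-coordinate of a point: `f(0)` is `1` modulo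
`16`, so it is a nonzero square in `ℚ_2` (`S_SQ8`-like, `Run7/h576/SR/HEN.lean`...). -/
def S_TW2 : Prop := ∀ (L : Type) [Field L] [NumberField L] [Algebra ℚ L] (f : (𝓞 ℚ)[X]) (θ : L),
  IsGen 1 f θ → f.coeff 2 = 0 → (16 : 𝓞 ℚ) ∣ f.coeff 1 - 1 → (16 : 𝓞 ℚ) ∣ f.coeff 0 - 1 →
  ∃ κ : L → Fin 2, ∀ x y : L, x ≠ 0 → y ≠ 0 →
    (∀ 𝔓 : HeightOneSpectrum (𝓞 L), (2 : 𝓞 L) ∈ 𝔓.asIdeal → 𝔓.valuation L x = 1) →
    (∀ 𝔓 : HeightOneSpectrum (𝓞 L), (2 : 𝓞 L) ∈ 𝔓.asIdeal → 𝔓.valuation L y = 1) →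
    IsSquare (Algebra.norm ℚ x) → IsSquare (Algebra.norm ℚ y) →
    κ x = κ y → ∀ h₀ : ℚ[X], aeval θ h₀ = x * y →
    ∀ w : HeightOneSpectrum (𝓞 ℚ), (2 : 𝓞 ℚ) ∈ w.asIdeal →
      LocF (w.adicCompletion ℚ) (fF f) h₀

/-- SZE (`theorem sze (h1 : S_UNX) (h2 : S_RE2) (h3 : S_TW2) : S_SZE`). At least `2 ^ |S|` classes. Proof. `T` the set of the primes `𝔔 q`,
`q ∈ S` (`|T| = |S|`, as in `Run7/h382/SR/UNI.lean`), `X₀` the set of `UNX`, `2 ^ (|S| + r + 1)` elements, `r = 1` or `2`. The norms have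
even valuations (`S_NEV`, `Run7/h711/SR/NEV.lean`), so they are `± 1` times squares in `ℚ` (class number one): by the pigeonhole
principle half of the elements of `X₀` have the same class; multiply them by a fixed one of them: `2 ^ (|S| + r)` elements with square
norm. If `r = 2` half of them have the same `κ` of `RE2`; multiply them by a fixed one `x₀`: `2 ^ (|S| + 1)` elements `x x₀` with square
norm and such that all products of two of them are products `(x x₀) (y x₀)` of elements with the same `κ`... Precisely: let `X₂`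
be the subset (of at least `2 ^ (|S| + 1)` elements) with the same `κ` of `RE2` and `X₃ ⊆ X₂` a subset of at least `2 ^ |S|` elements
with the same `κ` of `TW2`; fix `x₀ ∈ X₃`, `X = {x x₀ : x ∈ X₃}`. -/
def S_SZE : Prop := ∀ (L : Type) [Field L] [NumberField L] [Algebra ℚ L] (f : (𝓞 ℚ)[X]) (θ : L)
  (W : ℕ) (S : Finset ℕ) (𝔮 : ℕ → Ideal (𝓞 ℚ)) (r P : ℕ → (𝓞 ℚ)[X]), IsGen 1 f θ → SqF 1 f →
  f.coeff 2 = 0 → (16 : 𝓞 ℚ) ∣ f.coeff 1 - 1 → (16 : 𝓞 ℚ) ∣ f.coeff 0 - 1 →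
  GoodS 1 W S 𝔮 r P → (∀ q ∈ S, Cg (𝔮 q) f (X * r q)) →
  ∃ X : Finset L, 2 ^ S.card ≤ X.card ∧ (∀ x ∈ X, ∀ y ∈ X, x ≠ y → ¬ IsSquare (x * y)) ∧
    ∀ x ∈ X, x ≠ 0 ∧ IsSquare (Algebra.norm ℚ x) ∧
      (∀ 𝔓 : HeightOneSpectrum (𝓞 L), (∀ q ∈ S, Ov (𝔮 q) 𝔓 → 𝔓.valuation L θ ≠ 1) → Ev 𝔓 x) ∧
      ∃ h₀ : ℚ[X], aeval θ h₀ = x ∧
        (∀ w : HeightOneSpectrum (𝓞 ℚ), (2 : 𝓞 ℚ) ∈ w.asIdeal →
          LocF (w.adicCompletion ℚ) (fF f) h₀) ∧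
        ∀ σ : ℚ →+* ℝ, LocIm ℝ ((fF f).map σ) (h₀.map σ)

/-! ### E3. The Markov chain (plain Mathlib) -/

/-- The number `C_{2,d}` of Poonen and Rains. -/
noncomputable def cc (d : ℕ) : ℝ :=
  (∏' j : ℕ, (1 + (2 : ℝ)⁻¹ ^ j))⁻¹ * ∏ i ∈ Finset.Icc 1 d, 2 / ((2 : ℝ) ^ i - 1)

/-- QS. Proof. `a d = ∏_{i = 1}^d 2 / (2 ^ i - 1)`; `S(x) = ∑ a d x ^ d` converges for all `x` and satisfies `S(x) = (1 + x) S(x / 2)`
(coefficients: `a d (1 - 2 ^ (-d)) = a (d - 1) 2 ^ (1 - d)`), so `S(x) = ∏_{j < n} (1 + x 2 ^ (-j)) S(x 2 ^ (-n))`, and `n → ∞`: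
`S(1) = ∏' (1 + 2 ^ (-j))`, `S(-1) = 0`. -/
def S_QS : Prop := (∀ d, 0 < cc d) ∧ (∀ d, cc (d + 1) * ((2 : ℝ) ^ (d + 1) - 1) = 2 * cc d) ∧
  HasSum (fun i => cc (2 * i)) (1 / 2) ∧ HasSum (fun i => cc (2 * i + 1)) (1 / 2)

/-- STEP. One more element, `Λ` maximal isotropic. Proof. Let `V = Sj Λ J`, `V' = Sj Λ (J ∪ {q})`, `V₀ = V ∩ V'` (the elements of `V` with
`(v q).2 = 0`), `V₁ = {l ∈ Λ : (l i).1 = 0 for i ∉ J ∪ {q}, (l i).2 = 0 for i ∈ J}`. `V` has index `≤ 2` in `V₁` (`(l q).1`), `V'` has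
index `≤ 2` in `V₁` (`(l q).2`), and by `iso` `(l q).1 (l q).2 = 0` for `l ∈ V₁`, so `V₁ = V ∪ V'`, which is only possible for groups if
`V ⊆ V'` or `V' ⊆ V`, so `V₀` is one of them. It remains to see that `V₀ ≠ V₁`, i.e. `|V₁| = 2 |V₀|`. As `Λ` is isotropic
with `2 ^ |ι|` elements it is its own orthogonal space for `⟨l, m⟩ = ∑ (l₁ m₂ + m₁ l₂)` (polarise `iso`; the orthogonal of a
subgroup `Λ` has `4 ^ |ι| / |Λ|` elements). If `V₀ = V₁` let `U` be the group of all `l ∈ (𝔽₂ × 𝔽₂)^ι` with `(l i).1 = 0` for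
`i ∉ J ∪ {q}`, `(l i).2 = 0` for `i ∈ J` (and anything at `q`), `U^⊥` = the same with `0` at `q`. `Λ ∩ U = Λ ∩ U^⊥` gives
`|Λ ∩ U| = |Λ ∩ U^⊥|`, but `|Λ ∩ U| = |Λ| |U| / |Λ + U| = |Λ| |U| / (4 ^ |ι| / |Λ ∩ U^⊥|)` (the orthogonal of `Λ + U` is `Λ ∩ U^⊥`), i.e.
`|Λ ∩ U| = |U| 2 ^ (-|ι|) |Λ ∩ U^⊥| = 2 |Λ ∩ U^⊥|`, because `|U| = 2 ^ (|ι| + 1)`. -/
def S_STEP : Prop := ∀ (ι : Type) [Fintype ι] (Λ : AddSubgroup (ι → ZMod 2 × ZMod 2))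
  (J : Finset ι) (q : ι), (∀ l ∈ Λ, ∑ i, (l i).1 * (l i).2 = 0) →
  2 ^ Fintype.card ι ≤ Nat.card Λ → q ∉ J →
  ((∃ v ∈ Sj Λ J, (v q).2 ≠ 0) ∧ Nat.card (Sj Λ J) = 2 * Nat.card (Sj Λ (insert q J))) ∨
  ((∀ v ∈ Sj Λ J, (v q).2 = 0) ∧ Nat.card (Sj Λ (insert q J)) = 2 * Nat.card (Sj Λ J))

/-- MCC (`theorem mcc (h : S_QS) : S_MCC`). Convergence of the Markov chain `d → d + 1` with probability `2 ^ (-d)`, `d → d - 1` with probability `1 - 2 ^ (-d)`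
(`d = 0` goes to `1`), in a robust form: `h 0` is the indicator function of `d₁`,
`h (t + 1) d = 2 ^ (-d) h t (d + 1) + (1 - 2 ^ (-d)) h t (d - 1)`. Then `h t d` is within `C 2 ^ d 2 ^ (-t)` of
`2 cc d₁` if `d + t + d₁` is even, and it is `0` otherwise. Proof. (a) By induction on `t`:
`|h t (d + 2) - h t d| ≤ 2 ^ (-t) (2 ^ (d + 2) - 2 ^ d)`, since
`h (t+1) (d+2) - h (t+1) d = 2 ^ (-d-2) (h t (d+3) - h t (d+1)) + (1 - 2 ^ (-d)) (h t (d+1) - h t (d-1))` and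
`2 ^ (-d-2) (2 ^ (d+3) - 2 ^ (d+1)) + (1 - 2 ^ (-d)) (2 ^ (d+1) - 2 ^ (d-1)) = (2 ^ (d+2) - 2 ^ d) / 2`. (The case `d = 0` is fine,
as then `1 - 2 ^ (-d) = 0`.) So `|h t d' - h t d| ≤ 2 ^ (-t) |2 ^ d' - 2 ^ d|` for `d' = d` modulo `2`. (b) `cc` is stationary:
`∑_d cc d h (t+1) d = ∑_d cc d h t d`, separately: `∑_{d even} cc d h (t+1) d = ∑_{d odd} cc d h t d` and vice versa (the balance
equation `cc d 2 ^ (-d) = cc (d+1) (1 - 2 ^ (-d-1))`, `S_QS`). So `cc d₁ = ∑_{d = d₁ + t (2)} cc d h t d`, and by (a) this is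
`h t d₀ / 2` up to `2 ^ (-t) ∑ cc d (2 ^ d + 2 ^ d₀)`, `∑ cc d 2 ^ d ≤ 3` (again by the recursion, or use a crude bound). -/
def S_MCC : Prop := ∃ C : ℝ, 0 < C ∧ ∀ (d₁ : ℕ) (h : ℕ → ℕ → ℝ),
  (∀ d, h 0 d = if d = d₁ then 1 else 0) →
  (∀ t d, h (t + 1) d = (2 : ℝ)⁻¹ ^ d * h t (d + 1) + (1 - (2 : ℝ)⁻¹ ^ d) * h t (d - 1)) →
  ∀ t d, |h t d - (if (d + t + d₁) % 2 = 0 then 2 * cc d₁ else 0)| ≤ C * 2 ^ d * (2 : ℝ)⁻¹ ^ t

/-- MCD (`theorem mcd (h1 : S_STEP) (h2 : S_MCC) : S_MCD`). Proof. Let `J` be a union of `J₀` and one element of each of the levels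
`1, ..., j`, `V = Sj Λ J`, `|V| = 2 ^ d`. For `q ∈ T (j + 1)` by `STEP` the dimension of `Sj Λ (J ∪ {q})` is `d + 1` if `V` is trivial at `q` and
`d - 1` otherwise. The number of the `q ∈ T (j + 1)` at which `V` is trivial is `2 ^ (-d) ∑_{v ∈ V} ∑_q (-1) ^ ((v q).2)`
(orthogonality), and `|∑_q (-1) ^ ((v q).2)| ≤ 2 ε |T (j + 1)|` for `v ≠ 0` by the last hypothesis, so it is `2 ^ (-d) |T (j + 1)|` up to
`2 ε |T (j + 1)|`. With `h` as in `S_MCC` (`0 ≤ h ≤ 1`): the average of `h t (dim Sj Λ (J ∪ {q}))` over `q ∈ T (j + 1)` is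
`h (t + 1) d` up to `2 ε`. So the average of `h 0 (dim)` over all `J ∈ JJ T k` is `h k s` up to `2 k ε`, `2 ^ s = |Sj Λ J₀|`. And
`s ≤ 2 n₀`: an element of `Sj Λ J₀` is determined by its restriction to `T 0`. Choose `k` with `C 2 ^ (2 n₀) 2 ^ (-k) ≤ δ / 2`, then
`ε = δ / (4 k + 4)`. (`JJ` and sums over it: see `Run7/h216/MO/MOM.lean`, which does the same for moments.) -/
def S_MCD : Prop := ∀ (n₀ : ℕ) (δ : ℝ), 0 < δ → ∃ (k : ℕ) (ε : ℝ), 1 ≤ k ∧ 0 < ε ∧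
  ∀ (ι : Type) [Fintype ι] (Λ : AddSubgroup (ι → ZMod 2 × ZMod 2)) (T : ℕ → Finset ι)
    (J₀ : Finset ι),
  (∀ l ∈ Λ, ∑ i, (l i).1 * (l i).2 = 0) → 2 ^ Fintype.card ι ≤ Nat.card Λ →
  (∀ i ≤ k, ∀ j ≤ k, i ≠ j → Disjoint (T i) (T j)) →
  (∀ j, 1 ≤ j → j ≤ k → (T j).Nonempty) → (T 0).card ≤ n₀ → J₀ ⊆ T 0 →
  (∀ l ∈ Λ, (∀ i, (l i).1 = 0) → (∀ i ∈ T 0, (l i).2 = 0) → l = 0) →
  (∀ j, 1 ≤ j → j ≤ k → ∀ l ∈ Λ, l ≠ 0 → (∀ i, (∀ m < j, i ∉ T m) → (l i).1 = 0) →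
    (((T j).filter fun i => (l i).2 = 0).card : ℝ) ≤ (1 / 2 + ε) * (T j).card ∧
    (((T j).filter fun i => (l i).2 ≠ 0).card : ℝ) ≤ (1 / 2 + ε) * (T j).card) →
  ∃ s : ℕ, Nat.card (Sj Λ J₀) = 2 ^ s ∧ ∀ d : ℕ,
    |((((JJ T k).filter fun J => Nat.card (Sj Λ (J₀ ∪ J)) = 2 ^ d).card : ℝ) / (JJ T k).card) -
      (if (s + k + d) % 2 = 0 then 2 * cc d else 0)| ≤ δ

/-! ### E4. Two short intervals, the class modulo 16 -/

/-- WIN2. Primes in two short intervals. Proof. `Pool.Agent.Cov.…pnt_residueClass` (`Cov/PNT.lean`, PNT in progressions, von Mangoldt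
form, `q = 8`, `a = 1`): `∑_{n ≤ x, n = 1 mod 8} Λ(n) ~ x / 4`; the prime powers contribute `O(√x log x)`, so the number of primes in
`(y, (1 + ρ) y]` in the class is at least `ρ y / (5 log (2 y))` for all large `y`; also in `(c y, (1 + ρ) c y]`. -/
def S_WIN2 : Prop := ∀ (ρ c : ℝ), 0 < ρ → 1 ≤ c → ∀ n Y₀ : ℕ, ∃ (y : ℝ) (T₁ T₂ : Finset ℕ),
  Y₀ ≤ y ∧ T₁.card = n ∧ T₂.card = n ∧
  (∀ q ∈ T₁, q.Prime ∧ q % 8 = 1 ∧ y < q ∧ (q : ℝ) ≤ (1 + ρ) * y) ∧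
  ∀ q ∈ T₂, q.Prime ∧ q % 8 = 1 ∧ c * y < q ∧ (q : ℝ) ≤ (1 + ρ) * (c * y)

/-- GF2: the polynomial of `Run7.h245.NF.gf1` (`Run7/h245/NF/Gf.lean`) over `ℚ`, but congruent to `x ^ 3 + x + 1` modulo `16`. Proof. Modify the
proof of `gf1`: `W = 8 * primorial`; in the Chinese remainder theorem prescribe the coefficients `1, 1` modulo the power `16` of the
prime over `2` (`x ^ 3 + x + 1` is irreducible modulo `2`), the others as there. (`rv v f = f.map (Ideal.Quotient.mk v.asIdeal)`.) -/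
def S_GF2 : Prop := ∀ M : ℕ, ∃ (W : ℕ) (f₁ : (𝓞 ℚ)[X]), f₁.Monic ∧ f₁.natDegree = 2 * 1 + 1 ∧
  f₁.coeff (2 * 1) = 0 ∧ 0 < W ∧ 2 ∣ W ∧
  (∀ v : HeightOneSpectrum (𝓞 ℚ), (2 : 𝓞 ℚ) ∈ v.asIdeal → Irreducible (Pool.Agent.N352.PF.rv v f₁)) ∧
  (∀ v : HeightOneSpectrum (𝓞 ℚ), (W : 𝓞 ℚ) ∈ v.asIdeal → (Pool.Agent.N352.PF.rv v f₁).Separable) ∧
  (∀ p : ℕ, p.Prime → p ≤ M → p ∣ W) ∧
  (∀ v : HeightOneSpectrum (𝓞 ℚ), (W : 𝓞 ℚ) ∈ v.asIdeal → Irreducible (Pool.Agent.N352.PF.rv v f₁)) ∧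
  16 ∣ W ∧ (16 : 𝓞 ℚ) ∣ f₁.coeff 1 - 1 ∧ (16 : 𝓞 ℚ) ∣ f₁.coeff 0 - 1

end Pool.Agent.Run7.h245.DI
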