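import Pool.Agent.Run7.h245.DI.As3
import Pool.Agent.Run7.h594.DI.SZE
import Pool.Agent.Run7.h594.DI.TW2
import Pool.Agent.Run7.h83.DI.MCD
import Pool.Agent.Run7.h847.DI.STEP
import Pool.Agent.Run7.h799.DI.QS
import Pool.Agent.Run7.h942.DI.GF2
import Pool.Agent.Run7.h437.DI.WIN2
import Pool.Agent.Run7.h437.DI.SQE
import Pool.Agent.Run7.h610.DI.RE2
import Pool.Agent.Run7.h224.DI.TWF
import Pool.Agent.Run7.h224.DI.UNX
import Pool.Agent.Run7.h594.DI.TVN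
import Pool.Agent.Run7.h824.DI.LBN
import Pool.Agent.Run7.h824.DI.CHIN
import Pool.Agent.Run7.h915.DI.LEVBN
import Pool.Agent.Run7.h915.DI.BADN
import Pool.Agent.Run7.h915.DI.ORBN
import Pool.Agent.Run7.h834.DI.PBN
import Pool.Agent.Run7.h834.DI.CQN

/-!
# Project DI: all pieces
-/

set_option autoImplicit false
set_option linter.all false

namespace Pool.Agent.Run7.h245.DI

open Pool.Agent.N783.PF (int exq)

theorem aPRN : S_PRN :=
  _root_.Run7.h824.DI.prn Pool.Agent.Run7.h594.DI.tvn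
    (_root_.Run7.h824.DI.lbn _root_.Run7.h824.DI.chin)

theorem aLEVBN : S_LEVBN :=
  Pool.Agent.Run7.h915.DI.levbn (Pool.Agent.Run7.h915.DI.badn
    (Pool.Agent.Run7.h834.DI.pbn Pool.Agent.Run7.h834.DI.cqn) Pool.Agent.Run7.h834.DI.pbn0
    Pool.Agent.Run7.h915.DI.orbn)

theorem aWIN2 : S_WIN2 := Pool.Agent.Run7.h437.DI.win2

theorem aGF2 : S_GF2 := Pool.Agent.Run7.h942.DI.t_GF2

theorem aSZE : S_SZE :=
  Pool.Agent.Run7.h594.DI.sze Pool.Agent.Run7.h224.DI.unx Pool.Agent.Run7.h610.DI.re2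
    (Pool.Agent.Run7.h594.DI.tw2 Pool.Agent.Run7.h224.DI.twf Pool.Agent.Run7.h437.DI.sqe)
    (Pool.Agent.Run7.h711.SR.nev int exq) exq

theorem aSTEP : S_STEP := Pool.Agent.Run7.h847.DI.step

theorem aQS : S_QS := Pool.Agent.Run7.h799.DI.qs

theorem aMCD : S_MCD :=
  Pool.Agent.Run7.h83.DI.mcd aSTEP (Pool.Agent.Run7.h799.DI.mcc aQS)

end Pool.Agent.Run7.h245.DI
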