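import Pool.Agent.Run7.h245.DI.Lz
import Pool.Agent.Run7.h245.MO.As2

/-!
# The distribution in a family of all curves: index sets and twists
-/

set_option autoImplicit false
set_option linter.all false

open Polynomial IsDedekindDomain Matrix NumberField WithZero
open scoped Classical

namespace Pool.Agent.Run7.h245.DI

open Pool.Agent.N951.PF
open Pool.Agent.N874.PP (sW)
open Pool.Agent.N352.PJ (dd pol dis Dy D2)
open Pool.Agent.N352.PF (dg Bal nv rv Bz Bx S_BX)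
open Pool.Agent.N783.PF (Bd Cg sp rd Ht GoodS GoodF Fam S_FAM LBad SqF Dp Min fF)
open Pool.Agent.Run7.h245.SR
open Pool.Agent.Run7.h245.MO

/-! ### Index sets -/

theorem jj_congr {U V : ℕ → Finset ℕ} (n : ℕ) (h : ∀ j, 1 ≤ j → j ≤ n → U j = V j) :
    JJ U n = JJ V n := by
  induction n with
  | zero => rfl
  | succ n ih =>
    have h1 := ih fun j h1 h2 => h j h1 (by omega)
    ext J
    rw [mem_jj_succ, mem_jj_succ, h1, h (n + 1) (by omega) le_rfl]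

theorem jj_card_succ {U : ℕ → Finset ℕ} {k n : ℕ} (hn : n < k)
    (hd : ∀ i ≤ k, ∀ j ≤ k, i ≠ j → Disjoint (U i) (U j)) :
    ((JJ U (n + 1)).card : ℝ) = (JJ U n).card * (U (n + 1)).card := by
  have h := Pool.Agent.Run7.h216.MO.sum_JJ U k n hn hd (fun _ => (1 : ℝ))
  rw [Finset.sum_const, nsmul_eq_mul, mul_one] at h
  rw [h]
  simp only [Finset.sum_const, nsmul_eq_mul, mul_one]

theorem t2_disj {T : ℕ → Finset ℕ} {k : ℕ}
    (hdj : ∀ i < k + 2, ∀ j < k + 2, i ≠ j → Disjoint (T i) (T j)) :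
    ∀ i ≤ k, ∀ j ≤ k, i ≠ j → Disjoint (T2 T k i) (T2 T k j) := by
  have key : ∀ i j, i < j → j ≤ k → Disjoint (T2 T k i) (T2 T k j) := by
    intro i j hij hj
    rw [t2_lt (hij.trans_le hj)]
    rcases hj.lt_or_eq with hj' | rfl
    · rw [t2_lt hj']
      exact hdj i (by omega) j (by omega) (by omega)
    · rw [t2_self]
      exact hdj i (by omega) (j + 1) (by omega) (by omega)
  intro i hi j hj hij
  rcases lt_or_gt_of_ne hij with h | h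
  · exact key i j h hj
  · exact (key j i h hi).symm

/-- The index set of the twists. -/
noncomputable def JS (T : ℕ → Finset ℕ) (k q₀ : ℕ) : Finset (Finset ℕ) :=
  (JJ T k).image (insert q₀) ∪ JJ (T2 T k) k

section index

variable {T : ℕ → Finset ℕ} {k q₀ : ℕ}

theorem q0_notMem (hdj : ∀ i < k + 2, ∀ j < k + 2, i ≠ j → Disjoint (T i) (T j))
    (hq₀ : q₀ ∈ T 0) : (∀ J ∈ JJ T k, q₀ ∉ J) ∧ ∀ J ∈ JJ (T2 T k) k, q₀ ∉ J := by
  constructor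
  · intro J hJ h
    obtain ⟨m, m1, m2, m3⟩ := mem_jj hJ h
    exact Finset.disjoint_left.1 (hdj 0 (by omega) m (by omega) (by omega)) hq₀ m3
  · intro J hJ h
    obtain ⟨m, m1, m2, m3⟩ := mem_jj hJ h
    rcases m2.lt_or_eq with m4 | rfl
    · rw [t2_lt m4] at m3
      exact Finset.disjoint_left.1 (hdj 0 (by omega) m (by omega) (by omega)) hq₀ m3
    · rw [t2_self] at m3
      exact Finset.disjoint_left.1 (hdj 0 (by omega) (m + 1) (by omega) (by omega)) hq₀ m3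

theorem js_disj (hdj : ∀ i < k + 2, ∀ j < k + 2, i ≠ j → Disjoint (T i) (T j))
    (hq₀ : q₀ ∈ T 0) : Disjoint ((JJ T k).image (insert q₀)) (JJ (T2 T k) k) := by
  rw [Finset.disjoint_left]
  intro J hJ hJ'
  obtain ⟨J₁, -, rfl⟩ := Finset.mem_image.1 hJ
  exact (q0_notMem hdj hq₀).2 _ hJ' (Finset.mem_insert_self _ _)

theorem js_inj (hdj : ∀ i < k + 2, ∀ j < k + 2, i ≠ j → Disjoint (T i) (T j))
    (hq₀ : q₀ ∈ T 0) : Set.InjOn (insert q₀ : Finset ℕ → Finset ℕ) (JJ T k : Set (Finset ℕ)) := by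
  intro J hJ J' hJ' h
  rw [← Finset.erase_insert ((q0_notMem hdj hq₀).1 J hJ),
    ← Finset.erase_insert ((q0_notMem hdj hq₀).1 J' hJ')]
  exact congrArg (fun A => Finset.erase A q₀) h

theorem js_filter (hdj : ∀ i < k + 2, ∀ j < k + 2, i ≠ j → Disjoint (T i) (T j))
    (hq₀ : q₀ ∈ T 0) (p : Finset ℕ → Prop) :
    ((JS T k q₀).filter p).card =
      ((JJ T k).filter fun J => p (insert q₀ J)).card + ((JJ (T2 T k) k).filter p).card := by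
  unfold JS
  rw [Finset.filter_union, Finset.card_union_of_disjoint
    (Finset.disjoint_filter_filter (js_disj hdj hq₀)), Finset.filter_image,
    Finset.card_image_of_injOn]
  intro J hJ J' hJ' h
  exact js_inj hdj hq₀ (Finset.mem_coe.2 (Finset.mem_filter.1 hJ).1)
    (Finset.mem_coe.2 (Finset.mem_filter.1 hJ').1) h

theorem js_card (hdj : ∀ i < k + 2, ∀ j < k + 2, i ≠ j → Disjoint (T i) (T j))
    (hq₀ : q₀ ∈ T 0) (hk : 1 ≤ k) (hcard : (T k).card = (T (k + 1)).card) :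
    (JJ (T2 T k) k).card = (JJ T k).card ∧ (JS T k q₀).card = 2 * (JJ T k).card := by
  have h1 : (JJ (T2 T k) k).card = (JJ T k).card := by
    obtain ⟨n, rfl⟩ : ∃ n, k = n + 1 := ⟨k - 1, by omega⟩
    have e1 := jj_card_succ (U := T2 T (n + 1)) (n := n) (Nat.lt_succ_self n) (t2_disj hdj)
    have e2 := jj_card_succ (U := T) (k := n + 1) (n := n) (Nat.lt_succ_self n)
      (fun i hi j hj hij => hdj i (by omega) j (by omega) hij)
    have e3 : JJ (T2 T (n + 1)) n = JJ T n := jj_congr n fun j h1 h2 => t2_lt (by omega)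
    rw [e3, t2_self, ← hcard, ← e2] at e1
    exact_mod_cast e1
  refine ⟨h1, ?_⟩
  have h2 := js_filter hdj hq₀ (fun _ => True)
  simp only [Finset.filter_true] at h2
  rw [h2, h1]
  ring

theorem js_sub (hdj : ∀ i < k + 2, ∀ j < k + 2, i ≠ j → Disjoint (T i) (T j))
    (hq₀ : q₀ ∈ T 0) {J : Finset ℕ} (hJ : J ∈ JS T k q₀) : J ⊆ (Finset.range (k + 2)).biUnion T := by
  intro q hq
  rcases Finset.mem_union.1 hJ with h | h
  · obtain ⟨J₁, hJ₁, rfl⟩ := Finset.mem_image.1 h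
    rcases Finset.mem_insert.1 hq with rfl | hq'
    · exact Finset.mem_biUnion.2 ⟨0, Finset.mem_range.2 (by omega), hq₀⟩
    · obtain ⟨m, m1, m2, m3⟩ := mem_jj hJ₁ hq'
      exact Finset.mem_biUnion.2 ⟨m, Finset.mem_range.2 (by omega), m3⟩
  · obtain ⟨m, m1, m2, m3⟩ := mem_jj h hq
    rcases m2.lt_or_eq with m4 | rfl
    · rw [t2_lt m4] at m3
      exact Finset.mem_biUnion.2 ⟨m, Finset.mem_range.2 (by omega), m3⟩
    · rw [t2_self] at m3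
      exact Finset.mem_biUnion.2 ⟨m + 1, Finset.mem_range.2 (by omega), m3⟩

/-- The products are comparable. -/
theorem js_ratio {ρ y : ℝ} (hρ : 0 ≤ ρ) (hk : 1 ≤ k)
    (hdj : ∀ i < k + 2, ∀ j < k + 2, i ≠ j → Disjoint (T i) (T j)) (hq₀ : q₀ ∈ T 0)
    (hw : ∀ j, 1 ≤ j → j < k → Win ρ (T j)) (hy : 0 ≤ y)
    (h1 : ∀ q ∈ T k, y < q ∧ (q : ℝ) ≤ (1 + ρ) * y)
    (h2 : ∀ q ∈ T (k + 1), (q₀ : ℝ) * y < q ∧ (q : ℝ) ≤ (1 + ρ) * ((q₀ : ℝ) * y)) :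
    ∀ J ∈ JS T k q₀, ∀ J' ∈ JS T k q₀,
      ((Dp J : ℕ) : ℝ) ≤ (1 + ρ) ^ k * ((Dp J' : ℕ) : ℝ) := by
  obtain ⟨n, rfl⟩ : ∃ n, k = n + 1 := ⟨k - 1, by omega⟩
  have hq0 : (0 : ℝ) ≤ (q₀ : ℝ) := Nat.cast_nonneg _
  -- the common part
  have hrat : ∀ J ∈ JJ T n, ∀ J' ∈ JJ T n, ((Dp J : ℕ) : ℝ) ≤ (1 + ρ) ^ n * ((Dp J' : ℕ) : ℝ) :=
    jj_ratio (k := n) hρ (fun i hi j hj hij => hdj i (by omega) j (by omega) hij)
      (fun j h1 h2 => hw j h1 (by omega)) n le_rfl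
  -- every product is a product of a common part and a number in the interval
  have hform : ∀ J ∈ JS T (n + 1) q₀, ∃ J₁ ∈ JJ T n, ∃ x : ℝ, ((Dp J : ℕ) : ℝ) = x * ((Dp J₁ : ℕ) : ℝ) ∧
      (q₀ : ℝ) * y ≤ x ∧ x ≤ (1 + ρ) * ((q₀ : ℝ) * y) := by
    intro J hJ
    rcases Finset.mem_union.1 hJ with h | h
    · obtain ⟨J₁, hJ₁, rfl⟩ := Finset.mem_image.1 h
      have hqn := (q0_notMem hdj hq₀).1 J₁ hJ₁
      rw [mem_jj_succ] at hJ₁
      obtain ⟨J₂, hJ₂, x, hx, rfl⟩ := hJ₁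
      have hxn : x ∉ J₂ := by
        intro h
        obtain ⟨m, m1, m2, m3⟩ := mem_jj hJ₂ h
        exact Finset.disjoint_left.1 (hdj m (by omega) (n + 1) (by omega) (by omega)) m3 hx
      refine ⟨J₂, hJ₂, (q₀ : ℝ) * x, ?_, ?_, ?_⟩
      · rw [dp_insert hqn, dp_insert hxn]
        push_cast
        ring
      · exact mul_le_mul_of_nonneg_left (h1 x hx).1.le hq0
      · calc (q₀ : ℝ) * x ≤ (q₀ : ℝ) * ((1 + ρ) * y) := mul_le_mul_of_nonneg_left (h1 x hx).2 hq0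
          _ = (1 + ρ) * ((q₀ : ℝ) * y) := by ring
    · rw [mem_jj_succ] at h
      obtain ⟨J₂, hJ₂, x, hx, rfl⟩ := h
      rw [t2_self] at hx
      have e3 : JJ (T2 T (n + 1)) n = JJ T n := jj_congr n fun j h1 h2 => t2_lt (by omega)
      rw [e3] at hJ₂
      have hxn : x ∉ J₂ := by
        intro h
        obtain ⟨m, m1, m2, m3⟩ := mem_jj hJ₂ h
        exact Finset.disjoint_left.1 (hdj m (by omega) (n + 1 + 1) (by omega) (by omega)) m3 hx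
      refine ⟨J₂, hJ₂, x, ?_, (h2 x hx).1.le, (h2 x hx).2⟩
      rw [dp_insert hxn]
      push_cast
      ring
  intro J hJ J' hJ'
  obtain ⟨J₁, hJ₁, x, hx1, hx2, hx3⟩ := hform J hJ
  obtain ⟨J₁', hJ₁', x', hx1', hx2', hx3'⟩ := hform J' hJ'
  rw [hx1, hx1']
  have h3 := hrat J₁ hJ₁ J₁' hJ₁'
  have hx0 : 0 ≤ x := le_trans (mul_nonneg hq0 hy) hx2
  calc x * ((Dp J₁ : ℕ) : ℝ) ≤ ((1 + ρ) * x') * ((1 + ρ) ^ n * ((Dp J₁' : ℕ) : ℝ)) := by
        refine mul_le_mul (hx3.trans (mul_le_mul_of_nonneg_left hx2' (by linarith))) h3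
          (Nat.cast_nonneg _) ?_
        exact mul_nonneg (by linarith) (le_trans (mul_nonneg hq0 hy) hx2')
    _ = (1 + ρ) ^ (n + 1) * (x' * ((Dp J₁' : ℕ) : ℝ)) := by ring

end index

/-! ### The twists -/

/-- The twists are different. -/
theorem twp_inj3 {F : Type} [Field F] [NumberField F] {W : ℕ} {S : Finset ℕ}
    {𝔮 : ℕ → Ideal (𝓞 F)} {r P : ℕ → (𝓞 F)[X]}
    (hS : GoodS 1 W S 𝔮 r P) {C : Set (𝓞 F × 𝓞 F)}
    (hC : ∀ p ∈ C, ∀ q ∈ S, Cg (sp F q) (pol (cf p)) (P q))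
    {J J' : Finset ℕ} (hJ : J ⊆ S) (hJ' : J' ⊆ S) {p p' : 𝓞 F × 𝓞 F} (hp : p ∈ C)
    (hp' : p' ∈ C) (h : twp J p = twp J' p') : J = J' ∧ p = p' := by
  have key : ∀ {J J' : Finset ℕ} {p p' : 𝓞 F × 𝓞 F}, J ⊆ S → J' ⊆ S → p' ∈ C →
      twp J p = twp J' p' → J ⊆ J' := by
    intro J J' p p' hJ hJ' hp' h q hq
    by_contra hqn
    have hqS := hJ hq
    have hqp := (hS q hqS).1
    have hnd : ¬ q ∣ Dp J' := by
      intro hd
      unfold Dp at hd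
      obtain ⟨q', hq', hdd⟩ := (Prime.dvd_finset_prod_iff hqp.prime _).1 hd
      have e := (Nat.prime_dvd_prime_iff_eq hqp (hS q' (hJ' hq')).1).1 hdd
      subst e
      exact hqn hq'
    have hqD : (q : 𝓞 F) ∣ ((Dp J : ℕ) : 𝓞 F) := by
      have : q ∣ Dp J := by
        unfold Dp
        exact Finset.dvd_prod_of_mem (fun q => q) hq
      exact Nat.cast_dvd_cast this
    have h1 : (q : 𝓞 F) ∣ p'.1 := by
      refine dvd_of hqp hnd (e := 2) ?_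
      have e1 := congrArg Prod.fst h
      have e2 : p'.1 * ((Dp J' : ℕ) : 𝓞 F) ^ 2 = p.1 * ((Dp J : ℕ) : 𝓞 F) ^ 2 := e1.symm
      rw [e2]
      exact Dvd.dvd.mul_left (dvd_pow hqD two_ne_zero) _
    have h2 : (q : 𝓞 F) ∣ p'.2 := by
      refine dvd_of hqp hnd (e := 3) ?_
      have e1 := congrArg Prod.snd h
      have e2 : p'.2 * ((Dp J' : ℕ) : 𝓞 F) ^ 3 = p.2 * ((Dp J : ℕ) : 𝓞 F) ^ 3 := e1.symm
      rw [e2]
      exact Dvd.dvd.mul_left (dvd_pow hqD three_ne_zero) _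
    exact not_both hS hqS (hC p' hp' q hqS) h1 h2
  have e : J = J' := Finset.Subset.antisymm (key hJ hJ' hp' h) (key hJ' hJ hp h.symm)
  subst e
  refine ⟨rfl, ?_⟩
  have hD : ((Dp J : ℕ) : 𝓞 F) ≠ 0 := by
    have : Dp J ≠ 0 := by
      unfold Dp
      rw [Finset.prod_ne_zero_iff]
      exact fun q hq => (hS q (hJ hq)).1.ne_zero
    exact_mod_cast this
  have h1 : p.1 * ((Dp J : ℕ) : 𝓞 F) ^ 2 = p'.1 * ((Dp J : ℕ) : 𝓞 F) ^ 2 := congrArg Prod.fst h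
  have h2 : p.2 * ((Dp J : ℕ) : 𝓞 F) ^ 3 = p'.2 * ((Dp J : ℕ) : 𝓞 F) ^ 3 := congrArg Prod.snd h
  exact Prod.ext (mul_right_cancel₀ (pow_ne_zero 2 hD) h1)
    (mul_right_cancel₀ (pow_ne_zero 3 hD) h2)

/-- The twist of a good curve. -/
theorem good3 (hSZE : S_SZE) (hSTEP : S_STEP) {n₀ k W : ℕ} {δ ε : ℝ} (hM : McdC n₀ δ k ε)
    (hk : 1 ≤ k) {T : ℕ → Finset ℕ} {𝔮 : ℕ → Ideal (𝓞 ℚ)} {r P : ℕ → (𝓞 ℚ)[X]}
    {ε' : ℕ → ℝ} {S : Finset ℕ} (hSd : (Finset.range (k + 2)).biUnion T = S)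
    (hS : GoodS 1 W S 𝔮 r P)
    (hdj : ∀ i < k + 2, ∀ j < k + 2, i ≠ j → Disjoint (T i) (T j))
    (hne : ∀ j < k + 2, (T j).Nonempty) (h0 : (T 0).card ≤ n₀) {q₀ : ℕ} (hq₀ : q₀ ∈ T 0)
    (hε0 : ε' 0 ≤ 1 / 4) (hεj : ∀ j, 1 ≤ j → j ≤ k → ε' j ≤ ε) (hεk : ε' (k + 1) = ε' k)
    {p : 𝓞 ℚ × 𝓞 ℚ} (hf : GdQ W S P (PR2 k T 𝔮 ε') (pol (cf p))) :
    ∃ d : Finset ℕ → ℕ, (∀ J ⊆ S, twp J p ∈ Mn ℚ ∧ sl (twp J p) = 2 ^ d J) ∧
      ∀ e : ℕ, |(((JJ T k).filter fun J => d (insert q₀ J) = e).card : ℝ) / (JJ T k).card +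
        (((JJ (T2 T k) k).filter fun J => d J = e).card : ℝ) / (JJ (T2 T k) k).card - 2 * cc e| ≤
        2 * δ := by
  obtain ⟨d, h1, h2⟩ := pdist hSZE hSTEP hM hk hSd hS hdj hne h0 hq₀ hε0 hεj hεk hf
  have c1 : (pol (cf p)).coeff 1 = p.1 := pol_coeff_lt (cf p) 1
  have c0 : (pol (cf p)).coeff 0 = p.2 := pol_coeff_lt (cf p) 0
  have c2 : (pol (cf p)).coeff 2 = 0 := pol_coeff_tr (g := 1) (cf p)
  have hirr : Irreducible (cb (p.1 : ℚ) (p.2 : ℚ)) := by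
    have e := fF_cub (pol_monic (cf p)) (pol_natDegree (cf p)) c2
    rw [c1, c0] at e
    rw [← e]
    exact hf.irr
  rw [c1, c0] at h1
  have hcast : ∀ J : Finset ℕ, ((twp J p).1 : ℚ) = (p.1 : ℚ) * ((Dp J : ℕ) : ℚ) ^ 2 ∧
      ((twp J p).2 : ℚ) = (p.2 : ℚ) * ((Dp J : ℕ) : ℚ) ^ 3 := by
    intro J
    constructor
    · show algebraMap (𝓞 ℚ) ℚ (p.1 * ((Dp J : ℕ) : 𝓞 ℚ) ^ 2) = _
      rw [map_mul, map_pow, map_natCast]
    · show algebraMap (𝓞 ℚ) ℚ (p.2 * ((Dp J : ℕ) : 𝓞 ℚ) ^ 3) = _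
      rw [map_mul, map_pow, map_natCast]
  have hDne : ∀ J ⊆ S, ((Dp J : ℕ) : ℚ) ≠ 0 := by
    intro J hJ
    have : Dp J ≠ 0 := by
      unfold Dp
      rw [Finset.prod_ne_zero_iff]
      exact fun q hq => (hS q (hJ hq)).1.ne_zero
    exact Nat.cast_ne_zero.2 this
  refine ⟨d, fun J hJ => ⟨⟨?_, ?_⟩, ?_⟩, h2⟩
  · intro hz
    have hirrD := irr_cb (hDne J hJ) hirr
    refine disc_cb hirrD ?_
    have e := congrArg (algebraMap (𝓞 ℚ) ℚ) hz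
    rw [map_add, map_mul, map_mul, map_pow, map_pow, map_ofNat, map_ofNat, map_zero] at e
    rw [← (hcast J).1, ← (hcast J).2]
    exact e
  · rintro 𝔭 hp hb ⟨g1, g2⟩
    have hmin := Pool.Agent.N547.PF.min 1 W ℚ _ J 𝔮 r P (pol (cf p)) le_rfl hS hf.sqf hf.mon hf.deg
      hf.con hJ
    refine hmin 𝔭 hp hb fun j hj => ?_
    rw [coeff_scaleRoots, hf.deg]
    interval_cases j
    · rw [c0]
      exact g2
    · rw [c1]
      exact g1
    · rw [c2, zero_mul]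
      exact Ideal.zero_mem _
  · have hirrD := irr_cb (hDne J hJ) hirr
    unfold sl
    rw [(hcast J).1, (hcast J).2]
    exact seld ℚ _ _ (d J) (disc_cb hirrD) hirrD (h1 J hJ)

end Pool.Agent.Run7.h245.DI
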