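import Pool.Agent.Run7.h245.DI.As3

/-!
# The distribution in a family of all curves: the theorem
-/

set_option autoImplicit false
set_option linter.all false

open Polynomial IsDedekindDomain Matrix NumberField WithZero
open scoped Classical

namespace Pool.Agent.Run7.h245.DI

open Pool.Agent.N951.PF
open Pool.Agent.N874.PP (sW)
open Pool.Agent.N352.PJ (dd pol dis Dy D2)
open Pool.Agent.N352.PF (dg Bal nv rv Bz Bx S_BX)
open Pool.Agent.N783.PF (Bd Cg sp rd Ht GoodS GoodF Fam S_FAM LBad SqF Dp Min fF)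
open Pool.Agent.Run7.h245.SR
open Pool.Agent.Run7.h245.MO

/-- The twists of a good curve, counted. -/
theorem good4 (hSZE : S_SZE) (hSTEP : S_STEP) {n₀ k W : ℕ} {δ ε : ℝ} (hM : McdC n₀ δ k ε)
    (hk : 1 ≤ k) {T : ℕ → Finset ℕ} {𝔮 : ℕ → Ideal (𝓞 ℚ)} {r P : ℕ → (𝓞 ℚ)[X]}
    {ε' : ℕ → ℝ} {S : Finset ℕ} (hSd : (Finset.range (k + 2)).biUnion T = S)
    (hS : GoodS 1 W S 𝔮 r P)
    (hdj : ∀ i < k + 2, ∀ j < k + 2, i ≠ j → Disjoint (T i) (T j))
    (hne : ∀ j < k + 2, (T j).Nonempty) (h0 : (T 0).card ≤ n₀) {q₀ : ℕ} (hq₀ : q₀ ∈ T 0)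
    (hcard : (T k).card = (T (k + 1)).card)
    (hε0 : ε' 0 ≤ 1 / 4) (hεj : ∀ j, 1 ≤ j → j ≤ k → ε' j ≤ ε) (hεk : ε' (k + 1) = ε' k)
    {p : 𝓞 ℚ × 𝓞 ℚ} (hf : GdQ W S P (PR2 k T 𝔮 ε') (pol (cf p))) :
    (∀ J ∈ JS T k q₀, twp J p ∈ Mn ℚ) ∧
      ∀ e : ℕ, |(((JS T k q₀).filter fun J => sl (twp J p) = 2 ^ e).card : ℝ) -
        cc e * (JS T k q₀).card| ≤ δ * (JS T k q₀).card := by
  obtain ⟨d, h1, h2⟩ := good3 hSZE hSTEP hM hk hSd hS hdj hne h0 hq₀ hε0 hεj hεk hf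
  have hsub : ∀ J ∈ JS T k q₀, J ⊆ S := fun J hJ => by
    rw [← hSd]
    exact js_sub hdj hq₀ hJ
  refine ⟨fun J hJ => (h1 J (hsub J hJ)).1, fun e => ?_⟩
  have hinj2 : ∀ a b : ℕ, (2 : ℕ) ^ a = 2 ^ b ↔ a = b := fun a b =>
    ⟨fun h => Nat.pow_right_injective le_rfl h, fun h => by rw [h]⟩
  have e1 : ((JS T k q₀).filter fun J => sl (twp J p) = 2 ^ e) =
      (JS T k q₀).filter fun J => d J = e := by
    refine Finset.filter_congr fun J hJ => ?_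
    rw [(h1 J (hsub J hJ)).2, hinj2]
  have e2 : ((JS T k q₀).filter fun J => d J = e).card =
      ((JJ T k).filter fun J => d (insert q₀ J) = e).card +
        ((JJ (T2 T k) k).filter fun J => d J = e).card := by
    convert js_filter hdj hq₀ (fun J => d J = e)
  obtain ⟨e3, e4⟩ := js_card hdj hq₀ hk hcard
  have hpos : 0 < (JJ T k).card := (jj_nonempty (k := k) k le_rfl fun j hj => hne j (by omega)).card_pos
  have hposr : (0 : ℝ) < ((JJ T k).card : ℝ) := by exact_mod_cast hpos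
  have h3 := h2 e
  rw [e3] at h3
  rw [e1, e2, e4]
  push_cast
  have h4 : (((JJ T k).filter fun J => d (insert q₀ J) = e).card : ℝ) +
      (((JJ (T2 T k) k).filter fun J => d J = e).card : ℝ) - cc e * (2 * ((JJ T k).card : ℝ)) =
      ((JJ T k).card : ℝ) * ((((JJ T k).filter fun J => d (insert q₀ J) = e).card : ℝ) / (JJ T k).card +
        (((JJ (T2 T k) k).filter fun J => d J = e).card : ℝ) / (JJ T k).card - 2 * cc e) := by
    field_simp
  rw [h4, abs_mul, abs_of_pos hposr]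
  calc _ ≤ ((JJ T k).card : ℝ) * (2 * δ) := mul_le_mul_of_nonneg_left h3 hposr.le
    _ = _ := by ring

/-- The test functions. -/
noncomputable def gi (r : ℕ) (p : 𝓞 ℚ × 𝓞 ℚ) : ℝ :=
  if (sl p = 2 ^ (r / 2) ↔ r % 2 = 0) then 1 else 0

/-- Their means. -/
noncomputable def mi (t : ℝ) (r : ℕ) : ℝ := (if r % 2 = 0 then cc (r / 2) else 1 - cc (r / 2)) + t

theorem gi_even (e : ℕ) (p : 𝓞 ℚ × 𝓞 ℚ) : gi (2 * e) p = if sl p = 2 ^ e then 1 else 0 := by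
  unfold gi
  rw [Nat.mul_div_cancel_left e two_pos, Nat.mul_mod_right]
  simp

theorem gi_odd (e : ℕ) (p : 𝓞 ℚ × 𝓞 ℚ) : gi (2 * e + 1) p = if sl p = 2 ^ e then 0 else 1 := by
  unfold gi
  have h1 : (2 * e + 1) / 2 = e := by omega
  have h2 : (2 * e + 1) % 2 = 1 := by omega
  rw [h1, h2]
  by_cases h : sl p = 2 ^ e <;> simp [h]

theorem cc_sum (hQS : S_QS) : HasSum cc 1 := by
  obtain ⟨-, -, h1, h2⟩ := hQS
  have h3 := HasSum.even_add_odd h1 h2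
  norm_num at h3
  exact h3

theorem cc_le_one (hQS : S_QS) (e : ℕ) : cc e ≤ 1 :=
  le_hasSum (cc_sum hQS) e fun j _ => (hQS.1 j).le

theorem gi_mean {ι : Type} (J : Finset ι) (f : ι → 𝓞 ℚ × 𝓞 ℚ) {t : ℝ}
    (h : ∀ e : ℕ, |((J.filter fun j => sl (f j) = 2 ^ e).card : ℝ) - cc e * J.card| ≤ t * J.card)
    (r : ℕ) : ∑ j ∈ J, gi r (f j) ≤ mi t r * J.card := by
  rcases Nat.even_or_odd' r with ⟨e, rfl | rfl⟩
  · simp only [gi_even]
    rw [Finset.sum_boole]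
    have h1 := (abs_le.1 (h e)).2
    unfold mi
    rw [if_pos (Nat.mul_mod_right 2 e), Nat.mul_div_cancel_left e two_pos]
    linarith
  · have h2 : (2 * e + 1) / 2 = e := by omega
    have h3 : (2 * e + 1) % 2 = 1 := by omega
    have h4 : ∀ j, gi (2 * e + 1) (f j) = 1 - if sl (f j) = 2 ^ e then 1 else 0 := by
      intro j
      rw [gi_odd]
      split_ifs <;> norm_num
    simp only [h4]
    rw [Finset.sum_sub_distrib, Finset.sum_boole, Finset.sum_const, nsmul_eq_mul, mul_one]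
    have h1 := (abs_le.1 (h e)).1
    unfold mi
    rw [h2, h3, if_neg (by norm_num)]
    linarith

theorem finsum_boole {α : Type} {G : Set α} (hG : G.Finite) (P : α → Prop) :
    ∑ᶠ p ∈ G, (if P p then (1 : ℝ) else 0) = ({p ∈ G | P p}.ncard : ℝ) := by
  rw [finsum_mem_eq_finite_toFinset_sum _ hG, Finset.sum_boole]
  congr 1
  rw [← Set.ncard_coe_finset]
  congr 1
  ext p
  simp

/-- From the test functions to the proportions. -/
theorem fin_dist {U G : Set (𝓞 ℚ × 𝓞 ℚ)} (hU : U.Finite) (hGU : G ⊆ U) {t c : ℝ} (ht0 : 0 ≤ t)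
    (ht2 : t ≤ 1 / 2) (hc0 : 0 ≤ c) (hc1 : c ≤ 1) (hG : (1 - t) * (U.ncard : ℝ) ≤ G.ncard) (e : ℕ)
    (h1 : (1 - t) * ∑ᶠ p ∈ G, gi (2 * e) p ≤ (1 + t) * (c + t) * (U.ncard : ℝ))
    (h2 : (1 - t) * ∑ᶠ p ∈ G, gi (2 * e + 1) p ≤ (1 + t) * (1 - c + t) * (U.ncard : ℝ)) :
    |({p ∈ U | sl p = 2 ^ e}.ncard : ℝ) - c * U.ncard| ≤ 8 * t * U.ncard := by
  have hGf : G.Finite := hU.subset hGU
  obtain ⟨u, hu⟩ : ∃ u : ℝ, u = (U.ncard : ℝ) := ⟨_, rfl⟩
  obtain ⟨w, hw⟩ : ∃ w : ℝ, w = (G.ncard : ℝ) := ⟨_, rfl⟩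
  obtain ⟨a, ha⟩ : ∃ a : ℝ, a = ({p ∈ G | sl p = 2 ^ e}.ncard : ℝ) := ⟨_, rfl⟩
  obtain ⟨x, hx⟩ : ∃ x : ℝ, x = ({p ∈ U | sl p = 2 ^ e}.ncard : ℝ) := ⟨_, rfl⟩
  have hu0 : 0 ≤ u := by rw [hu]; positivity
  have ha0 : 0 ≤ a := by rw [ha]; positivity
  have e1 : ∑ᶠ p ∈ G, gi (2 * e) p = a := by
    rw [ha, ← finsum_boole hGf]
    refine finsum_congr fun p => ?_
    refine finsum_congr fun _ => ?_
    rw [gi_even]
    by_cases h : sl p = 2 ^ e <;> simp [h]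
  have hsplit : ({p ∈ G | sl p = 2 ^ e}.ncard : ℝ) + ({p ∈ G | ¬ sl p = 2 ^ e}.ncard : ℝ) =
      (G.ncard : ℝ) := by
    have h3 : G = {p ∈ G | sl p = 2 ^ e} ∪ {p ∈ G | ¬ sl p = 2 ^ e} := by
      ext p
      constructor
      · intro hp
        by_cases h : sl p = 2 ^ e
        · exact Or.inl ⟨hp, h⟩
        · exact Or.inr ⟨hp, h⟩
      · rintro (h | h)
        · exact h.1
        · exact h.1
    have h4 : Disjoint {p ∈ G | sl p = 2 ^ e} {p ∈ G | ¬ sl p = 2 ^ e} := by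
      rw [Set.disjoint_left]
      intro p hp hp'
      exact hp'.2 hp.2
    have h5 := Set.ncard_union_eq h4 (hGf.subset fun p hp => hp.1) (hGf.subset fun p hp => hp.1)
    rw [← h3] at h5
    rw [h5]
    push_cast
    ring
  have e2 : ∑ᶠ p ∈ G, gi (2 * e + 1) p = w - a := by
    have h3 : ∑ᶠ p ∈ G, gi (2 * e + 1) p = ({p ∈ G | ¬ sl p = 2 ^ e}.ncard : ℝ) := by
      rw [← finsum_boole hGf]
      refine finsum_congr fun p => ?_
      refine finsum_congr fun _ => ?_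
      rw [gi_odd]
      by_cases h : sl p = 2 ^ e <;> simp [h]
    rw [h3, hw, ha]
    linarith
  rw [e1, ← hu] at h1
  rw [e2, ← hu] at h2
  rw [← hu, ← hw] at hG
  have hwu : w ≤ u := by
    rw [hw, hu]
    exact_mod_cast Set.ncard_le_ncard hGU hU
  have hax : a ≤ x := by
    rw [ha, hx]
    have h3 : {p ∈ G | sl p = 2 ^ e} ⊆ {p ∈ U | sl p = 2 ^ e} := fun p hp => ⟨hGU hp.1, hp.2⟩
    exact_mod_cast Set.ncard_le_ncard h3 (hU.subset fun p hp => hp.1)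
  have hxa : x ≤ a + (u - w) := by
    have h3 : {p ∈ U | sl p = 2 ^ e} ⊆ {p ∈ G | sl p = 2 ^ e} ∪ (U \ G) := by
      intro p hp
      by_cases h : p ∈ G
      · exact Or.inl ⟨h, hp.2⟩
      · exact Or.inr ⟨hp.1, h⟩
    have h4 := Set.ncard_le_ncard h3 ((hGf.subset fun p hp => hp.1).union (hU.subset fun p hp => hp.1))
    have h5 := Set.ncard_union_le {p ∈ G | sl p = 2 ^ e} (U \ G)
    have h6 := Set.ncard_sdiff_add_ncard_of_subset hGU hU
    have h7 : ((U \ G).ncard : ℝ) = u - w := by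
      rw [hu, hw, ← h6]
      push_cast
      ring
    have h8 : (({p ∈ U | sl p = 2 ^ e}.ncard : ℕ) : ℝ) ≤
        (({p ∈ G | sl p = 2 ^ e}.ncard : ℕ) : ℝ) + (((U \ G).ncard : ℕ) : ℝ) := by
      exact_mod_cast h4.trans h5
    rw [h7, ← hx, ← ha] at h8
    exact h8
  rw [← hx, ← hu]
  -- numbers
  have key : ∀ y c' : ℝ, 0 ≤ c' → c' ≤ 1 → (1 - t) * y ≤ (1 + t) * (c' + t) * u →
      y ≤ (c' + 7 * t) * u := by
    intro y c' hc' hc1' h
    have h3 : (1 + t) * (c' + t) ≤ (1 - t) * (c' + 7 * t) := by nlinarith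
    have h4 : (1 - t) * y ≤ (1 - t) * ((c' + 7 * t) * u) := by
      calc _ ≤ _ := h
        _ ≤ ((1 - t) * (c' + 7 * t)) * u := mul_le_mul_of_nonneg_right h3 hu0
        _ = _ := by ring
    exact le_of_mul_le_mul_left h4 (by linarith)
  have h3 := key a c hc0 hc1 h1
  have h4 := key (w - a) (1 - c) (by linarith) (by linarith) h2
  rw [abs_le]
  constructor <;> nlinarith

end Pool.Agent.Run7.h245.DI
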