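import Pool.Agent.Run7.h245.DI.Hh

/-!
# The distribution in a family of all curves: assembly
-/

set_option autoImplicit false
set_option linter.all false

open Polynomial IsDedekindDomain Matrix NumberField WithZero
open scoped Classical

namespace Pool.Agent.Run7.h245.DI

open Pool.Agent.N951.PF
open Pool.Agent.N874.PP (sW)
open Pool.Agent.N352.PJ (dd pol dis Dy D2)
open Pool.Agent.N352.PF (dg Bal nv rv Bz Bx S_BX)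
open Pool.Agent.N783.PF (Bd Cg sp rd Ht GoodS GoodF Fam S_FAM LBad SqF Dp Min fF)
open Pool.Agent.Run7.h245.SR
open Pool.Agent.Run7.h245.MO

/-- The part of the family of height at most `X`. -/
def Uq (H : ℝ → Set (𝓞 ℚ × 𝓞 ℚ)) (M 𝔉 : Set (𝓞 ℚ × 𝓞 ℚ)) (X : ℝ) : Set (𝓞 ℚ × 𝓞 ℚ) :=
  {p | p ∈ M ∧ p ∈ H X ∧ p ∈ 𝔉}

/-- **The distribution.** -/
theorem distQ {Hq : ℝ → Set (𝓞 ℚ × 𝓞 ℚ)} (hHq : HD Hq) {Mq : Set (𝓞 ℚ × 𝓞 ℚ)} (hMq : Mn ℚ ⊆ Mq)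
    (hPRN : S_PRN) (hLEVBN : S_LEVBN) (hWIN2 : S_WIN2) (hGF2 : S_GF2) (hSZE : S_SZE)
    (hSTEP : S_STEP) (hMCD : S_MCD) (hQS : S_QS) (D₀ : ℕ) (δ : ℝ) (hδ : 0 < δ) :
    ∃ (m : ℕ) (𝔉 : Set (𝓞 ℚ × 𝓞 ℚ)), 0 < m ∧
      (∀ p ∈ 𝔉, ∀ p' : 𝓞 ℚ × 𝓞 ℚ, (m : 𝓞 ℚ) ∣ p'.1 - p.1 → (m : 𝓞 ℚ) ∣ p'.2 - p.2 → p' ∈ 𝔉) ∧
      ∀ᶠ X : ℝ in Filter.atTop, (Uq Hq Mq 𝔉 X).Finite ∧ 0 < (Uq Hq Mq 𝔉 X).ncard ∧
        ∀ e ≤ D₀, |({p ∈ Uq Hq Mq 𝔉 X | sl p = 2 ^ e}.ncard : ℝ) - cc e * (Uq Hq Mq 𝔉 X).ncard| ≤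
          δ * (Uq Hq Mq 𝔉 X).ncard := by
  obtain ⟨t, ht0, ht2, htδ⟩ : ∃ t : ℝ, 0 < t ∧ t ≤ 1 / 2 ∧ 8 * t ≤ δ :=
    ⟨min (δ / 8) (1 / 2), lt_min (by positivity) (by norm_num), min_le_right _ _, by
      have := min_le_left (δ / 8) (1 / 2 : ℝ)
      linarith⟩
  obtain ⟨C, hC, htr⟩ := hHq.tr
  obtain ⟨lam, hlam, hshl⟩ := hHq.shl t ht0
  obtain ⟨W, s, η₁, hW0, hη₁, hcnt⟩ := cnt2 hGF2 (t / C) (by positivity)
  obtain ⟨η, hη⟩ : ∃ η : ℕ → ℝ, η = fun k => η₁ / 2 ^ (k + 2) := ⟨_, rfl⟩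
  have hηp : ∀ k, 0 < η k := fun k => by rw [hη]; positivity
  have hηs : ∀ K, ∑ k ∈ Finset.range K, 2 * η k ≤ η₁ := by
    intro K
    have e : ∀ K, ∑ k ∈ Finset.range K, 2 * η k = η₁ - η₁ / 2 ^ K := by
      intro K
      induction K with
      | zero => simp
      | succ K ih =>
        rw [Finset.sum_range_succ, ih, hη]
        simp only
        have g1 : (2 : ℝ) ^ (K + 2) = 4 * 2 ^ K := by ring
        have g2 : (2 : ℝ) ^ (K + 1) = 2 * 2 ^ K := by ring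
        rw [g1, g2]
        field_simp
        ring
    rw [e K]
    have : 0 < η₁ / 2 ^ K := by positivity
    linarith
  obtain ⟨n₁, hn₁⟩ : ∃ n₁ : ℕ → ℕ, n₁ = fun _ => max s 1 := ⟨_, rfl⟩
  -- the first level
  obtain ⟨T₀, Wk₀, 𝔮₀, r₀, P₀, H₀, -, -⟩ := lvz_succ (F := ℚ) prx levb hPRN hLEVBN hWIN2
    (ρ := 1) one_pos (lvz_zero (F := ℚ) (η := η) (ε := fun _ => 1 / 4) (n₀ := n₁)
      (par := fun k => k) (W₀ := W)) rfl (hηp 0) (by norm_num) (by norm_num)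
  obtain ⟨k, ε, hk, hε, hMc⟩ := hMCD (T₀ 0).card t ht0
  have hM : McdC (T₀ 0).card t k ε := hMc
  obtain ⟨ε', hε'⟩ : ∃ ε' : ℕ → ℝ, ε' = fun j => if j = 0 then 1 / 4 else min ε (1 / 4) := ⟨_, rfl⟩
  have hε'p : ∀ j, 0 < ε' j := by
    intro j
    rw [hε']
    simp only
    split_ifs
    · norm_num
    · exact lt_min hε (by norm_num)
  have hε'2 : ∀ j, ε' j < 1 / 2 := by
    intro j
    rw [hε']
    simp only
    split_ifs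
    · norm_num
    · exact lt_of_le_of_lt (min_le_right _ _) (by norm_num)
  have H₁ : LvZ ℚ η ε' n₁ W 1 (pk k) T₀ Wk₀ 𝔮₀ r₀ P₀ := H₀.congr (fun _ _ => rfl)
    (fun j hj => by
      have : j = 0 := by omega
      rw [hε', this]
      simp) (fun _ _ => rfl) (fun j hj => if_neg (by omega))
  -- the width of the windows
  obtain ⟨ρ, hρ, hρ1, hρ6⟩ : ∃ ρ : ℝ, 0 < ρ ∧ ρ ≤ 1 ∧ ((1 + ρ) ^ k) ^ 6 ≤ lam := by
    have hcont : Filter.Tendsto (fun x : ℝ => ((1 + x) ^ k) ^ 6) (nhdsWithin 0 (Set.Ioi 0))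
        (nhds (((1 + 0) ^ k) ^ 6)) := by
      have : Continuous fun x : ℝ => ((1 + x) ^ k) ^ 6 := by fun_prop
      exact (this.tendsto 0).mono_left nhdsWithin_le_nhds
    rw [add_zero, one_pow, one_pow] at hcont
    have h1 := hcont.eventually (eventually_lt_nhds hlam)
    obtain ⟨ρ, h2, h3⟩ := (h1.and self_mem_nhdsWithin).exists
    have h3' : 0 < ρ := h3
    refine ⟨min ρ 1, lt_min h3' one_pos, min_le_right _ _, le_trans ?_ h2.le⟩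
    have h4 : (0 : ℝ) < min ρ 1 := lt_min h3' one_pos
    have h5 : 1 + min ρ 1 ≤ 1 + ρ := by linarith [min_le_left ρ 1]
    exact pow_le_pow_left₀ (by positivity) (pow_le_pow_left₀ (by positivity) h5 k) 6
  obtain ⟨T₁, Wk₁, 𝔮₁, r₁, P₁, H₂, hT₁, hwin⟩ := lvz_ext (F := ℚ) prx levb hPRN hLEVBN hWIN2 hρ hηp
    hε'p hε'2 H₁ k hk (fun j hj => if_neg (by omega))
  have hne1 : (T₁ 0).Nonempty := by
    rw [← Finset.card_pos]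
    have h1 : n₁ 0 ≤ (T₁ 0).card := (H₂.dat 0 (by omega)).1.big
    rw [hn₁] at h1
    exact lt_of_lt_of_le (lt_of_lt_of_le one_pos (le_max_right s 1)) h1
  obtain ⟨q₀, hq₀1⟩ := hne1
  have hq₀p : q₀.Prime := (H₂.good 0 (by omega) q₀ hq₀1).1
  have hcρ : 1 + ρ ≤ (q₀ : ℝ) := by
    have : (2 : ℝ) ≤ (q₀ : ℝ) := by exact_mod_cast hq₀p.two_le
    linarith
  obtain ⟨T, Wk, 𝔮, r, P, H, hT, hcd, y, hy, hy1, hy2⟩ := lvz_last (F := ℚ) prx levb hPRN hLEVBN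
    hWIN2 hρ hcρ H₂ hηp hε'p hε'2
  have hT00 : T 0 = T₁ 0 := hT 0 (by omega)
  have hq₀ : q₀ ∈ T 0 := by rw [hT00]; exact hq₀1
  have hcard : ∀ j < k + 2, n₁ j ≤ (T j).card := fun j hj => (H.dat j hj).1.big
  have hne : ∀ j < k + 2, (T j).Nonempty := fun j hj => by
    rw [← Finset.card_pos]
    have h1 := hcard j hj
    rw [hn₁] at h1
    exact lt_of_lt_of_le (lt_of_lt_of_le one_pos (le_max_right s 1)) h1
  have hS := H.good_all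
  have hdj := H.disj
  obtain ⟨S, hSd⟩ : ∃ S, (Finset.range (k + 2)).biUnion T = S := ⟨_, rfl⟩
  have hbd0 := H.bad hηp
  rw [hSd] at hS hbd0
  obtain ⟨A, B₀, hB₀⟩ := hcnt S 𝔮 r P (PR2 k T 𝔮 ε') hS (by
    obtain ⟨B₂, hB₂⟩ := hbd0
    refine ⟨B₂, fun B hB => ?_⟩
    obtain ⟨Bd, h1, h2, h3⟩ := hB₂ B hB
    exact ⟨Bd, h1, h2.trans (mul_le_mul_of_nonneg_right (hηs _) (by positivity)), h3⟩) (by
    have h1 := hcard 0 (by omega)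
    rw [hn₁] at h1
    refine ((le_max_left s 1).trans h1).trans (Finset.card_le_card ?_)
    rw [← hSd]
    exact fun q hq => Finset.mem_biUnion.2 ⟨0, Finset.mem_range.2 (by omega), hq⟩)
  obtain ⟨m, hm⟩ : ∃ m, m = W * ∏ q ∈ S, q := ⟨_, rfl⟩
  rw [← hm] at hB₀
  have hm0 : 0 < m := by
    rw [hm]
    exact Nat.mul_pos hW0 (Finset.prod_pos fun q hq => (hS q hq).1.pos)
  obtain ⟨𝒥, h𝒥⟩ : ∃ 𝒥, 𝒥 = JS T k q₀ := ⟨_, rfl⟩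
  have hJS : ∀ J ∈ 𝒥, J ⊆ S := by
    intro J hJ
    rw [← hSd]
    rw [h𝒥] at hJ
    exact js_sub hdj hq₀ hJ
  have hDpos : ∀ J ∈ 𝒥, 0 < Dp J := by
    intro J hJ
    unfold Dp
    exact Finset.prod_pos fun q hq => (hS q (hJS J hJ hq)).1.pos
  have hDm : ∀ J ∈ 𝒥, Dp J ∣ m := by
    intro J hJ
    rw [hm]
    refine Dvd.dvd.mul_left ?_ W
    unfold Dp
    exact Finset.prod_dvd_prod_of_subset _ _ _ (hJS J hJ)
  obtain ⟨Bad, hBad⟩ : ∃ Bad : Set (𝓞 ℚ × 𝓞 ℚ),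
      Bad = {p | ¬ GdQ W S P (PR2 k T 𝔮 ε') (pol (cf p))} := ⟨_, rfl⟩
  have hbadev := htr m A Bad (t / C) B₀ hm0 (by positivity) (fun B hB => by
    have h1 := (hB₀ B hB).2
    refine le_trans (le_of_eq ?_) h1
    congr 2
    refine congrArg Set.ncard ?_
    ext a
    rw [hBad]
    show _ ∧ ¬ GdQ W S P (PR2 k T 𝔮 ε') (pol (cf (a 1, a 0))) ↔ _
    rw [cf_mk]
    rfl)
  have hCt : C * (t / C) = t := by field_simp
  rw [hCt] at hbadev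
  obtain ⟨hfin, hposev, hshell⟩ := hshl m (A 1) (A 0) hm0
  -- all members of the class satisfy the congruences
  have hgood1 : ∃ p ∈ Cl m (A 1) (A 0), p ∉ Bad := by
    obtain ⟨X, h1, h2, h3⟩ := hbadev.exists
    by_contra hcon
    push Not at hcon
    have h4 : Cl m (A 1) (A 0) ∩ Hq X ∩ Bad = Cl m (A 1) (A 0) ∩ Hq X := by
      ext p
      exact ⟨fun h => h.1, fun h => ⟨h, hcon p h.1⟩⟩
    rw [h4] at h3
    have h5 : (0 : ℝ) < ((Cl m (A 1) (A 0) ∩ Hq X).ncard : ℝ) := by exact_mod_cast h2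
    nlinarith
  have hCg : ∀ p ∈ Cl m (A 1) (A 0), ∀ q ∈ S, Cg (sp ℚ q) (pol (cf p)) (P q) := by
    obtain ⟨p₀, hp₀, hgd⟩ := hgood1
    rw [hBad] at hgd
    have hgd' : GdQ W S P (PR2 k T 𝔮 ε') (pol (cf p₀)) := not_not.1 hgd
    intro p hp q hq j
    have h1 := hgd'.con q hq j
    have h2 : (pol (cf p)).coeff j - (pol (cf p₀)).coeff j ∈ sp ℚ q := by
      rw [Ideal.mem_span_singleton]
      have hqm : (q : 𝓞 ℚ) ∣ (m : 𝓞 ℚ) := by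
        refine Nat.cast_dvd_cast ?_
        rw [hm]
        exact Dvd.dvd.mul_left (Finset.dvd_prod_of_mem (fun q => q) hq) W
      rw [pol_coeff, pol_coeff]
      by_cases hj3 : j = 2 * 1 + 1
      · rw [if_pos hj3, if_pos hj3, sub_self]
        exact dvd_zero _
      · rw [if_neg hj3, if_neg hj3]
        by_cases hj : j < 2 * 1
        · rw [dif_pos hj, dif_pos hj]
          have hcls : ∀ i : Fin (2 * 1), (m : 𝓞 ℚ) ∣ cf p i - cf p₀ i := by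
            intro i
            fin_cases i
            · show (m : 𝓞 ℚ) ∣ p.2 - p₀.2
              have e : p.2 - p₀.2 = (p.2 - A 0) - (p₀.2 - A 0) := by ring
              rw [e]
              exact dvd_sub hp.2 hp₀.2
            · show (m : 𝓞 ℚ) ∣ p.1 - p₀.1
              have e : p.1 - p₀.1 = (p.1 - A 1) - (p₀.1 - A 1) := by ring
              rw [e]
              exact dvd_sub hp.1 hp₀.1
          exact hqm.trans (hcls _)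
        · rw [dif_neg hj, dif_neg hj, sub_self]
          exact dvd_zero _
    have e : (pol (cf p)).coeff j - (P q).coeff j =
        ((pol (cf p)).coeff j - (pol (cf p₀)).coeff j) + ((pol (cf p₀)).coeff j - (P q).coeff j) := by
      ring
    rw [e]
    exact add_mem h2 h1
  -- the good curves
  have hgd : ∀ p, p ∉ Bad → (∀ J ∈ 𝒥, twp J p ∈ Mn ℚ) ∧
      ∀ e : ℕ, |((𝒥.filter fun J => sl (twp J p) = 2 ^ e).card : ℝ) - cc e * 𝒥.card| ≤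
        t * 𝒥.card := by
    intro p hp
    rw [hBad] at hp
    rw [h𝒥]
    refine good4 hSZE hSTEP hM hk hSd hS hdj hne (by rw [hT00, hT₁ 0 one_pos]) hq₀ hcd ?_ ?_ ?_
      (not_not.1 hp)
    · rw [hε']
      simp
    · intro j hj1 hjk
      rw [hε']
      simp only
      rw [if_neg (by omega)]
      exact min_le_left _ _
    · rw [hε']
      simp only
      rw [if_neg (by omega), if_neg (by omega)]
  have hJne : 𝒥.Nonempty := by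
    rw [h𝒥, ← Finset.card_pos, (js_card hdj hq₀ hk hcd).2]
    have h1 := (jj_nonempty (k := k) (T := T) k le_rfl fun j hj => hne j (by omega)).card_pos
    omega
  have hinj : ∀ J ∈ 𝒥, ∀ J' ∈ 𝒥, ∀ a ∈ Cl m (A 1) (A 0), ∀ b ∈ Cl m (A 1) (A 0),
      twp J a = twp J' b → J = J' ∧ a = b := by
    intro J hJ J' hJ' a ha b hb h
    exact twp_inj3 (W := W) (𝔮 := 𝔮) (r := r) (P := P) hS (C := Cl m (A 1) (A 0)) hCg (hJS J hJ)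
      (hJS J' hJ') ha hb h
  have hc0 : ∀ e, 0 ≤ cc e := fun e => (hQS.1 e).le
  have hc1 : ∀ e, cc e ≤ 1 := cc_le_one hQS
  have hasm := Pool.Agent.Run7.h688.MO.asm (𝓞 ℚ × 𝓞 ℚ) (Finset ℕ) Hq (Cl m (A 1) (A 0)) Bad Mq
    𝒥 (fun J => ((Dp J : ℕ) : ℝ) ^ 6) twp (2 * D₀ + 1) gi (mi t) t t lam
    hJne ht0.le (by linarith) ht0.le (fun r _ => by
      unfold mi
      split_ifs
      · linarith [hc0 (r / 2)]
      · linarith [hc1 (r / 2)]) (fun X Y h => hHq.mono X Y h) hfin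
    (fun J hJ => by
      have : (0 : ℝ) < ((Dp J : ℕ) : ℝ) := by exact_mod_cast hDpos J hJ
      positivity)
    (fun J hJ J' hJ' => by
      rw [h𝒥] at hJ hJ'
      have h1 := js_ratio hρ.le hk hdj hq₀ (fun j h1 h2 => by rw [hT j h2]; exact hwin j h1 h2) hy
        hy1 hy2 J hJ J' hJ'
      have h2 := pow_le_pow_left₀ (Nat.cast_nonneg _) h1 6
      rw [mul_pow] at h2
      refine h2.trans (mul_le_mul_of_nonneg_right hρ6 (by positivity)))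
    (fun J hJ a _ X => hHq.tw J (hDpos J hJ) a X) hinj
    (hbadev.mono fun Y hY => hY.2.2) hshell
    (fun J hJ a _ ha => hMq ((hgd a ha).1 J hJ))
    (fun r hr a _ ha => ⟨fun J hJ => by unfold gi; split_ifs <;> norm_num,
      gi_mean 𝒥 (fun J => twp J a) (hgd a ha).2 r⟩)
  obtain ⟨𝔉, h𝔉⟩ : ∃ 𝔉 : Set (𝓞 ℚ × 𝓞 ℚ), 𝔉 = {p | ∃ J ∈ 𝒥, ∃ a ∈ Cl m (A 1) (A 0),
      twp J a = p} := ⟨_, rfl⟩
  have hUp : ∀ X, Uq Hq Mq 𝔉 X = {p | p ∈ Mq ∧ p ∈ Hq X ∧ ∃ J ∈ 𝒥, ∃ a ∈ Cl m (A 1) (A 0),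
      twp J a = p} := by
    intro X
    rw [h𝔉]
    rfl
  refine ⟨m ^ 4, 𝔉, pow_pos hm0 4, ?_, ?_⟩
  · intro p hp p' h1 h2
    rw [h𝔉] at hp ⊢
    obtain ⟨J, hJ, a, ha, rfl⟩ := hp
    obtain ⟨c, hc⟩ := hDm J hJ
    obtain ⟨x, hx⟩ := h1
    obtain ⟨y, hy⟩ := h2
    have hmc : (m : 𝓞 ℚ) = ((Dp J : ℕ) : 𝓞 ℚ) * (c : 𝓞 ℚ) := by
      rw [hc]
      push_cast
      ring
    refine ⟨J, hJ, (a.1 + (m : 𝓞 ℚ) * ((m : 𝓞 ℚ) * (c : 𝓞 ℚ) ^ 2 * x),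
      a.2 + (m : 𝓞 ℚ) * ((c : 𝓞 ℚ) ^ 3 * y)), ⟨?_, ?_⟩, ?_⟩
    · show (m : 𝓞 ℚ) ∣ a.1 + (m : 𝓞 ℚ) * ((m : 𝓞 ℚ) * (c : 𝓞 ℚ) ^ 2 * x) - A 1
      have e : a.1 + (m : 𝓞 ℚ) * ((m : 𝓞 ℚ) * (c : 𝓞 ℚ) ^ 2 * x) - A 1 =
          (a.1 - A 1) + (m : 𝓞 ℚ) * ((m : 𝓞 ℚ) * (c : 𝓞 ℚ) ^ 2 * x) := by ring
      rw [e]
      exact dvd_add ha.1 (dvd_mul_right _ _)
    · show (m : 𝓞 ℚ) ∣ a.2 + (m : 𝓞 ℚ) * ((c : 𝓞 ℚ) ^ 3 * y) - A 0
      have e : a.2 + (m : 𝓞 ℚ) * ((c : 𝓞 ℚ) ^ 3 * y) - A 0 =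
          (a.2 - A 0) + (m : 𝓞 ℚ) * ((c : 𝓞 ℚ) ^ 3 * y) := by ring
      rw [e]
      exact dvd_add ha.2 (dvd_mul_right _ _)
    · refine Prod.ext ?_ ?_
      · show (a.1 + (m : 𝓞 ℚ) * ((m : 𝓞 ℚ) * (c : 𝓞 ℚ) ^ 2 * x)) * ((Dp J : ℕ) : 𝓞 ℚ) ^ 2 = p'.1
        have e1 : p'.1 = (twp J a).1 + ((m ^ 4 : ℕ) : 𝓞 ℚ) * x := by rw [← hx]; ring
        have e2 : (twp J a).1 = a.1 * ((Dp J : ℕ) : 𝓞 ℚ) ^ 2 := rfl
        rw [e1, e2, Nat.cast_pow]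
        have e3 : (m : 𝓞 ℚ) ^ 4 * x = (m : 𝓞 ℚ) * ((m : 𝓞 ℚ) * (m : 𝓞 ℚ) ^ 2 * x) := by ring
        have e4 : (m : 𝓞 ℚ) ^ 2 = ((Dp J : ℕ) : 𝓞 ℚ) ^ 2 * (c : 𝓞 ℚ) ^ 2 := by rw [hmc]; ring
        rw [e3, e4]
        ring
      · show (a.2 + (m : 𝓞 ℚ) * ((c : 𝓞 ℚ) ^ 3 * y)) * ((Dp J : ℕ) : 𝓞 ℚ) ^ 3 = p'.2
        have e1 : p'.2 = (twp J a).2 + ((m ^ 4 : ℕ) : 𝓞 ℚ) * y := by rw [← hy]; ring
        have e2 : (twp J a).2 = a.2 * ((Dp J : ℕ) : 𝓞 ℚ) ^ 3 := rfl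
        rw [e1, e2, Nat.cast_pow]
        have e3 : (m : 𝓞 ℚ) ^ 4 * y = (m : 𝓞 ℚ) * ((m : 𝓞 ℚ) ^ 3 * y) := by ring
        have e4 : (m : 𝓞 ℚ) ^ 3 = ((Dp J : ℕ) : 𝓞 ℚ) ^ 3 * (c : 𝓞 ℚ) ^ 3 := by rw [hmc]; ring
        rw [e3, e4]
        ring
  · obtain ⟨J₁, hJ₁⟩ := hJne
    have hD1 : (0 : ℝ) < ((Dp J₁ : ℕ) : ℝ) ^ 6 := by
      have : (0 : ℝ) < ((Dp J₁ : ℕ) : ℝ) := by exact_mod_cast hDpos J₁ hJ₁
      positivity
    have hlim : Filter.Tendsto (fun X : ℝ => X / ((Dp J₁ : ℕ) : ℝ) ^ 6) Filter.atTop Filter.atTop :=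
      Filter.tendsto_id.atTop_div_const hD1
    filter_upwards [hasm, hlim.eventually hbadev] with X hX hX2
    obtain ⟨a1, a2, a3⟩ := hX
    obtain ⟨b1, b2, b3⟩ := hX2
    rw [← hUp X] at a1 a2
    obtain ⟨G, hG⟩ : ∃ G : Set (𝓞 ℚ × 𝓞 ℚ), G = {p | p ∈ Hq X ∧ ∃ J ∈ 𝒥,
      ∃ a ∈ Cl m (A 1) (A 0), a ∉ Bad ∧ twp J a = p} := ⟨_, rfl⟩
    rw [← hG] at a2
    have hGU : G ⊆ Uq Hq Mq 𝔉 X := by
      rw [hG, hUp]
      rintro p ⟨h1, J, hJ, a, ha, hb, rfl⟩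
      exact ⟨hMq ((hgd a hb).1 J hJ), h1, J, hJ, a, ha, rfl⟩
    have hUpos : 0 < (Uq Hq Mq 𝔉 X).ncard := by
      rw [Set.ncard_pos a1]
      by_contra hcon
      rw [Set.not_nonempty_iff_eq_empty] at hcon
      have h4 : Cl m (A 1) (A 0) ∩ Hq (X / ((Dp J₁ : ℕ) : ℝ) ^ 6) ∩ Bad =
          Cl m (A 1) (A 0) ∩ Hq (X / ((Dp J₁ : ℕ) : ℝ) ^ 6) := by
        ext a
        refine ⟨fun h => h.1, fun h => ⟨h, ?_⟩⟩
        by_contra hb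
        have h5 : twp J₁ a ∈ Uq Hq Mq 𝔉 X := by
          refine hGU ?_
          rw [hG]
          exact ⟨(hHq.tw J₁ (hDpos J₁ hJ₁) a X).2 h.2, J₁, hJ₁, a, h.1, hb, rfl⟩
        rw [hcon] at h5
        exact h5
      rw [h4] at b3
      have h5 : (0 : ℝ) < ((Cl m (A 1) (A 0) ∩ Hq (X / ((Dp J₁ : ℕ) : ℝ) ^ 6)).ncard : ℝ) := by
        exact_mod_cast b2
      nlinarith
    have hUr : (0 : ℝ) < ((Uq Hq Mq 𝔉 X).ncard : ℝ) := by exact_mod_cast hUpos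
    refine ⟨a1, hUpos, fun e he => ?_⟩
    have g1 := a3 (2 * e) (by omega)
    have g2 := a3 (2 * e + 1) (by omega)
    rw [← hUp X] at g1 g2
    have m1 : mi t (2 * e) = cc e + t := by
      unfold mi
      rw [if_pos (Nat.mul_mod_right 2 e), Nat.mul_div_cancel_left e two_pos]
    have m2 : mi t (2 * e + 1) = 1 - cc e + t := by
      have h2 : (2 * e + 1) / 2 = e := by omega
      have h3 : (2 * e + 1) % 2 = 1 := by omega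
      unfold mi
      rw [h2, h3, if_neg (by norm_num)]
    rw [m1] at g1
    rw [m2] at g2
    have g1' : (1 - t) * ∑ᶠ p ∈ G, gi (2 * e) p ≤ (1 + t) * (cc e + t) * ((Uq Hq Mq 𝔉 X).ncard : ℝ) := by
      rw [hG]
      exact g1
    have g2' : (1 - t) * ∑ᶠ p ∈ G, gi (2 * e + 1) p ≤
        (1 + t) * (1 - cc e + t) * ((Uq Hq Mq 𝔉 X).ncard : ℝ) := by
      rw [hG]
      exact g2
    refine (fin_dist a1 hGU ht0.le ht2 (hc0 e) (hc1 e) a2 e g1' g2').trans ?_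
    exact mul_le_mul_of_nonneg_right htδ hUr.le

end Pool.Agent.Run7.h245.DI
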