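import Pool.Agent.Run7.h245.DI.As5
import Pool.Agent.Run7.h245.DI.All

/-!
# The distribution in a family of all curves: total variation
-/

set_option autoImplicit false
set_option linter.all false

open Polynomial IsDedekindDomain Matrix NumberField WithZero
open scoped Classical

namespace Pool.Agent.Run7.h245.DI

open Pool.Agent.Run7.h245.SR
open Pool.Agent.Run7.h245.MO

theorem inj2 (a b : ℕ) : (2 : ℕ) ^ a = 2 ^ b ↔ a = b :=
  ⟨fun h => Nat.pow_right_injective le_rfl h, fun h => by rw [h]⟩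

theorem sum_pow {α : Type} (V : Finset α) (f : α → ℕ) (R : Finset ℕ) :
    ∑ e ∈ R, (V.filter fun p => f p = 2 ^ e).card =
      (V.filter fun p => ∃ e ∈ R, f p = 2 ^ e).card := by
  rw [← Finset.card_biUnion]
  · congr 1
    ext p
    simp only [Finset.mem_biUnion, Finset.mem_filter]
    constructor
    · rintro ⟨e, h1, h2, h3⟩
      exact ⟨h2, e, h1, h3⟩
    · rintro ⟨h2, e, h1, h3⟩
      exact ⟨e, h1, h2, h3⟩
  · intro a _ b _ hab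
    rw [Function.onFun, Finset.disjoint_filter]
    intro p _ h1 h2
    rw [h1] at h2
    exact hab ((inj2 _ _).1 h2)

theorem cc_sub (hQS : S_QS) (E : Set ℕ) (R : Finset ℕ) :
    ∑ e ∈ R.filter (· ∈ E), cc e ≤ ∑' d : E, cc d ∧
    ∑' d : E, cc d ≤ ∑ e ∈ R.filter (· ∈ E), cc e + (1 - ∑ e ∈ R, cc e) := by
  have hs : Summable cc := (cc_sum hQS).summable
  have h1 : ∀ E : Set ℕ, ∑ e ∈ R.filter (· ∈ E), cc e ≤ ∑' d : E, cc d := by
    intro E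
    rw [tsum_subtype]
    have h2 := (hs.indicator E).sum_le_tsum (R.filter (· ∈ E)) fun i _ =>
      Set.indicator_nonneg (fun j _ => (hQS.1 j).le) i
    refine le_trans (le_of_eq ?_) h2
    refine Finset.sum_congr rfl fun e he => ?_
    rw [Set.indicator_of_mem (Finset.mem_filter.1 he).2]
  refine ⟨h1 E, ?_⟩
  have h3 := (hs.subtype E).tsum_add_tsum_compl (hs.subtype Eᶜ)
  rw [(cc_sum hQS).tsum_eq] at h3
  have h4 := h1 Eᶜ
  have h5 := Finset.sum_filter_add_sum_filter_not R (· ∈ E) cc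
  have h6 : ∑ e ∈ R.filter (fun e => ¬ e ∈ E), cc e ≤ ∑' d : (Eᶜ : Set ℕ), cc d := by
    refine le_trans (le_of_eq ?_) h4
    refine Finset.sum_congr ?_ fun _ _ => rfl
    ext e
    simp
  linarith

theorem tv_core {α : Type} (V : Finset α) (hV : 0 < V.card) (f : α → ℕ) (hQS : S_QS) {D₀ : ℕ}
    {δ : ℝ} (hδ : 0 < δ) (hD : 1 - δ / 4 ≤ ∑ e ∈ Finset.range (D₀ + 1), cc e)
    (h : ∀ e ≤ D₀, |((V.filter fun p => f p = 2 ^ e).card : ℝ) - cc e * V.card| ≤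
      δ / (4 * (D₀ + 1)) * V.card) (E : Set ℕ) :
    |((V.filter fun p => ∃ d ∈ E, f p = 2 ^ d).card : ℝ) / V.card - ∑' d : E, cc d| ≤ δ := by
  have hv : (0 : ℝ) < (V.card : ℝ) := by exact_mod_cast hV
  obtain ⟨v, hvd⟩ : ∃ v : ℝ, v = (V.card : ℝ) := ⟨_, rfl⟩
  have hv0 : 0 < v := by rw [hvd]; exact hv
  have hD1 : (0 : ℝ) < (D₀ : ℝ) + 1 := by positivity
  have key : ∀ R ⊆ Finset.range (D₀ + 1),
      |((V.filter fun p => ∃ e ∈ R, f p = 2 ^ e).card : ℝ) - (∑ e ∈ R, cc e) * v| ≤ δ / 4 * v := by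
    intro R hR
    have e1 : ((V.filter fun p => ∃ e ∈ R, f p = 2 ^ e).card : ℝ) - (∑ e ∈ R, cc e) * v =
        ∑ e ∈ R, (((V.filter fun p => f p = 2 ^ e).card : ℝ) - cc e * v) := by
      rw [Finset.sum_sub_distrib, ← Finset.sum_mul, ← sum_pow]
      push_cast
      rfl
    rw [e1]
    refine (Finset.abs_sum_le_sum_abs _ _).trans ?_
    have h1 : ∀ e ∈ R, |((V.filter fun p => f p = 2 ^ e).card : ℝ) - cc e * v| ≤
        δ / (4 * (D₀ + 1)) * v := by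
      intro e he
      rw [hvd]
      exact h e (by have := Finset.mem_range.1 (hR he); omega)
    refine (Finset.sum_le_sum h1).trans ?_
    rw [Finset.sum_const, nsmul_eq_mul]
    have h2 : (R.card : ℝ) ≤ (D₀ : ℝ) + 1 := by
      have := Finset.card_le_card hR
      rw [Finset.card_range] at this
      exact_mod_cast this
    calc (R.card : ℝ) * (δ / (4 * (D₀ + 1)) * v) ≤ ((D₀ : ℝ) + 1) * (δ / (4 * (D₀ + 1)) * v) :=
          mul_le_mul_of_nonneg_right h2 (by positivity)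
      _ = δ / 4 * v := by field_simp
  obtain ⟨R, hR⟩ : ∃ R, R = Finset.range (D₀ + 1) := ⟨_, rfl⟩
  obtain ⟨E', hE'⟩ : ∃ E' : Finset ℕ, E' = R.filter (· ∈ E) := ⟨_, rfl⟩
  have k1 := key R (by rw [hR])
  have k2 := key E' (by rw [hE', hR]; exact Finset.filter_subset _ _)
  obtain ⟨c1, c2⟩ := cc_sub hQS E R
  rw [← hE'] at c1 c2
  rw [← hR] at hD
  obtain ⟨a, ha⟩ : ∃ a : ℝ, a = ((V.filter fun p => ∃ e ∈ E', f p = 2 ^ e).card : ℝ) := ⟨_, rfl⟩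
  obtain ⟨b, hb⟩ : ∃ b : ℝ, b = ((V.filter fun p => ∃ e ∈ R, f p = 2 ^ e).card : ℝ) := ⟨_, rfl⟩
  obtain ⟨x, hx⟩ : ∃ x : ℝ, x = ((V.filter fun p => ∃ d ∈ E, f p = 2 ^ d).card : ℝ) := ⟨_, rfl⟩
  have hax : a ≤ x := by
    rw [ha, hx]
    refine Nat.cast_le.2 (Finset.card_le_card fun p hp => ?_)
    rw [Finset.mem_filter] at hp ⊢
    obtain ⟨h1, e, h2, h3⟩ := hp
    rw [hE', Finset.mem_filter] at h2
    exact ⟨h1, e, h2.2, h3⟩
  have hxa : x ≤ a + (v - b) := by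
    have h1 : (V.filter fun p => ∃ d ∈ E, f p = 2 ^ d) ⊆
        (V.filter fun p => ∃ e ∈ E', f p = 2 ^ e) ∪ V.filter fun p => ¬ ∃ e ∈ R, f p = 2 ^ e := by
      intro p hp
      rw [Finset.mem_filter] at hp
      obtain ⟨h1, d, h2, h3⟩ := hp
      rw [Finset.mem_union, Finset.mem_filter, Finset.mem_filter]
      by_cases h4 : ∃ e ∈ R, f p = 2 ^ e
      · left
        obtain ⟨e, h5, h6⟩ := h4
        have h7 : e = d := (inj2 _ _).1 (h6.symm.trans h3)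
        subst h7
        refine ⟨h1, e, ?_, h3⟩
        rw [hE', Finset.mem_filter]
        exact ⟨h5, h2⟩
      · exact Or.inr ⟨h1, h4⟩
    have h2 := (Finset.card_le_card h1).trans (Finset.card_union_le _ _)
    have h3 := Finset.card_filter_add_card_filter_not (s := V) (fun p => ∃ e ∈ R, f p = 2 ^ e)
    have h4 : ((V.filter fun p => ¬ ∃ e ∈ R, f p = 2 ^ e).card : ℝ) = v - b := by
      rw [hvd, hb, ← h3]
      push_cast
      ring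
    have h5 : x ≤ a + ((V.filter fun p => ¬ ∃ e ∈ R, f p = 2 ^ e).card : ℝ) := by
      rw [hx, ha]
      exact_mod_cast h2
    rw [h4] at h5
    exact h5
  rw [← hb] at k1
  rw [← ha] at k2
  rw [← hx, ← hvd]
  obtain ⟨c, hc⟩ : ∃ c : ℝ, c = ∑' d : E, cc d := ⟨_, rfl⟩
  obtain ⟨s, hs⟩ : ∃ s : ℝ, s = ∑ e ∈ R, cc e := ⟨_, rfl⟩
  obtain ⟨s', hs'⟩ : ∃ s' : ℝ, s' = ∑ e ∈ E', cc e := ⟨_, rfl⟩
  rw [← hc]
  rw [← hc, ← hs'] at c1
  rw [← hc, ← hs', ← hs] at c2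
  rw [← hs] at hD k1
  rw [← hs'] at k2
  rw [abs_le] at k1 k2
  have e2 : x / v - c = (x - c * v) / v := by field_simp
  rw [e2, abs_div, abs_of_pos hv0, div_le_iff₀ hv0, abs_le]
  obtain ⟨k1a, k1b⟩ := k1
  obtain ⟨k2a, k2b⟩ := k2
  have g1 : c * v ≤ (s' + (1 - s)) * v := mul_le_mul_of_nonneg_right c2 hv0.le
  have g2 : s' * v ≤ c * v := mul_le_mul_of_nonneg_right c1 hv0.le
  have g3 : (1 - δ / 4) * v ≤ s * v := mul_le_mul_of_nonneg_right hD hv0.le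
  have g4 : 0 < δ * v := mul_pos hδ hv0
  constructor <;> nlinarith

/-- **The distribution**, in total variation. -/
theorem distTV {Hq : ℝ → Set (𝓞 ℚ × 𝓞 ℚ)} (hHq : HD Hq) {Mq : Set (𝓞 ℚ × 𝓞 ℚ)}
    (hMq : Mn ℚ ⊆ Mq) (δ : ℝ) (hδ : 0 < δ) :
    ∃ (m : ℕ) (𝔉 : Set (𝓞 ℚ × 𝓞 ℚ)), 0 < m ∧
      (∀ p ∈ 𝔉, ∀ p' : 𝓞 ℚ × 𝓞 ℚ, (m : 𝓞 ℚ) ∣ p'.1 - p.1 → (m : 𝓞 ℚ) ∣ p'.2 - p.2 → p' ∈ 𝔉) ∧
      ∀ᶠ X : ℝ in Filter.atTop, (Uq Hq Mq 𝔉 X).Finite ∧ 0 < (Uq Hq Mq 𝔉 X).ncard ∧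
        ∀ E : Set ℕ, |({p ∈ Uq Hq Mq 𝔉 X | ∃ d ∈ E, sl p = 2 ^ d}.ncard : ℝ) /
          (Uq Hq Mq 𝔉 X).ncard - ∑' d : E, cc d| ≤ δ := by
  have hlim := (cc_sum aQS).tendsto_sum_nat
  obtain ⟨D₀, hD₀, hD1⟩ := ((hlim.eventually (lt_mem_nhds (show 1 - δ / 4 < (1 : ℝ) by linarith))).and
    (Filter.eventually_ge_atTop 1)).exists
  obtain ⟨D, rfl⟩ : ∃ D, D₀ = D + 1 := ⟨D₀ - 1, by omega⟩
  have hDp : (0 : ℝ) < (D : ℝ) + 1 := by positivity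
  obtain ⟨m, 𝔉, hm, hper, h⟩ := distQ hHq hMq aPRN aLEVBN aWIN2 aGF2 aSZE aSTEP aMCD aQS D
    (δ / (4 * (D + 1))) (by positivity)
  refine ⟨m, 𝔉, hm, hper, ?_⟩
  filter_upwards [h] with X hX
  obtain ⟨h1, h2, h3⟩ := hX
  refine ⟨h1, h2, fun E => ?_⟩
  have hc : (Uq Hq Mq 𝔉 X).ncard = h1.toFinset.card := Set.ncard_eq_toFinset_card _ h1
  have hf : ∀ P : 𝓞 ℚ × 𝓞 ℚ → Prop, {p ∈ Uq Hq Mq 𝔉 X | P p}.ncard =
      (h1.toFinset.filter P).card := by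
    intro P
    rw [← Set.ncard_coe_finset]
    congr 1
    ext p
    simp
  have hmain := tv_core h1.toFinset (by rw [← hc]; exact h2) sl aQS hδ hD₀.le (fun e he => by
    have h4 := h3 e he
    rw [hf, hc] at h4
    convert h4) E
  rw [hf, hc]
  exact hmain

end Pool.Agent.Run7.h245.DI
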