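import Pool.Agent.Run7.h245.DI.Iface
import Pool.Agent.Run7.h245.MO.Lw

/-!
# Two-sided levels

Adapted from `SR/Lev.lean`, `MO/Lx.lean`, `MO/Lw.lean`.
-/

set_option autoImplicit false
set_option linter.all false

open Polynomial IsDedekindDomain Matrix NumberField WithZero
open scoped Classical

namespace Pool.Agent.Run7.h245.DI

open Pool.Agent.N352.PJ (Mt Typ dd)
open Pool.Agent.N874.PP (Ev Sq1 U0 S_LIN)
open Pool.Agent.N783.PQ (LocIm)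
open Pool.Agent.N874.JM (LocF)
open Pool.Agent.N874.PM (PLoc)
open Pool.Agent.N783.PF
open Pool.Agent.Run7.h245.SR
open Pool.Agent.Run7.h245.MO (Win)

/-- The content of `S_PRN`. -/
def PrnP (F : Type) [Field F] [NumberField F] (m₀ κ : ℕ) : Prop :=
  ∀ (L : Type) [Field L] [NumberField L] [Algebra F L] (f : (𝓞 F)[X]) (θ : L) (B N W : ℕ)
  (S C : Finset ℕ) (𝔮 : ℕ → Ideal (𝓞 F)) (h P : ℕ → (𝓞 F)[X]), κ ≤ W → GoodS 1 W S 𝔮 h P →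
  C ⊆ S → IsGen 1 f θ → SqF 1 f → Ht 1 B f → 2 ^ κ * B ≤ 4 ^ N →
  (∀ q ∈ S, Cg (sp F q) f (P q)) →
  ∀ α : L, α ≠ 0 → IsSquare (Algebra.norm F α) → ¬ IsSquare α →
  (∀ 𝔓 : HeightOneSpectrum (𝓞 L), Ev 𝔓 α ∨ (m₀ : 𝓞 L) ∈ 𝔓.asIdeal) →
  (∀ q ∈ C, ∀ 𝔓 : HeightOneSpectrum (𝓞 L), Ov (𝔮 q) 𝔓 → Ev 𝔓 α) →
  (∀ q ∈ C, ∃ 𝔓 : HeightOneSpectrum (𝓞 L), Ov (𝔮 q) 𝔓 ∧ ¬ Sq1 𝔓 α) →
  LBadN 1 N κ S C 𝔮 P f

/-- The bad set of `S_LEVBN`. -/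
def LvSetN {F : Type} [Field F] [NumberField F] (N κ m : ℕ) (ε : ℝ) (S T : Finset ℕ)
    (𝔮 : ℕ → Ideal (𝓞 F)) (P : ℕ → (𝓞 F)[X]) : Set ((𝓞 F)[X]) :=
  {f | ∃ Z ⊆ T, (1 / 2 + ε) * T.card ≤ Z.card ∧ ∀ C ⊆ Z, C.card = m → LBadN 1 N κ S C 𝔮 P f}

/-- The content of `S_LEVBN`. -/
def LevPN (F : Type) [Field F] [NumberField F] (κ m K : ℕ) (δ ε : ℝ) (T : Finset ℕ) : Prop :=
  ∀ (W : ℕ) (S : Finset ℕ) (𝔮 : ℕ → Ideal (𝓞 F)) (h P : ℕ → (𝓞 F)[X]), K ≤ W →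
  GoodS 1 W S 𝔮 h P → T ⊆ S → ∃ N₀ : ℕ, ∀ N ≥ N₀, (LvSetN N κ m ε S T 𝔮 P).Finite ∧
  Pi1 F S * ((LvSetN N κ m ε S T 𝔮 P).ncard : ℝ) ≤ δ * 2 ^ (Module.finrank ℚ F * (2 * N * dd 1))

/-- The data of a level, negative side. -/
def LvDN (F : Type) [Field F] [NumberField F] (η ε : ℝ) (S' T : Finset ℕ) (W' : ℕ) : Prop :=
  ∃ (κ m : ℕ) (δ : ℝ), 0 < δ ∧ κ ≤ W' ∧ Pi1 F S' * (δ * (4 * 2 ^ κ) ^ De F) ≤ η ∧
    PrnP F (∏ q ∈ S', q) κ ∧ LevPN F κ m W' δ ε T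

/-- Pseudorandomness from the other side. -/
def PrAtN (g : ℕ) {F : Type} [Field F] [NumberField F] (f : (𝓞 F)[X]) (𝔮 : ℕ → Ideal (𝓞 F))
    (S₀ T : Finset ℕ) (ε : ℝ) : Prop :=
  ∀ (L : Type) [Field L] [NumberField L] [Algebra F L] (θ : L), IsGen g f θ →
  ∀ α : L, α ≠ 0 → IsSquare (Algebra.norm F α) → ¬ IsSquare α →
  (∀ 𝔓 : HeightOneSpectrum (𝓞 L), (∀ q ∈ S₀, Ov (𝔮 q) 𝔓 → 𝔓.valuation L θ ≠ 1) → Ev 𝔓 α) →
  ((T.filter fun q => ∃ 𝔓 : HeightOneSpectrum (𝓞 L), Ov (𝔮 q) 𝔓 ∧ ¬ Sq1 𝔓 α).card : ℝ) ≤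
    (1 / 2 + ε) * T.card

section

variable {F : Type} [Field F] [NumberField F]

/-- The bad polynomials of a level. -/
theorem level_badN {η ε : ℝ} {S' T S : Finset ℕ} {W' W'' : ℕ}
    {𝔮 : ℕ → Ideal (𝓞 F)} {r P : ℕ → (𝓞 F)[X]} (h : LvDN F η ε S' T W')
    (hS : GoodS 1 W' S 𝔮 r P) (hT : T ⊆ S) (hS' : GoodS 1 W'' S' 𝔮 r P)
    (hdj : Disjoint S' T) :
    ∃ B₀ : ℕ, ∀ B ≥ B₀, ∃ Bd : Set ((𝓞 F)[X]), Bd.Finite ∧
      Pi1 F S' * (Pi1 F S * (Bd.ncard : ℝ)) ≤ η * (B : ℝ) ^ De F ∧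
      ∀ f, Ht 1 B f → SqF 1 f → (∀ q ∈ S, Cg (sp F q) f (P q)) → f ∉ Bd → PrAtN 1 f 𝔮 S' T ε := by
  obtain ⟨κ, m, δ, hδ, hκ, hsm, hprx, hlev⟩ := h
  obtain ⟨N₀, hN₀⟩ := hlev W' S 𝔮 r P le_rfl hS hT
  refine ⟨max (4 ^ N₀) 1, fun B hB => ?_⟩
  have hB1 : 1 ≤ B := (le_max_right _ _).trans hB
  obtain ⟨N, hNa, hNb⟩ := exists_N κ B hB1
  have hNN : N₀ ≤ N := N_ge hNa ((le_max_left _ _).trans hB)
  obtain ⟨hfin, hcard⟩ := hN₀ N hNN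
  have hP' : 0 < Pi1 F S' := Pi1_pos fun q hq => (hS' q hq).1.pos
  refine ⟨LvSetN N κ m ε S T 𝔮 P, hfin, ?_, ?_⟩
  · calc Pi1 F S' * (Pi1 F S * ((LvSetN N κ m ε S T 𝔮 P).ncard : ℝ))
        ≤ Pi1 F S' * (δ * 2 ^ (Module.finrank ℚ F * (2 * N * dd 1))) :=
          mul_le_mul_of_nonneg_left hcard hP'.le
      _ ≤ Pi1 F S' * (δ * ((4 * 2 ^ κ) ^ De F * (B : ℝ) ^ De F)) := by
          refine mul_le_mul_of_nonneg_left ?_ hP'.le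
          exact mul_le_mul_of_nonneg_left (pow_bound hNb) hδ.le
      _ = (Pi1 F S' * (δ * (4 * 2 ^ κ) ^ De F)) * (B : ℝ) ^ De F := by ring
      _ ≤ η * (B : ℝ) ^ De F := mul_le_mul_of_nonneg_right hsm (by positivity)
  · intro f hht hsq hcon hnb L _ _ _ θ hG α hα hnrm hns hev
    by_contra hcon2
    rw [not_le] at hcon2
    apply hnb
    refine ⟨T.filter fun q => ∃ 𝔓 : HeightOneSpectrum (𝓞 L), Ov (𝔮 q) 𝔓 ∧ ¬ Sq1 𝔓 α,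
      Finset.filter_subset _ _, hcon2.le, fun C hC _ => ?_⟩
    have hCT : C ⊆ T := hC.trans (Finset.filter_subset _ _)
    refine hprx L f θ B N W' S C 𝔮 r P hκ hS (hCT.trans hT) hG hsq hht hNa hcon α hα hnrm hns
      (fun 𝔓 => ?_) (fun q hq 𝔓 hO => ?_) (fun q hq => ?_)
    · by_cases h1 : Ev 𝔓 α
      · exact Or.inl h1
      · right
        have h2 : ¬ ∀ q ∈ S', Ov (𝔮 q) 𝔓 → 𝔓.valuation L θ ≠ 1 := fun h3 => h1 (hev 𝔓 h3)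
        push Not at h2
        obtain ⟨q, hq, hO, hv⟩ := h2
        have h4 := ov_nat hS' hq hO
        have h5 : q ∣ ∏ q ∈ S', q := Finset.dvd_prod_of_mem _ hq
        obtain ⟨t, ht⟩ := h5
        rw [ht, Nat.cast_mul]
        exact Ideal.mul_mem_right _ _ h4
    · refine hev 𝔓 fun q' hq' hO' _ => ?_
      have hqS := hT (hCT hq)
      have e : q = q' := nat_uniq (hS q hqS).1 (hS' q' hq').1 (ov_nat hS hqS hO)
        (ov_nat hS' hq' hO')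
      subst e
      exact Finset.disjoint_left.1 hdj hq' (hCT hq)
    · exact (Finset.mem_filter.1 (hC hq)).2

/-- The thresholds for a new level. -/
theorem thr (hPRX : S_PRX) (hLEVB : S_LEVB) (hPRN : S_PRN) (hLEVBN : S_LEVBN) {η ε : ℝ}
    (hη : 0 < η) (hε : 0 < ε) (hε2 : ε < 1 / 2) (n₀ : ℕ) (S' : Finset ℕ) (hS' : ∀ q ∈ S', 0 < q) :
    ∃ s K : ℕ, ∀ (T : Finset ℕ) (W' : ℕ), s ≤ T.card → K ≤ W' →
      LvD F η ε n₀ S' T W' ∧ LvDN F η ε S' T W' := by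
  have hm₀ : (∏ q ∈ S', q) ≠ 0 := Finset.prod_ne_zero_iff.2 fun q hq => (hS' q hq).ne'
  have hP' : 0 < Pi1 F S' := Pi1_pos hS'
  have key : ∀ κ : ℕ, ∃ δ : ℝ, 0 < δ ∧ Pi1 F S' * (δ * (4 * 2 ^ κ) ^ De F) ≤ η := by
    intro κ
    refine ⟨η / (Pi1 F S' * (4 * 2 ^ κ) ^ De F), by positivity, le_of_eq ?_⟩
    have h1 : Pi1 F S' ≠ 0 := hP'.ne'
    have h2 : ((4 * 2 ^ κ : ℝ) ^ De F) ≠ 0 := by positivity
    field_simp
  obtain ⟨κ, hκ⟩ := hPRX 1 F (∏ q ∈ S', q) hm₀ le_rfl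
  obtain ⟨δ, hδ, hsm⟩ := key κ
  obtain ⟨m, s₀, K, hlev⟩ := hLEVB F 1 κ le_rfl δ ε hδ hε hε2
  obtain ⟨κ', hκ'⟩ := hPRN 1 F (∏ q ∈ S', q) hm₀ le_rfl
  obtain ⟨δ', hδ', hsm'⟩ := key κ'
  obtain ⟨m', s₀', K', hlev'⟩ := hLEVBN F 1 κ' le_rfl δ' ε hδ' hε hε2
  refine ⟨max (max s₀ s₀') n₀, max (max κ K) (max κ' K'), fun T W' hT hW' => ⟨⟨?_, κ, m, δ, hδ, ?_,
    hsm, hκ, ?_⟩, κ', m', δ', hδ', ?_, hsm', hκ', ?_⟩⟩
  · exact (le_max_right _ _).trans hT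
  · exact ((le_max_left _ _).trans (le_max_left _ _)).trans hW'
  · intro W S 𝔮' h' P' hW hS hTS
    exact hlev W S T 𝔮' h' P' (((le_max_right _ _).trans (le_max_left _ _)).trans (hW'.trans hW)) hS
      hTS (((le_max_left _ _).trans (le_max_left _ _)).trans hT)
  · exact ((le_max_left _ _).trans (le_max_right _ _)).trans hW'
  · intro W S 𝔮' h' P' hW hS hTS
    exact hlev' W S T 𝔮' h' P' (((le_max_right _ _).trans (le_max_right _ _)).trans (hW'.trans hW))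
      hS hTS (((le_max_right _ _).trans (le_max_left _ _)).trans hT)

/-- The polynomials for given primes. -/
theorem exd (F : Type) [Field F] [NumberField F] (W : ℕ) (S : Finset ℕ)
    (hS2 : ∀ q ∈ S, q.Prime ∧ W + (2 * 1 + 1) + (discr F).natAbs < q ∧ q % 8 = 1) :
    ∃ (𝔮 : ℕ → Ideal (𝓞 F)) (h P : ℕ → (𝓞 F)[X]), GoodS 1 W S 𝔮 h P := by
  have hdata : ∀ q : ℕ, ∃ (𝔮 : Ideal (𝓞 F)) (h A : (𝓞 F)[X]), q ∈ S →
    (∀ 𝔭 : Ideal (𝓞 F), 𝔭.IsPrime → (q : 𝓞 F) ∉ 𝔭 ^ 2) ∧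
    𝔮.IsPrime ∧ (q : 𝓞 F) ∈ 𝔮 ∧
    h.Monic ∧ h.natDegree = 2 * 1 ∧ Irreducible (rd 𝔮 h) ∧
    A.Monic ∧ A.natDegree = 2 * 1 + 1 ∧ A.coeff (2 * 1) = 0 ∧
    Cg 𝔮 A (X * h) ∧
    ∀ 𝔭 : Ideal (𝓞 F), 𝔭.IsPrime → (q : 𝓞 F) ∈ 𝔭 → 𝔭 ≠ 𝔮 → Irreducible (rd 𝔭 A) := by
    intro q
    by_cases hq : q ∈ S
    · obtain ⟨h1, h2, h3⟩ := hS2 q hq
      obtain ⟨𝔮, h, A, hh⟩ := Pool.Agent.N710.PF.exists_data F 1 q le_rfl h1 (by omega) (by omega)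
      exact ⟨𝔮, h, A, fun _ => hh⟩
    · exact ⟨⊥, 0, 0, fun h => absurd h hq⟩
  choose 𝔮 h A hh using hdata
  refine ⟨𝔮, h, A, fun q hq => ?_⟩
  obtain ⟨h1, h2, h3⟩ := hS2 q hq
  exact ⟨h1, by omega, by omega, h3, hh q hq⟩

end

/-- Several levels; the level `k` is pseudorandom for the classes ramified at the levels `< par k`. -/
structure LvZ (F : Type) [Field F] [NumberField F] (η ε : ℕ → ℝ) (n₀ : ℕ → ℕ) (W₀ K : ℕ)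
    (par : ℕ → ℕ) (T : ℕ → Finset ℕ)
    (Wk : ℕ → ℕ) (𝔮 : ℕ → Ideal (𝓞 F)) (r P : ℕ → (𝓞 F)[X]) : Prop where
  base : ∀ k < K, W₀ ≤ Wk k
  good : ∀ k < K, GoodS 1 (Wk k) (T k) 𝔮 r P
  disj : ∀ i < K, ∀ j < K, i ≠ j → Disjoint (T i) (T j)
  ple : ∀ k < K, par k ≤ k
  later : ∀ k < K, ∀ j < K, par k ≤ j → Wk k ≤ Wk j
  dat : ∀ k < K, LvD F (η k) (ε k) (n₀ k) ((Finset.range (par k)).biUnion T) (T k) (Wk k) ∧
    LvDN F (η k) (ε k) ((Finset.range (par k)).biUnion T) (T k) (Wk k)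

variable {F : Type} [Field F] [NumberField F]

variable {η ε : ℕ → ℝ} {n₀ : ℕ → ℕ} {W₀ K : ℕ} {par : ℕ → ℕ} {T : ℕ → Finset ℕ} {Wk : ℕ → ℕ}
  {𝔮 : ℕ → Ideal (𝓞 F)} {r P : ℕ → (𝓞 F)[X]}

/-- The levels `≥ par k`. -/
theorem LvZ.good_ge (H : LvZ F η ε n₀ W₀ K par T Wk 𝔮 r P) {k : ℕ} (hk : k < K) :
    GoodS 1 (Wk k) ((Finset.Ico (par k) K).biUnion T) 𝔮 r P := by
  intro q hq
  obtain ⟨j, hj, hqj⟩ := Finset.mem_biUnion.1 hq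
  rw [Finset.mem_Ico] at hj
  obtain ⟨h1, h2, h3⟩ := H.good j hj.2 q hqj
  exact ⟨h1, (H.later k hk j hj.2 hj.1).trans_lt h2, h3⟩

/-- All levels. -/
theorem LvZ.good_all (H : LvZ F η ε n₀ W₀ K par T Wk 𝔮 r P) :
    GoodS 1 W₀ ((Finset.range K).biUnion T) 𝔮 r P := by
  intro q hq
  obtain ⟨j, hj, hqj⟩ := Finset.mem_biUnion.1 hq
  rw [Finset.mem_range] at hj
  obtain ⟨h1, h2, h3⟩ := H.good j hj q hqj
  exact ⟨h1, (H.base j hj).trans_lt h2, h3⟩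

theorem LvZ.union (H : LvZ F η ε n₀ W₀ K par T Wk 𝔮 r P) {k : ℕ} (hk : k ≤ K) :
    (Finset.range K).biUnion T = (Finset.range k).biUnion T ∪ (Finset.Ico k K).biUnion T ∧
    Disjoint ((Finset.range k).biUnion T) ((Finset.Ico k K).biUnion T) := by
  constructor
  · ext q
    simp only [Finset.mem_biUnion, Finset.mem_union, Finset.mem_range, Finset.mem_Ico]
    constructor
    · rintro ⟨j, hj, hq⟩
      rcases lt_or_ge j k with h | h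
      · exact Or.inl ⟨j, h, hq⟩
      · exact Or.inr ⟨j, ⟨h, hj⟩, hq⟩
    · rintro (⟨j, hj, hq⟩ | ⟨j, hj, hq⟩)
      · exact ⟨j, hj.trans_le hk, hq⟩
      · exact ⟨j, hj.2, hq⟩
  · rw [Finset.disjoint_left]
    intro q hq hq'
    obtain ⟨i, hi, hqi⟩ := Finset.mem_biUnion.1 hq
    obtain ⟨j, hj, hqj⟩ := Finset.mem_biUnion.1 hq'
    rw [Finset.mem_range] at hi
    rw [Finset.mem_Ico] at hj
    exact Finset.disjoint_left.1 (H.disj i (by omega) j hj.2 (by omega)) hqi hqj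

/-- The bad polynomials of all levels. -/
theorem LvZ.bad (H : LvZ F η ε n₀ W₀ K par T Wk 𝔮 r P) (hη : ∀ k, 0 < η k) :
    ∃ B₀ : ℕ, ∀ B ≥ B₀, ∃ Bd : Set ((𝓞 F)[X]), Bd.Finite ∧
      Pi1 F ((Finset.range K).biUnion T) * (Bd.ncard : ℝ) ≤
        (∑ k ∈ Finset.range K, 2 * η k) * (B : ℝ) ^ De F ∧
      ∀ f, Ht 1 B f → SqF 1 f → (∀ q ∈ (Finset.range K).biUnion T, Cg (sp F q) f (P q)) →
        f ∉ Bd → ∀ k < K, PrAt 1 f 𝔮 ((Finset.range (par k)).biUnion T) (T k) (ε k) ∧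
          PrAtN 1 f 𝔮 ((Finset.range (par k)).biUnion T) (T k) (ε k) := by
  have key : ∀ k < K, ∃ B₀ : ℕ, ∀ B ≥ B₀, ∃ Bd : Set ((𝓞 F)[X]), Bd.Finite ∧
      Pi1 F ((Finset.range K).biUnion T) * (Bd.ncard : ℝ) ≤ (2 * η k) * (B : ℝ) ^ De F ∧
      ∀ f, Ht 1 B f → SqF 1 f → (∀ q ∈ (Finset.range K).biUnion T, Cg (sp F q) f (P q)) →
        f ∉ Bd → PrAt 1 f 𝔮 ((Finset.range (par k)).biUnion T) (T k) (ε k) ∧
          PrAtN 1 f 𝔮 ((Finset.range (par k)).biUnion T) (T k) (ε k) := by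
    intro k hk
    have hpk := H.ple k hk
    obtain ⟨hU, hD⟩ := H.union (hpk.trans hk.le)
    have hTk : T k ⊆ (Finset.Ico (par k) K).biUnion T := by
      intro q hq
      exact Finset.mem_biUnion.2 ⟨k, Finset.mem_Ico.2 ⟨hpk, hk⟩, hq⟩
    have hS' : GoodS 1 W₀ ((Finset.range (par k)).biUnion T) 𝔮 r P := by
      intro q hq
      refine H.good_all q ?_
      rw [hU]
      exact Finset.mem_union_left _ hq
    obtain ⟨B₀, hB₀⟩ := level_bad (H.dat k hk).1 (H.good_ge hk) hTk hS'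
      (Disjoint.mono_right hTk hD)
    obtain ⟨B₁, hB₁⟩ := level_badN (H.dat k hk).2 (H.good_ge hk) hTk hS'
      (Disjoint.mono_right hTk hD)
    refine ⟨max B₀ B₁, fun B hB => ?_⟩
    obtain ⟨Bd, h1, h2, h3⟩ := hB₀ B ((le_max_left _ _).trans hB)
    obtain ⟨Bd', h1', h2', h3'⟩ := hB₁ B ((le_max_right _ _).trans hB)
    have hPa : 0 ≤ Pi1 F ((Finset.range (par k)).biUnion T) * Pi1 F ((Finset.Ico (par k) K).biUnion T) := by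
      unfold Pi1
      positivity
    refine ⟨Bd ∪ Bd', h1.union h1', ?_, fun f a1 a2 a3 a4 => ⟨h3 f a1 a2 (fun q hq => a3 q ?_)
      fun h => a4 (Or.inl h), h3' f a1 a2 (fun q hq => a3 q ?_) fun h => a4 (Or.inr h)⟩⟩
    · rw [hU, Pi1_union hD]
      have h4 : ((Bd ∪ Bd').ncard : ℝ) ≤ (Bd.ncard : ℝ) + Bd'.ncard := by
        exact_mod_cast Set.ncard_union_le _ _
      have h5 := mul_le_mul_of_nonneg_left h4 hPa
      rw [← mul_assoc] at h2 h2'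
      rw [mul_add] at h5
      linarith
    · rw [hU]
      exact Finset.mem_union_right _ hq
    · rw [hU]
      exact Finset.mem_union_right _ hq
  choose! B₀ hB₀ using key
  refine ⟨∑ k ∈ Finset.range K, B₀ k, fun B hB => ?_⟩
  have hB' : ∀ k < K, B₀ k ≤ B := by
    intro k hk
    have h1 := Finset.single_le_sum (f := fun i => B₀ i) (fun _ _ => Nat.zero_le _)
      (Finset.mem_range.2 hk)
    exact h1.trans hB
  have key2 : ∀ k : ℕ, ∃ Bd : Set ((𝓞 F)[X]), k < K → (Bd.Finite ∧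
      Pi1 F ((Finset.range K).biUnion T) * (Bd.ncard : ℝ) ≤ (2 * η k) * (B : ℝ) ^ De F ∧
      ∀ f, Ht 1 B f → SqF 1 f → (∀ q ∈ (Finset.range K).biUnion T, Cg (sp F q) f (P q)) →
        f ∉ Bd → PrAt 1 f 𝔮 ((Finset.range (par k)).biUnion T) (T k) (ε k) ∧
          PrAtN 1 f 𝔮 ((Finset.range (par k)).biUnion T) (T k) (ε k)) := by
    intro k
    by_cases hk : k < K
    · obtain ⟨Bd, h⟩ := hB₀ k hk B (hB' k hk)
      exact ⟨Bd, fun _ => h⟩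
    · exact ⟨∅, fun h => absurd h hk⟩
  choose Bd hBd using key2
  have hP : 0 < Pi1 F ((Finset.range K).biUnion T) := Pi1_pos fun q hq =>
    (H.good_all q hq).1.pos
  -- the union
  have hun : ∀ n ≤ K, (⋃ k ∈ Finset.range n, Bd k).Finite ∧
      Pi1 F ((Finset.range K).biUnion T) * ((⋃ k ∈ Finset.range n, Bd k).ncard : ℝ) ≤
        (∑ k ∈ Finset.range n, 2 * η k) * (B : ℝ) ^ De F := by
    intro n
    induction n with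
    | zero =>
      intro _
      simp
    | succ n ih =>
      intro hn
      obtain ⟨i1, i2⟩ := ih (by omega)
      obtain ⟨j1, j2, -⟩ := hBd n (by omega)
      have e : (⋃ k ∈ Finset.range (n + 1), Bd k) = (⋃ k ∈ Finset.range n, Bd k) ∪ Bd n := by
        rw [Finset.range_add_one, Finset.set_biUnion_insert, Set.union_comm]
      rw [e]
      refine ⟨i1.union j1, ?_⟩
      have h1 : (((⋃ k ∈ Finset.range n, Bd k) ∪ Bd n).ncard : ℝ) ≤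
          ((⋃ k ∈ Finset.range n, Bd k).ncard : ℝ) + (Bd n).ncard := by
        exact_mod_cast Set.ncard_union_le _ _
      calc _ ≤ Pi1 F ((Finset.range K).biUnion T) *
            (((⋃ k ∈ Finset.range n, Bd k).ncard : ℝ) + (Bd n).ncard) :=
            mul_le_mul_of_nonneg_left h1 hP.le
        _ ≤ (∑ k ∈ Finset.range n, 2 * η k) * (B : ℝ) ^ De F + (2 * η n) * (B : ℝ) ^ De F := by
            rw [mul_add]
            exact add_le_add i2 j2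
        _ = _ := by rw [Finset.sum_range_succ]; ring
  obtain ⟨u1, u2⟩ := hun K le_rfl
  refine ⟨_, u1, u2, fun f a1 a2 a3 a4 k hk => (hBd k hk).2.2 f a1 a2 a3 fun h => a4 ?_⟩
  exact Set.mem_biUnion (Finset.mem_coe.2 (Finset.mem_range.2 hk)) h

end Pool.Agent.Run7.h245.DI
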