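import Pool.Agent.Run7.h245.MO.Sm
import Pool.Agent.Run7.h245.MO.Cn
import Pool.Agent.Run7.h245.DI.Lv

/-!
# Almost all polynomials of a residue class are good, over `ℚ`, congruent to `x ^ 3 + x + 1` modulo 16

Adapted from `MO/Cn.lean`.
-/

set_option autoImplicit false
set_option linter.all false

open Polynomial IsDedekindDomain Matrix NumberField WithZero
open scoped Classical

namespace Pool.Agent.Run7.h245.DI

open Pool.Agent.N951.PF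
open Pool.Agent.N352.PJ (dd pol dis Dy D2)
open Pool.Agent.N352.PF (dg Bal nv rv Bz Bx S_BX S_SML S_WK S_STR S_DSC S_GF S_PF S_CU S_LD S_PR)
open Pool.Agent.N783.PF (Bd Cg sp rd Ht GoodS GoodF Fam S_FAM LBad SqF)
open Pool.Agent.Run7.h245.SR
open Pool.Agent.Run7.h245.MO (smle)

/-- The good polynomials. -/
structure GdQ (W : ℕ) (S : Finset ℕ) (P : ℕ → (𝓞 ℚ)[X]) (PR : (𝓞 ℚ)[X] → Prop)
    (f : (𝓞 ℚ)[X]) : Prop where
  mon : f.Monic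
  deg : f.natDegree = 3
  tr : f.coeff 2 = 0
  irr : Irreducible (Pool.Agent.N783.PF.fF f)
  sqf : SqF 1 f
  sm : Small W f
  one : ∃ f₁ : (𝓞 ℚ)[X], GoodF 1 W f₁ ∧ Cg (sp ℚ W) f f₁
  c1 : (16 : 𝓞 ℚ) ∣ f.coeff 1 - 1
  c0 : (16 : 𝓞 ℚ) ∣ f.coeff 0 - 1
  con : ∀ q ∈ S, Cg (sp ℚ q) f (P q)
  pr : PR f

theorem cnt2 (hGF2 : S_GF2) (δ : ℝ) (hδ : 0 < δ) :
    ∃ (W s : ℕ) (η₁ : ℝ), 0 < W ∧ 0 < η₁ ∧ ∀ (S : Finset ℕ)
      (𝔮 : ℕ → Ideal (𝓞 ℚ)) (r P : ℕ → (𝓞 ℚ)[X]) (PR : (𝓞 ℚ)[X] → Prop), GoodS 1 W S 𝔮 r P →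
      (∃ B₂ : ℕ, ∀ B ≥ B₂, ∃ Bd : Set ((𝓞 ℚ)[X]), Bd.Finite ∧
        Pi1 ℚ S * (Bd.ncard : ℝ) ≤ η₁ * (B : ℝ) ^ De ℚ ∧
        ∀ f, Ht 1 B f → SqF 1 f → (∀ q ∈ S, Cg (sp ℚ q) f (P q)) → f ∉ Bd → PR f) →
      s ≤ S.card →
      ∃ (A : Fin (2 * 1) → 𝓞 ℚ) (B₀ : ℕ), ∀ B ≥ B₀,
        (Bx 1 B (W * ∏ q ∈ S, q) A).Finite ∧
        ({a ∈ Bx 1 B (W * ∏ q ∈ S, q) A | ¬ GdQ W S P PR (pol a)}.ncard : ℝ) *
          ((W * ∏ q ∈ S, q : ℕ) : ℝ) ^ (2 * 1 * dg ℚ) ≤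
          δ * (B : ℝ) ^ De ℚ := by
  have h7 := Pool.Agent.N195.PF.pf
  obtain ⟨κ, hsqf⟩ := Pool.Agent.N783.PF.sqf 1 ℚ le_rfl
  obtain ⟨Cb, Kb, hbad⟩ := Pool.Agent.N783.PF.bad ℚ 1 κ le_rfl
  obtain ⟨C₁, hC₁, hBX⟩ := Pool.Agent.N352.PF.bxT ℚ 1
  have hC0 : (0 : ℝ) < C₁ := by exact_mod_cast hC₁
  obtain ⟨M, C₂, hC₂, hM⟩ := smle Pool.Agent.N75.PF.cu Pool.Agent.N352.PF.bxT Pool.Agent.N189.PF.ld
    Pool.Agent.N195.PF.pr Pool.Agent.N195.PF.pf ℚ 1 le_rfl (δ / (4 * C₁)) (by positivity)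
  obtain ⟨p₀, hp₀K, hp₀⟩ := Nat.exists_infinite_primes (max (max Kb κ) 7)
  obtain ⟨W, f₁, hmon, hdeg, htr, hW0, htwo, hirr, hsep, hW, hΨ, h16, hf16, hf16'⟩ :=
    hGF2 (max p₀ (max M (2 * 1 + 1)))
  have hKW : max (max Kb κ) 7 ≤ W := hp₀K.trans (Nat.le_of_dvd hW0 (hW p₀ hp₀ (le_max_left _ _)))
  have hne : ∀ (𝔭 : Ideal (𝓞 ℚ)) (n : ℕ), 0 < n → (n : 𝓞 ℚ) ∈ 𝔭 → 𝔭 ≠ ⊥ := by
    intro 𝔭 n hn hm h0
    rw [h0, Ideal.mem_bot] at hm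
    have : n = 0 := by exact_mod_cast hm
    omega
  have hgood : GoodF 1 W f₁ := by
    refine ⟨hmon, hdeg, htr, hW0, htwo, ?_, ?_⟩
    · intro 𝔭 hp h2m
      have hb : 𝔭 ≠ ⊥ := hne 𝔭 2 two_pos (by exact_mod_cast h2m)
      exact hirr ⟨𝔭, hp, hb⟩ h2m
    · intro 𝔭 hp hWm
      exact hsep ⟨𝔭, hp, hne 𝔭 W hW0 hWm⟩ hWm
  have hp7 : ∀ p : ℕ, p.Prime → p ≤ 7 → p ∣ W := fun p hp hpK =>
    hW p hp ((hpK.trans ((le_max_right _ _).trans hp₀K)).trans (le_max_left _ _))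
  have hWr : (0 : ℝ) < (W : ℝ) ^ (2 * 1 * dg ℚ) := by positivity
  obtain ⟨s, hs⟩ : ∃ s : ℕ, 4 * (W : ℝ) ^ (2 * 1 * dg ℚ) * (Cb * (4 * 2 ^ κ : ℝ) ^ De ℚ) / δ <
      2 ^ s := pow_unbounded_of_one_lt _ (by norm_num)
  refine ⟨W, s, δ / (4 * (W : ℝ) ^ (2 * 1 * dg ℚ)), hW0, by positivity, ?_⟩
  intro S 𝔮 r P PR hS hPR hsS
  obtain ⟨B₂, hB₂⟩ := hPR
  obtain ⟨Q, hQ⟩ : ∃ Q : ℕ, Q = ∏ q ∈ S, q := ⟨_, rfl⟩
  rw [← hQ]
  have hQ0 : 0 < Q := by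
    rw [hQ]
    exact Finset.prod_pos fun q hq => (hS q hq).1.pos
  have hWQ : 0 < W * Q := Nat.mul_pos hW0 hQ0
  have hmr : (0 : ℝ) < ((W * Q : ℕ) : ℝ) ^ (2 * 1 * dg ℚ) := by
    have : (0 : ℝ) < ((W * Q : ℕ) : ℝ) := by exact_mod_cast hWQ
    positivity
  -- residues
  have hcrt : ∀ j : Fin (2 * 1), ∃ x : 𝓞 ℚ, (W : 𝓞 ℚ) ∣ x - f₁.coeff j ∧
      ∀ q ∈ S, (q : 𝓞 ℚ) ∣ x - (P q).coeff j := fun j =>
    crt W S (fun q hq => ⟨(hS q hq).1, fun hd =>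
      absurd (Nat.le_of_dvd hW0 hd) (by have := (hS q hq).2.1; omega)⟩) _ _
  choose A hA1 hA2 using hcrt
  obtain ⟨B₁, hB₁⟩ := Pool.Agent.N352.PF.STR331.str Pool.Agent.N75.PF.cu Pool.Agent.N364.PF.cl
    Pool.Agent.N195.PF.pf ℚ 1 le_rfl (δ / (4 * ((W * Q : ℕ) : ℝ) ^ (2 * 1 * dg ℚ)))
    (by positivity)
  obtain ⟨N₀, hN₀⟩ := hbad W S 𝔮 r P
      ((le_max_left _ _).trans ((le_max_left _ _).trans hKW)) hS
  have hκW : κ ≤ W := (le_max_right _ _).trans ((le_max_left _ _).trans hKW)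
  have hPi : 0 < Pi1 ℚ S := Pi1_pos fun q hq => (hS q hq).1.pos
  refine ⟨A, max (max B₁ (max (C₁ * (W * Q)) (C₂ * (W * Q)))) (max (max B₂ 1) (4 ^ N₀)),
    fun B hB => ?_⟩
  have hBB1 : B₁ ≤ B := (le_max_left _ _).trans ((le_max_left _ _).trans hB)
  have hBC1 : C₁ * (W * Q) ≤ B :=
    ((le_max_left _ _).trans (le_max_right _ _)).trans ((le_max_left _ _).trans hB)
  have hBC2 : C₂ * (W * Q) ≤ B :=
    ((le_max_right _ _).trans (le_max_right _ _)).trans ((le_max_left _ _).trans hB)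
  have hb2 : B₂ ≤ B := ((le_max_left _ _).trans (le_max_left _ _)).trans ((le_max_right _ _).trans hB)
  have hb1 : 1 ≤ B := ((le_max_right _ _).trans (le_max_left _ _)).trans ((le_max_right _ _).trans hB)
  have hb4 : 4 ^ N₀ ≤ B := (le_max_right _ _).trans ((le_max_right _ _).trans hB)
  obtain ⟨hfin, -, hcard⟩ := hBX B (W * Q) A hWQ hBC1
  obtain ⟨hfin0, -, -⟩ := hBX B 1 (fun _ => 0) one_pos
    (le_trans (Nat.mul_le_mul_left C₁ hWQ) hBC1)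
  have hBz : (Bz ℚ 1 B).Finite := by
    refine hfin0.subset ?_
    intro a ha
    exact ⟨ha, fun j => by simp⟩
  have hsml := hM B (W * Q) A hWQ hBC2
  have hstr := hB₁ B hBB1
  obtain ⟨N, hNa, hNb⟩ := exists_N κ B hb1
  obtain ⟨hfin1, hcard1⟩ := hN₀ N (N_ge hNa hb4)
  obtain ⟨Bd, hfin2, hcard2, hBd⟩ := hB₂ B hb2
  refine ⟨hfin, ?_⟩
  set U := Bx 1 B (W * Q) A with hU
  set U1 := {a ∈ U | ∃ v : HeightOneSpectrum (𝓞 ℚ), M < nv v ∧ nv v ^ 2 < B ^ dg ℚ ∧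
    ((W * Q : ℕ) : 𝓞 ℚ) ∉ v.asIdeal ∧ dis a ∈ v.asIdeal ^ 2} with hU1
  set U2 := {a ∈ Bz ℚ 1 B | ∃ v : HeightOneSpectrum (𝓞 ℚ), B ^ dg ℚ ≤ nv v ^ 2 ∧
    dis a ∈ v.asIdeal ∧ D2 a ∈ v.asIdeal} with hU2
  have hU1f : U1.Finite := hfin.subset (Set.sep_subset _ _)
  have hU2f : U2.Finite := hBz.subset (Set.sep_subset _ _)
  set LB := {f : (𝓞 ℚ)[X] | LBad 1 N κ S 𝔮 P f} with hLB
  -- the good ones are in the family
  have key : ∀ a ∈ U, a ∉ U1 → a ∉ U2 → Fam 1 B W f₁ S P (pol a) := by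
    intro a haU ha1 ha2
    have haB : a ∈ Bz ℚ 1 B := haU.1
    have haR : ∀ j, ((W * Q : ℕ) : 𝓞 ℚ) ∣ a j - A j := haU.2
    have hone : Cg (sp ℚ W) (pol a) f₁ := by
      apply cg_pol a hmon hdeg htr
      intro j
      rw [Ideal.mem_span_singleton]
      have e1 : (W : 𝓞 ℚ) ∣ a j - A j := dvd_trans (by push_cast; exact dvd_mul_right _ _) (haR j)
      have e2 : a j - f₁.coeff j = (a j - A j) + (A j - f₁.coeff j) := by ring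
      rw [e2]
      exact dvd_add e1 (hA1 j)
    have hcon : ∀ q ∈ S, Cg (sp ℚ q) (pol a) (P q) := by
      intro q hq
      obtain ⟨hq1, hq2, hq3, hq4, hq5, hq6, hq7, hq8, hq9, hq10, hq11, hq12, hq13, hq14, hq15⟩ :=
        hS q hq
      apply cg_pol a hq11 hq12 hq13
      intro j
      rw [Ideal.mem_span_singleton]
      have e0 : (q : 𝓞 ℚ) ∣ ((W * Q : ℕ) : 𝓞 ℚ) := by
        have e3 : q ∣ W * Q := by
          rw [hQ]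
          exact Dvd.dvd.mul_left (Finset.dvd_prod_of_mem (fun q => q) hq) W
        exact Nat.cast_dvd_cast e3
      have e1 : (q : 𝓞 ℚ) ∣ a j - A j := dvd_trans e0 (haR j)
      have e2 : a j - (P q).coeff j = (a j - A j) + (A j - (P q).coeff j) := by ring
      rw [e2]
      exact dvd_add e1 (hA2 j q hq)
    refine ⟨ht_pol haB, hone, hcon, fun 𝔭 hp hb hPd => ?_⟩
    obtain ⟨v, hv⟩ : ∃ v : HeightOneSpectrum (𝓞 ℚ), v.asIdeal = 𝔭 := ⟨⟨𝔭, hp, hb⟩, rfl⟩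
    subst hv
    have hPd' : dis a ∈ v.asIdeal ^ 2 := hPd
    have hPd1 : Pool.Agent.N352.PF.dsc 1 (pol a) ∈ v.asIdeal :=
      Ideal.pow_le_self two_ne_zero hPd
    haveI : Finite (𝓞 ℚ ⧸ v.asIdeal) := v.asIdeal.finiteQuotientOfFreeOfNeBot v.ne_bot
    haveI : IsDomain (𝓞 ℚ ⧸ v.asIdeal) := Ideal.Quotient.isDomain v.asIdeal
    have hPW : (W : 𝓞 ℚ) ∉ v.asIdeal := by
      intro hd
      refine Pool.Agent.N195.PF.dscp ℚ 1 v (pol a) f₁ le_rfl (pol_monic a) (pol_natDegree a) ?_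
        (hsep v hd) hPd1
      intro j
      exact (Ideal.span_singleton_le_iff_mem _).2 hd (hone j)
    have hPS : ∀ q ∈ S, (q : 𝓞 ℚ) ∉ v.asIdeal := by
      intro q hq hd
      obtain ⟨hq1, hq2, hq3, hq4, hq5, hq6, hq7, hq8, hq9, hq10, hq11, hq12, hq13, hq14, hq15⟩ :=
        hS q hq
      have hc : ∀ j, (pol a).coeff j - (P q).coeff j ∈ v.asIdeal := fun j =>
        (Ideal.span_singleton_le_iff_mem _).2 hd (hcon q hq j)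
      by_cases hv : v.asIdeal = 𝔮 q
      · refine Pool.Agent.N195.PF.dscp ℚ 1 v (pol a) (X * r q) le_rfl (pol_monic a)
          (pol_natDegree a) ?_ ?_ hPd1
        · intro j
          have e1 : (pol a).coeff j - (X * r q).coeff j =
              ((pol a).coeff j - (P q).coeff j) + ((P q).coeff j - (X * r q).coeff j) := by ring
          rw [e1]
          refine Ideal.add_mem _ (hc j) ?_
          rw [hv]
          exact hq14 j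
        · have e1 : rv v (X * r q) = X * rv v (r q) := by
            rw [rv, rv, Polynomial.map_mul, Polynomial.map_X]
          rw [e1]
          have e2 : Irreducible (rv v (r q)) := by
            have e3 : Irreducible (rd v.asIdeal (r q)) := by
              rw [hv]
              exact hq10
            exact e3
          refine sep_X_mul e2 ?_
          rw [rv, hq8.natDegree_map, hq9]
          omega
      · refine Pool.Agent.N195.PF.dscp ℚ 1 v (pol a) (P q) le_rfl (pol_monic a)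
          (pol_natDegree a) hc ?_ hPd1
        exact sep_of_irr (hq15 v.asIdeal v.isPrime hd hv)
    have hPQ : ((W * Q : ℕ) : 𝓞 ℚ) ∉ v.asIdeal := by
      intro hd
      rw [Nat.cast_mul] at hd
      rcases v.isPrime.mem_or_mem hd with hd | hd
      · exact hPW hd
      · rw [hQ, Nat.cast_prod] at hd
        obtain ⟨q, hq, hqm⟩ := (Ideal.IsPrime.prod_mem_iff (hp := v.isPrime)).1 hd
        exact hPS q hq hqm
    have hsmall : ∀ n : ℕ, 0 < n → (n : 𝓞 ℚ) ∈ v.asIdeal →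
        (∀ p : ℕ, p.Prime → p ∣ n → p ≤ max p₀ (max M (2 * 1 + 1))) → False := by
      intro n hn hm hle
      obtain ⟨p, hp1, hp2, hp3⟩ := prime_factor v.asIdeal v.isPrime n hn hm
      have e1 := hW p hp1 (hle p hp1 hp2)
      apply hPW
      obtain ⟨m, hm⟩ := e1
      rw [hm, Nat.cast_mul]
      exact Ideal.mul_mem_right _ _ hp3
    have hfac : ((2 * 1 + 1).factorial : 𝓞 ℚ) ∉ v.asIdeal := by
      intro hd
      refine hsmall _ (Nat.factorial_pos _) hd fun p hp hpd => ?_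
      exact ((hp.dvd_factorial).1 hpd).trans ((le_max_right _ _).trans (le_max_right _ _))
    have hPM1 : M < nv v := by
      by_contra hc
      have hnv2 : 2 ≤ nv v := (h7 ℚ).2.2 v
      refine hsmall (nv v) (by omega) (Ideal.absNorm_mem v.asIdeal) fun p hp hpd => ?_
      have e1 := Nat.le_of_dvd (by omega) hpd
      exact (e1.trans (not_lt.1 hc)).trans ((le_max_left _ _).trans (le_max_right _ _))
    have hBP : B ^ dg ℚ ≤ nv v ^ 2 := by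
      by_contra hc
      exact ha1 ⟨haU, v, hPM1, not_le.1 hc, hPQ, hPd'⟩
    refine ⟨hBP, Pool.Agent.N935.PF.WK.wk ℚ 1 v le_rfl hfac a hPd' fun hD => ?_⟩
    exact ha2 ⟨haB, v, hBP, hPd1, hD⟩
  have key2 : ∀ a ∈ U, a ∉ U1 → a ∉ U2 → pol a ∉ LB → pol a ∉ Bd → GdQ W S P PR (pol a) := by
    intro a haU ha1 ha2 h1 h2
    have hfa : Fam 1 B W f₁ S P (pol a) := key a haU ha1 ha2
    have hirr : Irreducible (Pool.Agent.N783.PF.fF (pol a)) :=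
      Pool.Agent.N667.PF.irr ℚ 1 W f₁ (pol a) hgood hfa.one hfa.ht.mon hfa.ht.deg
    have hsq : SqF 1 (pol a) := hsqf B N W f₁ S 𝔮 r P (pol a) hκW hgood hS hfa hirr hNa hb1 h1
    refine ⟨hfa.ht.mon, hfa.ht.deg, hfa.ht.tr, hirr, hsq, small_of hgood hΨ hp7 hfa.ht.mon
      hfa.ht.deg hfa.one, ⟨f₁, hgood, hfa.one⟩, ?_, ?_, hfa.con, hBd _ hfa.ht hsq hfa.con h2⟩
    · have e1 : (16 : 𝓞 ℚ) ∣ (pol a).coeff 1 - f₁.coeff 1 := by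
        refine dvd_trans ?_ (Ideal.mem_span_singleton.1 (hfa.one 1))
        exact_mod_cast (Nat.cast_dvd_cast (α := 𝓞 ℚ) h16)
      have e2 : (pol a).coeff 1 - 1 = ((pol a).coeff 1 - f₁.coeff 1) + (f₁.coeff 1 - 1) := by ring
      rw [e2]
      exact dvd_add e1 hf16
    · have e1 : (16 : 𝓞 ℚ) ∣ (pol a).coeff 0 - f₁.coeff 0 := by
        refine dvd_trans ?_ (Ideal.mem_span_singleton.1 (hfa.one 0))
        exact_mod_cast (Nat.cast_dvd_cast (α := 𝓞 ℚ) h16)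
      have e2 : (pol a).coeff 0 - 1 = ((pol a).coeff 0 - f₁.coeff 0) + (f₁.coeff 0 - 1) := by ring
      rw [e2]
      exact dvd_add e1 hf16'
  have hsub : {a ∈ U | ¬ GdQ W S P PR (pol a)} ⊆
      (U1 ∪ U2) ∪ ((pol ⁻¹' LB) ∪ (pol ⁻¹' Bd)) := by
    rintro a ⟨haU, ha⟩
    by_contra hc
    simp only [Set.mem_union, not_or] at hc
    exact ha (key2 a haU hc.1.1 hc.1.2 hc.2.1 hc.2.2)
  have hLf : ((pol : (Fin (2 * 1) → 𝓞 ℚ) → (𝓞 ℚ)[X]) ⁻¹' LB).Finite :=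
    hfin1.preimage pol_inj.injOn
  have hBf : ((pol : (Fin (2 * 1) → 𝓞 ℚ) → (𝓞 ℚ)[X]) ⁻¹' Bd).Finite :=
    hfin2.preimage pol_inj.injOn
  have hL1 : ((pol : (Fin (2 * 1) → 𝓞 ℚ) → (𝓞 ℚ)[X]) ⁻¹' LB).ncard ≤ LB.ncard := by
    rw [← Set.ncard_image_of_injective _ pol_inj]
    exact Set.ncard_le_ncard (Set.image_preimage_subset _ _) hfin1
  have hB1 : ((pol : (Fin (2 * 1) → 𝓞 ℚ) → (𝓞 ℚ)[X]) ⁻¹' Bd).ncard ≤ Bd.ncard := by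
    rw [← Set.ncard_image_of_injective _ pol_inj]
    exact Set.ncard_le_ncard (Set.image_preimage_subset _ _) hfin2
  have hc1 : ({a ∈ U | ¬ GdQ W S P PR (pol a)}.ncard : ℝ) ≤
      ((U1.ncard : ℝ) + U2.ncard) + (LB.ncard + Bd.ncard) := by
    have e1 := Set.ncard_le_ncard hsub ((hU1f.union hU2f).union (hLf.union hBf))
    have e2 := Set.ncard_union_le (U1 ∪ U2) ((pol ⁻¹' LB) ∪ (pol ⁻¹' Bd))
    have e3 := Set.ncard_union_le U1 U2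
    have e4 := Set.ncard_union_le ((pol : (Fin (2 * 1) → 𝓞 ℚ) → (𝓞 ℚ)[X]) ⁻¹' LB) (pol ⁻¹' Bd)
    have e5 : {a ∈ U | ¬ GdQ W S P PR (pol a)}.ncard ≤
        (U1.ncard + U2.ncard) + (LB.ncard + Bd.ncard) := by omega
    exact_mod_cast e5
  have eW : ((W * Q : ℕ) : ℝ) ^ (2 * 1 * dg ℚ) = (W : ℝ) ^ (2 * 1 * dg ℚ) * Pi1 ℚ S := by
    unfold Pi1
    rw [Finset.prod_pow, ← hQ]
    push_cast
    rw [mul_pow]
    congr 1
    rw [← pow_mul]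
  have hcardr : (U.ncard : ℝ) * ((W * Q : ℕ) : ℝ) ^ (2 * 1 * dg ℚ) ≤ C₁ * (B : ℝ) ^ De ℚ := by
    exact_mod_cast hcard
  have d1 : (U1.ncard : ℝ) * ((W * Q : ℕ) : ℝ) ^ (2 * 1 * dg ℚ) ≤ δ / 4 * (B : ℝ) ^ De ℚ := by
    calc (U1.ncard : ℝ) * ((W * Q : ℕ) : ℝ) ^ (2 * 1 * dg ℚ)
        ≤ (δ / (4 * C₁) * U.ncard) * ((W * Q : ℕ) : ℝ) ^ (2 * 1 * dg ℚ) :=
          mul_le_mul_of_nonneg_right hsml hmr.le
      _ = δ / (4 * C₁) * (U.ncard * ((W * Q : ℕ) : ℝ) ^ (2 * 1 * dg ℚ)) := by ring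
      _ ≤ δ / (4 * C₁) * (C₁ * (B : ℝ) ^ De ℚ) :=
          mul_le_mul_of_nonneg_left hcardr (by positivity)
      _ = δ / 4 * (B : ℝ) ^ De ℚ := by field_simp
  have d2 : (U2.ncard : ℝ) * ((W * Q : ℕ) : ℝ) ^ (2 * 1 * dg ℚ) ≤ δ / 4 * (B : ℝ) ^ De ℚ := by
    calc (U2.ncard : ℝ) * ((W * Q : ℕ) : ℝ) ^ (2 * 1 * dg ℚ)
        ≤ (δ / (4 * ((W * Q : ℕ) : ℝ) ^ (2 * 1 * dg ℚ)) * (B : ℝ) ^ De ℚ) *
          ((W * Q : ℕ) : ℝ) ^ (2 * 1 * dg ℚ) :=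
          mul_le_mul_of_nonneg_right hstr hmr.le
      _ = δ / 4 * (B : ℝ) ^ De ℚ := by field_simp
  have d3 : (LB.ncard : ℝ) * ((W * Q : ℕ) : ℝ) ^ (2 * 1 * dg ℚ) ≤ δ / 4 * (B : ℝ) ^ De ℚ := by
    have h1 : (2 : ℝ) ^ S.card * Pi1 ℚ S * (LB.ncard : ℝ) ≤
        Cb * 2 ^ (Module.finrank ℚ ℚ * (2 * N * dd 1)) := by
      unfold Pi1
      exact_mod_cast hcard1
    have h2 := h1.trans (mul_le_mul_of_nonneg_left (pow_bound hNb) (Nat.cast_nonneg Cb))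
    have h3 : (2 : ℝ) ^ s ≤ 2 ^ S.card := pow_le_pow_right₀ (by norm_num) hsS
    have h4 : 4 * (W : ℝ) ^ (2 * 1 * dg ℚ) * (Cb * (4 * 2 ^ κ : ℝ) ^ De ℚ) ≤ δ * 2 ^ S.card := by
      rw [div_lt_iff₀ hδ] at hs
      nlinarith
    have h5 : (0 : ℝ) < 2 ^ S.card := by positivity
    have h6 : (0 : ℝ) ≤ (B : ℝ) ^ De ℚ := by positivity
    have h8 : (2 : ℝ) ^ S.card * ((LB.ncard : ℝ) * ((W * Q : ℕ) : ℝ) ^ (2 * 1 * dg ℚ)) ≤
        2 ^ S.card * (δ / 4 * (B : ℝ) ^ De ℚ) := by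
      rw [eW]
      calc _ = (W : ℝ) ^ (2 * 1 * dg ℚ) * ((2 : ℝ) ^ S.card * Pi1 ℚ S * (LB.ncard : ℝ)) := by ring
        _ ≤ (W : ℝ) ^ (2 * 1 * dg ℚ) * (Cb * ((4 * 2 ^ κ) ^ De ℚ * (B : ℝ) ^ De ℚ)) :=
            mul_le_mul_of_nonneg_left h2 hWr.le
        _ = ((W : ℝ) ^ (2 * 1 * dg ℚ) * (Cb * (4 * 2 ^ κ : ℝ) ^ De ℚ)) * (B : ℝ) ^ De ℚ := by ring
        _ ≤ (δ / 4 * 2 ^ S.card) * (B : ℝ) ^ De ℚ :=
            mul_le_mul_of_nonneg_right (by linarith) h6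
        _ = _ := by ring
    exact le_of_mul_le_mul_left h8 h5
  have d4 : (Bd.ncard : ℝ) * ((W * Q : ℕ) : ℝ) ^ (2 * 1 * dg ℚ) ≤ δ / 4 * (B : ℝ) ^ De ℚ := by
    rw [eW]
    calc (Bd.ncard : ℝ) * ((W : ℝ) ^ (2 * 1 * dg ℚ) * Pi1 ℚ S)
        = (W : ℝ) ^ (2 * 1 * dg ℚ) * (Pi1 ℚ S * (Bd.ncard : ℝ)) := by ring
      _ ≤ (W : ℝ) ^ (2 * 1 * dg ℚ) * ((δ / (4 * (W : ℝ) ^ (2 * 1 * dg ℚ))) * (B : ℝ) ^ De ℚ) := by
          exact mul_le_mul_of_nonneg_left hcard2 hWr.le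
      _ = δ / 4 * (B : ℝ) ^ De ℚ := by field_simp
  have := mul_le_mul_of_nonneg_right hc1 hmr.le
  nlinarith

end Pool.Agent.Run7.h245.DI
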