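import Pool.Agent.Run7.h245.DI.As4
import Pool.Agent.Run7.h688.MO.SHL

/-!
# The height `max (|a| ^ 3, |b| ^ 2)`

The counting of `Run7/h688/MO/SHL.lean` (helper688) and `MO/Tr.lean` for this height.
-/

set_option autoImplicit false
set_option linter.all false

open NumberField Filter Topology Module
open scoped Classical

namespace Pool.Agent.Run7.h245.DI

open Pool.Agent.N352.PF (dg Bal nv rv Bz Bx S_BX)
open Pool.Agent.N783.PF (Bd Cg sp rd Ht GoodS GoodF Fam S_FAM LBad SqF Dp Min fF)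
open Pool.Agent.Run7.h245.MO
open Pool.Agent.Run7.h245.SR
open Pool.Agent.Run7.h688.MO (Ix Sc Sc_fin Sc_tendsto Kb Kb_pos)

/-- The height `max_σ max (|σ a| ^ 3, |σ b| ^ 2)` is at most `X`. -/
def Hh {F : Type} [Field F] [NumberField F] (X : ℝ) : Set (𝓞 F × 𝓞 F) :=
  {p | ∀ σ : F →+* ℂ, ‖σ (p.1 : F)‖ ^ 3 ≤ X ∧ ‖σ (p.2 : F)‖ ^ 2 ≤ X}

section

variable (F : Type) [Field F] [NumberField F]

/-- the size bounds -/
noncomputable def al (X : ℝ) : ℝ := X ^ (1 / 3 : ℝ)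
noncomputable def be (X : ℝ) : ℝ := X ^ (1 / 2 : ℝ)

lemma al_nn (X : ℝ) (hX : 0 ≤ X) : 0 ≤ al X := by unfold al; positivity
lemma be_nn (X : ℝ) (hX : 0 ≤ X) : 0 ≤ be X := by unfold be; positivity

lemma al_pow (X : ℝ) (hX : 0 ≤ X) : al X ^ 3 = X := by
  unfold al
  rw [← Real.rpow_natCast, ← Real.rpow_mul (by positivity)]
  norm_num

lemma be_pow (X : ℝ) (hX : 0 ≤ X) : be X ^ 2 = X := by
  unfold be
  rw [← Real.rpow_natCast, ← Real.rpow_mul (by positivity)]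
  norm_num

lemma al_le (X y : ℝ) (hX : 0 ≤ X) (hy : 0 ≤ y) : y ^ 3 ≤ X ↔ y ≤ al X := by
  rw [← pow_le_pow_iff_left₀ hy (al_nn X hX) (n := 3) (by norm_num), al_pow X hX]

lemma be_le (X y : ℝ) (hX : 0 ≤ X) (hy : 0 ≤ y) : y ^ 2 ≤ X ↔ y ≤ be X := by
  rw [← pow_le_pow_iff_left₀ hy (be_nn X hX) (n := 2) (by norm_num), be_pow X hX]

lemma al_mul (μ X : ℝ) (hμ : 0 ≤ μ) (hX : 0 ≤ X) : al (μ ^ 6 * X) = μ ^ 2 * al X := by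
  have h1 : 0 ≤ μ ^ 2 * al X := mul_nonneg (by positivity) (al_nn X hX)
  have h2 : 0 ≤ al (μ ^ 6 * X) := al_nn _ (by positivity)
  rw [← pow_left_inj₀ h2 h1 (n := 3) (by norm_num), al_pow _ (by positivity), mul_pow, al_pow X hX]
  ring

lemma be_mul (μ X : ℝ) (hμ : 0 ≤ μ) (hX : 0 ≤ X) : be (μ ^ 6 * X) = μ ^ 3 * be X := by
  have h1 : 0 ≤ μ ^ 3 * be X := mul_nonneg (by positivity) (be_nn X hX)
  have h2 : 0 ≤ be (μ ^ 6 * X) := be_nn _ (by positivity)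
  rw [← pow_left_inj₀ h2 h1 (n := 2) (by norm_num), be_pow _ (by positivity), mul_pow, be_pow X hX]
  ring

lemma al_top : Tendsto al atTop atTop := tendsto_rpow_atTop (by norm_num : (0 : ℝ) < 1 / 3)

lemma be_top : Tendsto be atTop atTop := tendsto_rpow_atTop (by norm_num : (0 : ℝ) < 1 / 2)

lemma set_eq (m : ℕ) (A B : 𝓞 F) (X : ℝ) (hX : 0 ≤ X) :
    (Cl m A B ∩ Hh X : Set (𝓞 F × 𝓞 F)) = Sc F m A (al X) ×ˢ Sc F m B (be X) := by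
  ext ⟨a, b⟩
  constructor
  · rintro ⟨⟨h1, h2⟩, h3⟩
    exact ⟨⟨h1, fun σ => (al_le X _ hX (norm_nonneg _)).1 (h3 σ).1⟩,
      ⟨h2, fun σ => (be_le X _ hX (norm_nonneg _)).1 (h3 σ).2⟩⟩
  · rintro ⟨⟨h1, h2⟩, ⟨h3, h4⟩⟩
    exact ⟨⟨h1, h3⟩, fun σ => ⟨(al_le X _ hX (norm_nonneg _)).2 (h2 σ),
      (be_le X _ hX (norm_nonneg _)).2 (h4 σ)⟩⟩

/-- the product count -/
noncomputable def Nn (m : ℕ) (A B : 𝓞 F) (X : ℝ) : ℝ := ((Cl m A B ∩ Hh X : Set (𝓞 F × 𝓞 F)).ncard : ℝ)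

lemma Nn_tendsto (m : ℕ) (hm : 0 < m) (A B : 𝓞 F) : ∃ V : ℝ, 0 < V ∧
    Tendsto (fun X : ℝ => Nn F m A B X / (al X ^ Fintype.card (Ix F) * be X ^ Fintype.card (Ix F)))
      atTop (𝓝 V) := by
  have hmr : (0 : ℝ) < m := by exact_mod_cast hm
  have hK := Kb_pos F
  refine ⟨_, ?_, (((Sc_tendsto F m hm A).comp al_top).mul ((Sc_tendsto F m hm B).comp be_top)).congr' ?_⟩
  · positivity
  · filter_upwards [eventually_gt_atTop (0 : ℝ)] with X hX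
    unfold Nn
    rw [set_eq F m A B X hX.le, Set.ncard_prod, Nat.cast_mul]
    show ((Sc F m A (al X)).ncard : ℝ) / al X ^ Fintype.card (Ix F) *
      (((Sc F m B (be X)).ncard : ℝ) / be X ^ Fintype.card (Ix F)) = _
    rw [div_mul_div_comm]

theorem shl2 (ρ : ℝ) (hρ : 0 < ρ) : ∃ lam : ℝ, 1 < lam ∧
  ∀ (m : ℕ) (A B : 𝓞 F), 0 < m →
    (∀ Y : ℝ, (Cl m A B ∩ Hh Y).Finite) ∧
    (∀ᶠ Y : ℝ in Filter.atTop, 0 < (Cl m A B ∩ Hh Y).ncard) ∧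
    ∀ᶠ Y : ℝ in Filter.atTop, ((Cl m A B ∩ Hh (lam * Y)).ncard : ℝ) ≤
      (1 + ρ) * ((Cl m A B ∩ Hh Y).ncard : ℝ) := by
  obtain ⟨n, hn⟩ : ∃ n : ℕ, n = Fintype.card (Ix F) := ⟨_, rfl⟩
  obtain ⟨μ, hμ1, hμ2⟩ : ∃ μ : ℝ, 1 < μ ∧ (μ ^ 2) ^ n * (μ ^ 3) ^ n < 1 + ρ := by
    have h1 : Tendsto (fun μ : ℝ => (μ ^ 2) ^ n * (μ ^ 3) ^ n) (𝓝[>] 1) (𝓝 ((1 ^ 2) ^ n * (1 ^ 3) ^ n)) := by
      apply Tendsto.mono_left _ nhdsWithin_le_nhds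
      apply Continuous.tendsto
      fun_prop
    simp only [one_pow, mul_one] at h1
    have h2 := h1.eventually_lt_const (show (1 : ℝ) < 1 + ρ by linarith)
    obtain ⟨μ, h3, h4⟩ := (h2.and self_mem_nhdsWithin).exists
    exact ⟨μ, h4, h3⟩
  have hμ0 : 0 < μ := by linarith
  refine ⟨μ ^ 6, one_lt_pow₀ hμ1 (by norm_num), fun m A B hm => ?_⟩
  obtain ⟨V, hV, hT⟩ := Nn_tendsto F m hm A B
  rw [← hn] at hT
  have hpos : ∀ᶠ Y : ℝ in atTop, 0 < Nn F m A B Y := by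
    have h1 := hT.eventually_const_lt hV
    filter_upwards [h1, eventually_gt_atTop (0 : ℝ)] with Y h2 hY
    by_contra hcon
    push Not at hcon
    have h3 : Nn F m A B Y / (al Y ^ n * be Y ^ n) ≤ 0 :=
      div_nonpos_of_nonpos_of_nonneg hcon
        (mul_nonneg (pow_nonneg (al_nn Y hY.le) _) (pow_nonneg (be_nn Y hY.le) _))
    linarith
  refine ⟨?_, ?_, ?_⟩
  · intro Y
    have h0 : (Cl m A B ∩ Hh (max Y 0) : Set (𝓞 F × 𝓞 F)).Finite := by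
      rw [set_eq F m A B _ (le_max_right _ _)]
      exact (Sc_fin F m A _).prod (Sc_fin F m B _)
    refine h0.subset ?_
    rintro p ⟨h1, h2⟩
    exact ⟨h1, fun σ => ⟨(h2 σ).1.trans (le_max_left _ _), (h2 σ).2.trans (le_max_left _ _)⟩⟩
  · filter_upwards [hpos] with Y hY
    unfold Nn at hY
    exact_mod_cast hY
  · have h6 : Tendsto (fun Y : ℝ => μ ^ 6 * Y) atTop atTop :=
      tendsto_id.const_mul_atTop (by positivity)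
    have h1 := (hT.comp h6).div hT hV.ne'
    rw [div_self hV.ne'] at h1
    have h2 := h1.mul_const ((μ ^ 2) ^ n * (μ ^ 3) ^ n)
    rw [one_mul] at h2
    have h3 := h2.eventually_lt_const hμ2
    filter_upwards [h3, hpos, eventually_gt_atTop (0 : ℝ)] with Y g1 g2 g3
    show Nn F m A B (μ ^ 6 * Y) ≤ (1 + ρ) * Nn F m A B Y
    have e : Nn F m A B (μ ^ 6 * Y) / (al (μ ^ 6 * Y) ^ n * be (μ ^ 6 * Y) ^ n) /
        (Nn F m A B Y / (al Y ^ n * be Y ^ n)) * ((μ ^ 2) ^ n * (μ ^ 3) ^ n) =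
        Nn F m A B (μ ^ 6 * Y) / Nn F m A B Y := by
      rw [al_mul μ Y hμ0.le g3.le, be_mul μ Y hμ0.le g3.le]
      have ha : 0 < al Y := by unfold al; positivity
      have hb : 0 < be Y := by unfold be; positivity
      rw [mul_pow, mul_pow]
      field_simp
    have g4 : Nn F m A B (μ ^ 6 * Y) / Nn F m A B Y < 1 + ρ := by
      rw [← e]
      exact g1
    rw [div_lt_iff₀ g2] at g4
    exact g4.le

variable {F}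

theorem hh_mono {X Y : ℝ} (h : X ≤ Y) : (Hh X : Set (𝓞 F × 𝓞 F)) ⊆ Hh Y := fun p hp σ =>
  ⟨(hp σ).1.trans h, (hp σ).2.trans h⟩

theorem hg_hh {X : ℝ} : (Hg X : Set (𝓞 F × 𝓞 F)) ⊆ Hh X := fun p hp σ => by
  have h1 := (hp σ).1
  have h2 := (hp σ).2
  have h3 : 0 ≤ ‖σ (p.1 : F)‖ ^ 3 := by positivity
  have h4 : 0 ≤ ‖σ (p.2 : F)‖ ^ 2 := by positivity
  exact ⟨by linarith, by linarith⟩

theorem hh_hg {X : ℝ} : (Hh X : Set (𝓞 F × 𝓞 F)) ⊆ Hg (27 * X) := fun p hp σ => by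
  have h1 := (hp σ).1
  have h2 := (hp σ).2
  have h3 : 0 ≤ ‖σ (p.1 : F)‖ ^ 3 := by positivity
  exact ⟨by linarith, by linarith⟩

theorem twp_hh {J : Finset ℕ} (hD : 0 < Dp J) (p : 𝓞 F × 𝓞 F) (X : ℝ) :
    twp J p ∈ Hh X ↔ p ∈ Hh (X / ((Dp J : ℕ) : ℝ) ^ 6) := by
  have hDr : (0 : ℝ) < ((Dp J : ℕ) : ℝ) ^ 6 := by
    have : (0 : ℝ) < ((Dp J : ℕ) : ℝ) := by exact_mod_cast hD
    positivity
  refine forall_congr' fun σ => ?_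
  have e1 : ‖σ ((twp J p).1 : F)‖ = ‖σ (p.1 : F)‖ * ((Dp J : ℕ) : ℝ) ^ 2 := by
    have : ((twp J p).1 : F) = (p.1 : F) * ((Dp J : ℕ) : F) ^ 2 := by
      show algebraMap (𝓞 F) F (p.1 * ((Dp J : ℕ) : 𝓞 F) ^ 2) = _
      rw [map_mul, map_pow, map_natCast]
    rw [this, map_mul, norm_mul, map_pow, norm_pow, map_natCast, Complex.norm_natCast]
  have e2 : ‖σ ((twp J p).2 : F)‖ = ‖σ (p.2 : F)‖ * ((Dp J : ℕ) : ℝ) ^ 3 := by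
    have : ((twp J p).2 : F) = (p.2 : F) * ((Dp J : ℕ) : F) ^ 3 := by
      show algebraMap (𝓞 F) F (p.2 * ((Dp J : ℕ) : 𝓞 F) ^ 3) = _
      rw [map_mul, map_pow, map_natCast]
    rw [this, map_mul, norm_mul, map_pow, norm_pow, map_natCast, Complex.norm_natCast]
  rw [e1, e2, le_div_iff₀ hDr, le_div_iff₀ hDr]
  have e3 : (‖σ (p.1 : F)‖ * ((Dp J : ℕ) : ℝ) ^ 2) ^ 3 =
      ‖σ (p.1 : F)‖ ^ 3 * ((Dp J : ℕ) : ℝ) ^ 6 := by ring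
  have e4 : (‖σ (p.2 : F)‖ * ((Dp J : ℕ) : ℝ) ^ 3) ^ 2 =
      ‖σ (p.2 : F)‖ ^ 2 * ((Dp J : ℕ) : ℝ) ^ 6 := by ring
  rw [e3, e4]

variable (F)

theorem trans2 : ∃ C : ℝ, 0 < C ∧ ∀ (m : ℕ)
    (A : Fin (2 * 1) → 𝓞 F) (Bad : Set (𝓞 F × 𝓞 F)) (δ : ℝ) (B₀ : ℕ), 0 < m → 0 ≤ δ →
    (∀ B ≥ B₀, ({a ∈ Bx 1 B m A | (a 1, a 0) ∈ Bad}.ncard : ℝ) * (m : ℝ) ^ (2 * 1 * dg F) ≤
      δ * (B : ℝ) ^ De F) →
    ∀ᶠ X : ℝ in Filter.atTop, (Cl m (A 1) (A 0) ∩ Hh X).Finite ∧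
      0 < (Cl m (A 1) (A 0) ∩ Hh X).ncard ∧
      ((Cl m (A 1) (A 0) ∩ Hh X ∩ Bad).ncard : ℝ) ≤
        C * δ * ((Cl m (A 1) (A 0) ∩ Hh X).ncard : ℝ) := by
  obtain ⟨C, hC, htr⟩ := trans F
  obtain ⟨lam, hlam, hshl⟩ := Pool.Agent.Run7.h688.MO.shl F 1 one_pos
  obtain ⟨lam2, hlam2, hshl2⟩ := shl2 F 1 one_pos
  obtain ⟨j, hj⟩ := pow_unbounded_of_one_lt (27 : ℝ) hlam
  refine ⟨C * 2 ^ j, by positivity, ?_⟩
  intro m A Bad δ B₀ hm hδ hbad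
  have h1 := htr m A Bad δ B₀ hm hδ hbad
  obtain ⟨hfin, hpos, hreg⟩ := hshl m (A 1) (A 0) hm
  obtain ⟨hfin2, hpos2, -⟩ := hshl2 m (A 1) (A 0) hm
  have hlam0 : 0 < lam := by linarith
  have hit : ∀ i : ℕ, ∀ᶠ X : ℝ in atTop, ((Cl m (A 1) (A 0) ∩ Hg (lam ^ i * X)).ncard : ℝ) ≤
      2 ^ i * ((Cl m (A 1) (A 0) ∩ Hg X).ncard : ℝ) := by
    intro i
    induction i with
    | zero =>
      refine Filter.Eventually.of_forall fun X => ?_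
      rw [pow_zero, one_mul, pow_zero, one_mul]
    | succ i ih =>
      have ht : Tendsto (fun X : ℝ => lam ^ i * X) atTop atTop :=
        tendsto_id.const_mul_atTop (by positivity)
      filter_upwards [ih, ht.eventually hreg] with X g1 g2
      have e : lam ^ (i + 1) * X = lam * (lam ^ i * X) := by ring
      rw [e]
      calc _ ≤ _ := g2
        _ ≤ (1 + 1) * (2 ^ i * ((Cl m (A 1) (A 0) ∩ Hg X).ncard : ℝ)) :=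
          mul_le_mul_of_nonneg_left g1 (by norm_num)
        _ = _ := by ring
  have h27 : Tendsto (fun X : ℝ => 27 * X) atTop atTop :=
    tendsto_id.const_mul_atTop (by norm_num)
  filter_upwards [h27.eventually h1, hit j, hpos2, eventually_ge_atTop (0 : ℝ)] with X g1 g2 g3 g4
  refine ⟨hfin2 X, g3, ?_⟩
  obtain ⟨k1, k2, k3⟩ := g1
  have l1 : ((Cl m (A 1) (A 0) ∩ Hh X ∩ Bad).ncard : ℝ) ≤
      ((Cl m (A 1) (A 0) ∩ Hg (27 * X) ∩ Bad).ncard : ℝ) := by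
    refine Nat.cast_le.2 (Set.ncard_le_ncard ?_ (k1.subset Set.inter_subset_left))
    exact Set.inter_subset_inter_left _ (Set.inter_subset_inter_right _ hh_hg)
  have l2 : ((Cl m (A 1) (A 0) ∩ Hg (27 * X)).ncard : ℝ) ≤
      ((Cl m (A 1) (A 0) ∩ Hg (lam ^ j * X)).ncard : ℝ) := by
    refine Nat.cast_le.2 (Set.ncard_le_ncard ?_ (hfin _))
    exact Set.inter_subset_inter_right _ (hg_mono (mul_le_mul_of_nonneg_right hj.le g4))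
  have l3 : ((Cl m (A 1) (A 0) ∩ Hg X).ncard : ℝ) ≤ ((Cl m (A 1) (A 0) ∩ Hh X).ncard : ℝ) := by
    refine Nat.cast_le.2 (Set.ncard_le_ncard ?_ (hfin2 _))
    exact Set.inter_subset_inter_right _ hg_hh
  calc _ ≤ _ := l1
    _ ≤ _ := k3
    _ ≤ C * δ * (2 ^ j * ((Cl m (A 1) (A 0) ∩ Hh X).ncard : ℝ)) := by
        refine mul_le_mul_of_nonneg_left ?_ (by positivity)
        exact (l2.trans g2).trans (mul_le_mul_of_nonneg_left l3 (by positivity))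
    _ = _ := by ring

end

/-- What is used about the height. -/
structure HD (H : ℝ → Set (𝓞 ℚ × 𝓞 ℚ)) : Prop where
  mono : ∀ X Y : ℝ, X ≤ Y → H X ⊆ H Y
  tw : ∀ J : Finset ℕ, 0 < Dp J → ∀ (p : 𝓞 ℚ × 𝓞 ℚ) (X : ℝ),
    twp J p ∈ H X ↔ p ∈ H (X / ((Dp J : ℕ) : ℝ) ^ 6)
  shl : ∀ ρ : ℝ, 0 < ρ → ∃ lam : ℝ, 1 < lam ∧
    ∀ (m : ℕ) (A B : 𝓞 ℚ), 0 < m →
      (∀ Y : ℝ, (Cl m A B ∩ H Y).Finite) ∧
      (∀ᶠ Y : ℝ in Filter.atTop, 0 < (Cl m A B ∩ H Y).ncard) ∧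
      ∀ᶠ Y : ℝ in Filter.atTop, ((Cl m A B ∩ H (lam * Y)).ncard : ℝ) ≤
        (1 + ρ) * ((Cl m A B ∩ H Y).ncard : ℝ)
  tr : ∃ C : ℝ, 0 < C ∧ ∀ (m : ℕ)
    (A : Fin (2 * 1) → 𝓞 ℚ) (Bad : Set (𝓞 ℚ × 𝓞 ℚ)) (δ : ℝ) (B₀ : ℕ), 0 < m → 0 ≤ δ →
    (∀ B ≥ B₀, ({a ∈ Bx 1 B m A | (a 1, a 0) ∈ Bad}.ncard : ℝ) * (m : ℝ) ^ (2 * 1 * dg ℚ) ≤
      δ * (B : ℝ) ^ De ℚ) →
    ∀ᶠ X : ℝ in Filter.atTop, (Cl m (A 1) (A 0) ∩ H X).Finite ∧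
      0 < (Cl m (A 1) (A 0) ∩ H X).ncard ∧
      ((Cl m (A 1) (A 0) ∩ H X ∩ Bad).ncard : ℝ) ≤
        C * δ * ((Cl m (A 1) (A 0) ∩ H X).ncard : ℝ)

theorem hd_hh : HD Hh :=
  ⟨fun _ _ h => hh_mono h, fun J hJ p X => twp_hh hJ p X, fun ρ hρ => shl2 ℚ ρ hρ, trans2 ℚ⟩

theorem hd_hg : HD Hg :=
  ⟨fun _ _ h => hg_mono h, fun J hJ p X => twp_hg hJ p X,
    fun ρ hρ => Pool.Agent.Run7.h688.MO.shl ℚ ρ hρ, trans ℚ⟩

end Pool.Agent.Run7.h245.DI
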