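import Pool.Agent.Run7.h245.DI.Pd

/-!
# Existence of the levels
-/

set_option autoImplicit false
set_option linter.all false

open Polynomial IsDedekindDomain Matrix NumberField WithZero
open scoped Classical

namespace Pool.Agent.Run7.h245.DI

open Pool.Agent.N783.PF
open Pool.Agent.Run7.h245.SR
open Pool.Agent.Run7.h245.MO (Win)

variable {F : Type} [Field F] [NumberField F]

/-- Change of the constants which do not matter. -/
theorem LvZ.congr {η ε η' ε' : ℕ → ℝ} {n₀ n₀' par par' : ℕ → ℕ}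
    {W₀ K : ℕ} {T : ℕ → Finset ℕ} {Wk : ℕ → ℕ} {𝔮 : ℕ → Ideal (𝓞 F)} {r P : ℕ → (𝓞 F)[X]}
    (H : LvZ F η ε n₀ W₀ K par T Wk 𝔮 r P) (h1 : ∀ k < K, η' k = η k) (h2 : ∀ k < K, ε' k = ε k)
    (h3 : ∀ k < K, n₀' k = n₀ k) (h4 : ∀ k < K, par' k = par k) :
    LvZ F η' ε' n₀' W₀ K par' T Wk 𝔮 r P :=
  ⟨H.base, H.good, H.disj, fun k hk => by rw [h4 k hk]; exact H.ple k hk,
    fun k hk j hj h => H.later k hk j hj (by rw [← h4 k hk]; exact h), fun k hk => by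
    rw [h1 k hk, h2 k hk, h3 k hk, h4 k hk]
    exact H.dat k hk⟩

/-- No levels. -/
theorem lvz_zero {η ε : ℕ → ℝ} {n₀ par : ℕ → ℕ} {W₀ : ℕ} :
    LvZ F η ε n₀ W₀ 0 par (fun _ => ∅) (fun _ => 0) (fun _ => ⊥) (fun _ => 0) (fun _ => 0) :=
  ⟨fun k hk => absurd hk (Nat.not_lt_zero _), fun k hk => absurd hk (Nat.not_lt_zero _),
    fun i hk => absurd hk (Nat.not_lt_zero _), fun k hk => absurd hk (Nat.not_lt_zero _),
    fun i hk => absurd hk (Nat.not_lt_zero _), fun k hk => absurd hk (Nat.not_lt_zero _)⟩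

/-- Adding finitely many levels at once: all have the same set of earlier levels. -/
theorem lvz_add {η ε : ℕ → ℝ} {n₀ par : ℕ → ℕ} {W₀ K K' : ℕ} {T : ℕ → Finset ℕ} {Wk : ℕ → ℕ}
    {𝔮 : ℕ → Ideal (𝓞 F)} {r P : ℕ → (𝓞 F)[X]} (H : LvZ F η ε n₀ W₀ K par T Wk 𝔮 r P)
    (hKK : K ≤ K') {M : ℕ} (hM0 : W₀ ≤ M) (hM1 : ∀ i < K, Wk i ≤ M)
    (hM2 : ∀ i < K, ∀ q ∈ T i, q ≤ M) (T' : ℕ → Finset ℕ)
    (hT' : ∀ k, K ≤ k → k < K' → ∀ q ∈ T' k, q.Prime ∧ M + (2 * 1 + 1) + (discr F).natAbs < q ∧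
      q % 8 = 1)
    (hdj : ∀ i, K ≤ i → i < K' → ∀ j, K ≤ j → j < K' → i ≠ j → Disjoint (T' i) (T' j))
    (hpar : ∀ k, K ≤ k → k < K' → par k = K)
    (hdat : ∀ k, K ≤ k → k < K' → LvD F (η k) (ε k) (n₀ k) ((Finset.range K).biUnion T) (T' k) M ∧
      LvDN F (η k) (ε k) ((Finset.range K).biUnion T) (T' k) M) :
    ∃ (U : ℕ → Finset ℕ) (Wk' : ℕ → ℕ) (𝔮' : ℕ → Ideal (𝓞 F)) (r' P' : ℕ → (𝓞 F)[X]),
      LvZ F η ε n₀ W₀ K' par U Wk' 𝔮' r' P' ∧ (∀ k < K, U k = T k) ∧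
      ∀ k, K ≤ k → k < K' → U k = T' k := by
  obtain ⟨S, hS⟩ : ∃ S, S = (Finset.Ico K K').biUnion T' := ⟨_, rfl⟩
  obtain ⟨𝔮n, rn, Pn, hgn⟩ := exd F M S (by
    intro q hq
    rw [hS] at hq
    obtain ⟨k, hk, hqk⟩ := Finset.mem_biUnion.1 hq
    rw [Finset.mem_Ico] at hk
    exact hT' k hk.1 hk.2 q hqk)
  have hsub : ∀ k, K ≤ k → k < K' → T' k ⊆ S := by
    intro k h1 h2 q hq
    rw [hS]
    exact Finset.mem_biUnion.2 ⟨k, Finset.mem_Ico.2 ⟨h1, h2⟩, hq⟩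
  have hout : ∀ k < K, ∀ q ∈ T k, q ∉ S := by
    intro k hk q hq hqn
    have h1 := hM2 k hk q hq
    have h2 : M < q := (hgn q hqn).2.1
    omega
  obtain ⟨U, hU⟩ : ∃ U : ℕ → Finset ℕ, U = fun j => if j < K then T j else T' j := ⟨_, rfl⟩
  obtain ⟨V, hV⟩ : ∃ V : ℕ → ℕ, V = fun j => if j < K then Wk j else M := ⟨_, rfl⟩
  have hU1 : ∀ k < K, U k = T k := fun k hk => by rw [hU]; exact if_pos hk
  have hU2 : ∀ k, K ≤ k → U k = T' k := fun k hk => by rw [hU]; exact if_neg (not_lt.2 hk)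
  have hW1 : ∀ k < K, V k = Wk k := fun k hk => by rw [hV]; exact if_pos hk
  have hW2 : ∀ k, K ≤ k → V k = M := fun k hk => by rw [hV]; exact if_neg (not_lt.2 hk)
  have hbi : ∀ k ≤ K, (Finset.range k).biUnion U =
      (Finset.range k).biUnion T := fun k hk => bi_congr fun i hi => hU1 i (hi.trans_le hk)
  refine ⟨U, V,
    fun q => if q ∈ S then 𝔮n q else 𝔮 q, fun q => if q ∈ S then rn q else r q,
    fun q => if q ∈ S then Pn q else P q, ⟨?_, ?_, ?_, ?_, ?_, ?_⟩, hU1, fun k h1 _ => hU2 k h1⟩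
  · intro k hk
    rcases lt_or_ge k K with h | h
    · rw [hW1 k h]
      exact H.base k h
    · rw [hW2 k h]
      exact hM0
  · intro k hk
    rcases lt_or_ge k K with h | h
    · rw [hW1 k h, hU1 k h]
      exact goodS_congr (H.good k h) (fun q hq => if_neg (hout k h q hq))
        (fun q hq => if_neg (hout k h q hq)) (fun q hq => if_neg (hout k h q hq))
    · rw [hW2 k h, hU2 k h]
      have hg : GoodS 1 M (T' k) 𝔮n rn Pn := fun q hq => hgn q (hsub k h hk hq)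
      exact goodS_congr hg (fun q hq => if_pos (hsub k h hk hq))
        (fun q hq => if_pos (hsub k h hk hq)) (fun q hq => if_pos (hsub k h hk hq))
  · have key : ∀ i j, i < K → K ≤ j → j < K' → Disjoint (T i) (T' j) := by
      intro i j hi h1 h2
      rw [Finset.disjoint_left]
      intro q hq hq'
      exact hout i hi q hq (hsub j h1 h2 hq')
    intro i hi j hj hij
    rcases lt_or_ge i K with h | h
    · rcases lt_or_ge j K with h' | h'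
      · rw [hU1 i h, hU1 j h']
        exact H.disj i h j h' hij
      · rw [hU1 i h, hU2 j h']
        exact key i j h h' hj
    · rcases lt_or_ge j K with h' | h'
      · rw [hU2 i h, hU1 j h']
        exact (key j i h' h hi).symm
      · rw [hU2 i h, hU2 j h']
        exact hdj i h hi j h' hj hij
  · intro k hk
    rcases lt_or_ge k K with h | h
    · exact H.ple k h
    · rw [hpar k h hk]
      exact h
  · intro k hk j hj hle
    rcases lt_or_ge k K with h | h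
    · rcases lt_or_ge j K with h' | h'
      · rw [hW1 k h, hW1 j h']
        exact H.later k h j h' hle
      · rw [hW1 k h, hW2 j h']
        exact hM1 k h
    · rw [hpar k h hk] at hle
      rw [hW2 k h, hW2 j hle]
  · intro k hk
    rcases lt_or_ge k K with h | h
    · rw [hW1 k h, hU1 k h, hbi _ ((H.ple k h).trans h.le)]
      exact H.dat k h
    · rw [hW2 k h, hU2 k h, hpar k h hk, hbi K le_rfl]
      exact hdat k h hk

/-- Bounds for the earlier levels. -/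
theorem lvz_bound {η ε : ℕ → ℝ} {n₀ par : ℕ → ℕ} {W₀ K : ℕ} {T : ℕ → Finset ℕ} {Wk : ℕ → ℕ}
    {𝔮 : ℕ → Ideal (𝓞 F)} {r P : ℕ → (𝓞 F)[X]} (H : LvZ F η ε n₀ W₀ K par T Wk 𝔮 r P) :
    ∃ M : ℕ, W₀ ≤ M ∧ (∀ i < K, Wk i ≤ M) ∧ ∀ i < K, ∀ q ∈ T i, q ≤ M := by
  obtain ⟨S', hS'⟩ : ∃ S', S' = (Finset.range K).biUnion T := ⟨_, rfl⟩
  refine ⟨W₀ + (∑ i ∈ Finset.range K, Wk i) + ∑ q ∈ S', q, by omega, fun i hi => ?_,
    fun i hi q hq => ?_⟩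
  · have h1 := Finset.single_le_sum (f := fun i => Wk i) (fun _ _ => Nat.zero_le _)
      (Finset.mem_range.2 hi)
    have h2 : Wk i ≤ ∑ i ∈ Finset.range K, Wk i := h1
    omega
  · have hq' : q ∈ S' := by
      rw [hS']
      exact Finset.mem_biUnion.2 ⟨i, Finset.mem_range.2 hi, hq⟩
    have h1 := Finset.single_le_sum (f := fun q : ℕ => q) (fun _ _ => Nat.zero_le _) hq'
    have h2 : q ≤ ∑ q ∈ S', q := h1
    omega

theorem lvz_pos {η ε : ℕ → ℝ} {n₀ par : ℕ → ℕ} {W₀ K : ℕ} {T : ℕ → Finset ℕ} {Wk : ℕ → ℕ}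
    {𝔮 : ℕ → Ideal (𝓞 F)} {r P : ℕ → (𝓞 F)[X]} (H : LvZ F η ε n₀ W₀ K par T Wk 𝔮 r P) :
    ∀ q ∈ (Finset.range K).biUnion T, 0 < q := by
  intro q hq
  exact (H.good_all q hq).1.pos

/-- One more level in a short interval. -/
theorem lvz_succ (hPRX : S_PRX) (hLEVB : S_LEVB) (hPRN : S_PRN) (hLEVBN : S_LEVBN)
    (hWIN2 : S_WIN2) {ρ : ℝ} (hρ : 0 < ρ) {η ε : ℕ → ℝ} {n₀ par : ℕ → ℕ} {W₀ K : ℕ}
    {T : ℕ → Finset ℕ} {Wk : ℕ → ℕ} {𝔮 : ℕ → Ideal (𝓞 F)} {r P : ℕ → (𝓞 F)[X]}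
    (H : LvZ F η ε n₀ W₀ K par T Wk 𝔮 r P) (hpar : par K = K) (hη : 0 < η K) (hε : 0 < ε K)
    (hε2 : ε K < 1 / 2) :
    ∃ (U : ℕ → Finset ℕ) (Wk' : ℕ → ℕ) (𝔮' : ℕ → Ideal (𝓞 F)) (r' P' : ℕ → (𝓞 F)[X]),
      LvZ F η ε n₀ W₀ (K + 1) par U Wk' 𝔮' r' P' ∧ (∀ k < K, U k = T k) ∧ Win ρ (U K) := by
  obtain ⟨M₀, hM0, hM1, hM2⟩ := lvz_bound H
  obtain ⟨s, K₁, hthr⟩ := thr (F := F) hPRX hLEVB hPRN hLEVBN hη hε hε2 (n₀ K)
    ((Finset.range K).biUnion T) (lvz_pos H)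
  obtain ⟨y, T₁, T₂, hy, hc1, hc2, h1, h2⟩ := hWIN2 ρ 1 hρ le_rfl s
    (max M₀ K₁ + (2 * 1 + 1) + (discr F).natAbs)
  obtain ⟨U, Wk', 𝔮', r', P', H', e1, e2⟩ := lvz_add H (Nat.le_succ K) (M := max M₀ K₁)
    (hM0.trans (le_max_left _ _)) (fun i hi => (hM1 i hi).trans (le_max_left _ _))
    (fun i hi q hq => (hM2 i hi q hq).trans (le_max_left _ _)) (fun _ => T₁)
    (fun k _ _ q hq => by
      obtain ⟨g1, g2, g3, -⟩ := h1 q hq
      refine ⟨g1, ?_, g2⟩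
      have : ((max M₀ K₁ + (2 * 1 + 1) + (discr F).natAbs : ℕ) : ℝ) < (q : ℝ) := lt_of_le_of_lt hy g3
      exact_mod_cast this)
    (fun i hi1 hi2 j hj1 hj2 hij => by omega)
    (fun k hk1 hk2 => by
      have : k = K := by omega
      rw [this]
      exact hpar)
    (fun k hk1 hk2 => by
      have : k = K := by omega
      subst this
      exact hthr T₁ (max M₀ K₁) hc1.ge (le_max_right _ _))
  refine ⟨U, Wk', 𝔮', r', P', H', e1, ?_⟩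
  rw [e2 K le_rfl (Nat.lt_succ_self K)]
  intro q hq q' hq'
  obtain ⟨-, -, -, g4⟩ := h1 q hq
  obtain ⟨-, -, g3', -⟩ := h1 q' hq'
  have hρ1 : (0 : ℝ) < 1 + ρ := by linarith
  exact g4.trans (mul_le_mul_of_nonneg_left g3'.le hρ1.le)

/-- Extension. -/
theorem lvz_ext (hPRX : S_PRX) (hLEVB : S_LEVB) (hPRN : S_PRN) (hLEVBN : S_LEVBN)
    (hWIN2 : S_WIN2) {ρ : ℝ} (hρ : 0 < ρ) {η ε : ℕ → ℝ} {n₀ par : ℕ → ℕ}
    (hη : ∀ k, 0 < η k) (hε : ∀ k, 0 < ε k) (hε2 : ∀ k, ε k < 1 / 2) {W₀ K₁ : ℕ}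
    {T : ℕ → Finset ℕ} {Wk : ℕ → ℕ} {𝔮 : ℕ → Ideal (𝓞 F)} {r P : ℕ → (𝓞 F)[X]}
    (H : LvZ F η ε n₀ W₀ K₁ par T Wk 𝔮 r P) (K : ℕ) (hK : K₁ ≤ K) (hpar : ∀ k < K, par k = k) :
    ∃ (U : ℕ → Finset ℕ) (Wk' : ℕ → ℕ) (𝔮' : ℕ → Ideal (𝓞 F)) (r' P' : ℕ → (𝓞 F)[X]),
      LvZ F η ε n₀ W₀ K par U Wk' 𝔮' r' P' ∧ (∀ k < K₁, U k = T k) ∧
      ∀ k, K₁ ≤ k → k < K → Win ρ (U k) := by
  induction K, hK using Nat.le_induction with
  | base => exact ⟨T, Wk, 𝔮, r, P, H, fun k _ => rfl, fun k h1 h2 => absurd h1 (not_le.2 h2)⟩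
  | succ K hK ih =>
    obtain ⟨T', Wk', 𝔮', r', P', H', h', hw'⟩ := ih fun k hk => hpar k (by omega)
    obtain ⟨T'', Wk'', 𝔮'', r'', P'', H'', h'', hw''⟩ :=
      lvz_succ hPRX hLEVB hPRN hLEVBN hWIN2 hρ H' (hpar K (by omega)) (hη K) (hε K) (hε2 K)
    refine ⟨T'', Wk'', 𝔮'', r'', P'', H'', fun k hk => (h'' k (hk.trans_le hK)).trans (h' k hk),
      fun k h1 h2 => ?_⟩
    rcases Nat.lt_succ_iff_lt_or_eq.1 h2 with h3 | rfl
    · rw [h'' k h3]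
      exact hw' k h1 h3
    · exact hw''

/-- The last two levels. -/
theorem lvz_last (hPRX : S_PRX) (hLEVB : S_LEVB) (hPRN : S_PRN) (hLEVBN : S_LEVBN)
    (hWIN2 : S_WIN2) {ρ c : ℝ} (hρ : 0 < ρ) (hc : 1 + ρ ≤ c) {η ε : ℕ → ℝ} {n₀ : ℕ → ℕ}
    {W₀ k : ℕ} {T : ℕ → Finset ℕ} {Wk : ℕ → ℕ} {𝔮 : ℕ → Ideal (𝓞 F)} {r P : ℕ → (𝓞 F)[X]}
    (H : LvZ F η ε n₀ W₀ k (pk k) T Wk 𝔮 r P) (hη : ∀ k, 0 < η k) (hε : ∀ k, 0 < ε k)
    (hε2 : ∀ k, ε k < 1 / 2) :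
    ∃ (U : ℕ → Finset ℕ) (Wk' : ℕ → ℕ) (𝔮' : ℕ → Ideal (𝓞 F)) (r' P' : ℕ → (𝓞 F)[X]),
      LvZ F η ε n₀ W₀ (k + 2) (pk k) U Wk' 𝔮' r' P' ∧ (∀ j < k, U j = T j) ∧
      (U k).card = (U (k + 1)).card ∧ ∃ y : ℝ, 0 ≤ y ∧
        (∀ q ∈ U k, y < q ∧ (q : ℝ) ≤ (1 + ρ) * y) ∧
        ∀ q ∈ U (k + 1), c * y < q ∧ (q : ℝ) ≤ (1 + ρ) * (c * y) := by
  obtain ⟨M₀, hM0, hM1, hM2⟩ := lvz_bound H
  obtain ⟨s, K₁, hthr⟩ := thr (F := F) hPRX hLEVB hPRN hLEVBN (hη k) (hε k) (hε2 k) (n₀ k)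
    ((Finset.range k).biUnion T) (lvz_pos H)
  obtain ⟨s', K₁', hthr'⟩ := thr (F := F) hPRX hLEVB hPRN hLEVBN (hη (k + 1)) (hε (k + 1))
    (hε2 (k + 1)) (n₀ (k + 1)) ((Finset.range k).biUnion T) (lvz_pos H)
  obtain ⟨M, hM⟩ : ∃ M, M = max M₀ (max K₁ K₁') := ⟨_, rfl⟩
  have hMa : M₀ ≤ M := by rw [hM]; exact le_max_left _ _
  have hMb : K₁ ≤ M := by rw [hM]; exact (le_max_left _ _).trans (le_max_right _ _)
  have hMc : K₁' ≤ M := by rw [hM]; exact (le_max_right _ _).trans (le_max_right _ _)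
  have hc1' : 1 ≤ c := by linarith
  obtain ⟨y, T₁, T₂, hy, hc1, hc2, h1, h2⟩ := hWIN2 ρ c hρ hc1' (max s s')
    (M + (2 * 1 + 1) + (discr F).natAbs)
  have hy0 : (0 : ℝ) ≤ y := le_trans (Nat.cast_nonneg _) hy
  have hcy : y ≤ c * y := le_mul_of_one_le_left hy0 hc1'
  have hb1 : ∀ q ∈ T₁, M + (2 * 1 + 1) + (discr F).natAbs < q := by
    intro q hq
    obtain ⟨g1, g2, g3, -⟩ := h1 q hq
    have : ((M + (2 * 1 + 1) + (discr F).natAbs : ℕ) : ℝ) < (q : ℝ) := lt_of_le_of_lt hy g3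
    exact_mod_cast this
  have hb2 : ∀ q ∈ T₂, M + (2 * 1 + 1) + (discr F).natAbs < q := by
    intro q hq
    obtain ⟨g1, g2, g3, -⟩ := h2 q hq
    have : ((M + (2 * 1 + 1) + (discr F).natAbs : ℕ) : ℝ) < (q : ℝ) :=
      lt_of_le_of_lt (hy.trans hcy) g3
    exact_mod_cast this
  have hdj12 : Disjoint T₁ T₂ := by
    rw [Finset.disjoint_left]
    intro q hq hq'
    obtain ⟨-, -, -, g4⟩ := h1 q hq
    obtain ⟨-, -, g3, -⟩ := h2 q hq'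
    have : (1 + ρ) * y ≤ c * y := mul_le_mul_of_nonneg_right hc hy0
    linarith
  have hne1 : k ≠ k + 1 := by omega
  have hTk : (fun j => if j = k then T₁ else T₂) k = T₁ := if_pos rfl
  have hTk1 : (fun j => if j = k then T₁ else T₂) (k + 1) = T₂ := if_neg (by omega)
  obtain ⟨U, Wk', 𝔮', r', P', H', e1, e2⟩ := lvz_add H (K' := k + 2) (by omega) (M := M)
    (hM0.trans hMa) (fun i hi => (hM1 i hi).trans hMa)
    (fun i hi q hq => (hM2 i hi q hq).trans hMa) (fun j => if j = k then T₁ else T₂)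
    (fun j hj1 hj2 q hq => by
      rcases eq_or_ne j k with rfl | hjk
      · rw [if_pos rfl] at hq
        exact ⟨(h1 q hq).1, hb1 q hq, (h1 q hq).2.1⟩
      · rw [if_neg hjk] at hq
        exact ⟨(h2 q hq).1, hb2 q hq, (h2 q hq).2.1⟩)
    (fun i hi1 hi2 j hj1 hj2 hij => by
      rcases eq_or_ne i k with rfl | hik
      · rw [if_pos rfl, if_neg hij.symm]
        exact hdj12
      · have hjk : j = k := by omega
        rw [if_neg hik, if_pos hjk]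
        exact hdj12.symm)
    (fun j hj1 hj2 => by
      unfold pk
      split_ifs <;> omega)
    (fun j hj1 hj2 => by
      rcases eq_or_ne j k with rfl | hjk
      · rw [if_pos rfl]
        exact hthr T₁ M ((le_max_left _ _).trans hc1.ge) hMb
      · have : j = k + 1 := by omega
        subst this
        rw [if_neg hjk]
        exact hthr' T₂ M ((le_max_right _ _).trans hc2.ge) hMc)
  have e3 : U k = T₁ := (e2 k le_rfl (by omega)).trans hTk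
  have e4 : U (k + 1) = T₂ := (e2 (k + 1) (by omega) (by omega)).trans hTk1
  refine ⟨U, Wk', 𝔮', r', P', H', e1, by rw [e3, e4, hc1, hc2], y, hy0, ?_, ?_⟩
  · rw [e3]
    exact fun q hq => (h1 q hq).2.2
  · rw [e4]
    exact fun q hq => (h2 q hq).2.2

end Pool.Agent.Run7.h245.DI
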