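import Pool.Agent.Run7.h245.DI.Cn2
import Pool.Agent.Run7.h245.MO.Pq

/-!
# The distribution over the twists of one curve
-/

set_option autoImplicit false
set_option linter.all false

open Polynomial IsDedekindDomain Matrix NumberField WithZero
open scoped Classical

namespace Pool.Agent.Run7.h245.DI

open Pool.Agent.N951.PF
open Pool.Agent.N874.PP (Ev Sq1 U0)
open Pool.Agent.N783.PF
open Pool.Agent.Run7.h245.SR
open Pool.Agent.Run7.h245.MO (Ts mem_Ts card_Ts card_Ts' jn_insert jn_inj mem_jj_succ jj_ts jj_sum jj_card JJ)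

section

variable {F L : Type} [Field F] [NumberField F] [Field L] [NumberField L] [Algebra F L]
  {f : (𝓞 F)[X]} {θ : L} {S : Finset ℕ} {𝔮 : ℕ → Ideal (𝓞 F)} {𝔔 : ℕ → HeightOneSpectrum (𝓞 L)}

theorem prA (hG : IsGen 1 f θ) (hQ : IsQ θ S 𝔮 𝔔) {S₀ T' : Finset ℕ} (hT' : T' ⊆ S) {ε : ℝ}
    (hP : PrAt 1 f 𝔮 S₀ T' ε) {α : L} (hα : InM f θ S 𝔔 α) (hns : ¬ IsSquare α)
    (h0 : ∀ q ∈ S, q ∉ S₀ → Ev (𝔔 q) α) :
    ((T'.filter fun q => Sq1 (𝔔 q) α).card : ℝ) ≤ (1 / 2 + ε) * T'.card := by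
  have h1 := hP L θ hG α hα.ne hα.nrm hns (fun 𝔓 h𝔓 => ?_)
  · refine le_trans ?_ h1
    have h2 : (T'.filter fun q => Sq1 (𝔔 q) α) ⊆ T'.filter fun q =>
        ∀ 𝔓 : HeightOneSpectrum (𝓞 L), Ov (𝔮 q) 𝔓 → 𝔓.valuation L θ = 1 → Sq1 𝔓 α := by
      intro q hq
      rw [Finset.mem_filter] at hq ⊢
      refine ⟨hq.1, fun 𝔓 hO hv => ?_⟩
      rw [hQ.uniq q (hT' hq.1) 𝔓 hO hv]
      exact hq.2
    exact_mod_cast Finset.card_le_card h2
  · by_cases h : ∀ q ∈ S, 𝔓 ≠ 𝔔 q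
    · exact hα.ev 𝔓 h
    · push Not at h
      obtain ⟨q, hq, rfl⟩ := h
      refine h0 q hq fun hmem => ?_
      exact h𝔓 q hmem (hQ.ov q hq) (hQ.one q hq)

theorem prB (hG : IsGen 1 f θ) (hQ : IsQ θ S 𝔮 𝔔) {S₀ T' : Finset ℕ} (hT' : T' ⊆ S) {ε : ℝ}
    (hP : PrAtN 1 f 𝔮 S₀ T' ε) {α : L} (hα : InM f θ S 𝔔 α) (hns : ¬ IsSquare α)
    (h0 : ∀ q ∈ S, q ∉ S₀ → Ev (𝔔 q) α) :
    ((T'.filter fun q => ¬ Sq1 (𝔔 q) α).card : ℝ) ≤ (1 / 2 + ε) * T'.card := by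
  have h1 := hP L θ hG α hα.ne hα.nrm hns (fun 𝔓 h𝔓 => ?_)
  · refine le_trans ?_ h1
    have h2 : (T'.filter fun q => ¬ Sq1 (𝔔 q) α) ⊆ T'.filter fun q =>
        ∃ 𝔓 : HeightOneSpectrum (𝓞 L), Ov (𝔮 q) 𝔓 ∧ ¬ Sq1 𝔓 α := by
      intro q hq
      rw [Finset.mem_filter] at hq ⊢
      exact ⟨hq.1, 𝔔 q, hQ.ov q (hT' hq.1), hq.2⟩
    exact_mod_cast Finset.card_le_card h2
  · by_cases h : ∀ q ∈ S, 𝔓 ≠ 𝔔 q
    · exact hα.ev 𝔓 h
    · push Not at h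
      obtain ⟨q, hq, rfl⟩ := h
      refine h0 q hq fun hmem => ?_
      exact h𝔓 q hmem (hQ.ov q hq) (hQ.one q hq)

/-- The constants of `S_MCD`. -/
def McdC (n₀ : ℕ) (δ : ℝ) (k : ℕ) (ε : ℝ) : Prop :=
  ∀ (ι : Type) [Fintype ι] (Λ : AddSubgroup (ι → ZMod 2 × ZMod 2)) (T : ℕ → Finset ι)
    (J₀ : Finset ι),
  (∀ l ∈ Λ, ∑ i, (l i).1 * (l i).2 = 0) → 2 ^ Fintype.card ι ≤ Nat.card Λ →
  (∀ i ≤ k, ∀ j ≤ k, i ≠ j → Disjoint (T i) (T j)) →
  (∀ j, 1 ≤ j → j ≤ k → (T j).Nonempty) → (T 0).card ≤ n₀ → J₀ ⊆ T 0 →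
  (∀ l ∈ Λ, (∀ i, (l i).1 = 0) → (∀ i ∈ T 0, (l i).2 = 0) → l = 0) →
  (∀ j, 1 ≤ j → j ≤ k → ∀ l ∈ Λ, l ≠ 0 → (∀ i, (∀ m < j, i ∉ T m) → (l i).1 = 0) →
    (((T j).filter fun i => (l i).2 = 0).card : ℝ) ≤ (1 / 2 + ε) * (T j).card ∧
    (((T j).filter fun i => (l i).2 ≠ 0).card : ℝ) ≤ (1 / 2 + ε) * (T j).card) →
  ∃ s : ℕ, Nat.card (Sj Λ J₀) = 2 ^ s ∧ ∀ d : ℕ,
    |((((JJ T k).filter fun J => Nat.card (Sj Λ (J₀ ∪ J)) = 2 ^ d).card : ℝ) / (JJ T k).card) -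
      (if (s + k + d) % 2 = 0 then 2 * cc d else 0)| ≤ δ

/-- The two-sided pseudorandomness of the levels `U 0`, ..., `U k`. -/
def PrU (f : (𝓞 F)[X]) (𝔮 : ℕ → Ideal (𝓞 F)) (U : ℕ → Finset ℕ) (k : ℕ) (ε : ℕ → ℝ) : Prop :=
  ∀ j ≤ k, PrAt 1 f 𝔮 ((Finset.range j).biUnion U) (U j) (ε j) ∧
    PrAtN 1 f 𝔮 ((Finset.range j).biUnion U) (U j) (ε j)

theorem pd1 {n₀ k W : ℕ} {δ ε : ℝ} (hM : McdC n₀ δ k ε) {r P : ℕ → (𝓞 F)[X]}
    (hG : IsGen 1 f θ) (hsq : SqF 1 f) (hS : GoodS 1 W S 𝔮 r P)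
    (hcon : ∀ q ∈ S, Cg (sp F q) f (P q)) (hQ : IsQ θ S 𝔮 𝔔) (hθ : θ ≠ 0)
    (hsize : 2 ^ Fintype.card S ≤ Nat.card (Lam f hS hQ hθ)) {U : ℕ → Finset ℕ}
    (hUS : ∀ j ≤ k, U j ⊆ S) (hdj : ∀ i ≤ k, ∀ j ≤ k, i ≠ j → Disjoint (U i) (U j))
    (hne : ∀ j ≤ k, (U j).Nonempty) (h0 : (U 0).card ≤ n₀) {ε' : ℕ → ℝ} (hP : PrU f 𝔮 U k ε')
    (hε0 : ε' 0 ≤ 1 / 4) (hεj : ∀ j, 1 ≤ j → j ≤ k → ε' j ≤ ε) (J₀ : Finset S)
    (hJ₀ : J₀ ⊆ Ts S U 0) :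
    ∃ s : ℕ, Nat.card (Sj (Lam f hS hQ hθ) J₀) = 2 ^ s ∧ ∀ d : ℕ,
      |((((JJ (Ts S U) k).filter fun J => Nat.card (Sj (Lam f hS hQ hθ) (J₀ ∪ J)) = 2 ^ d).card : ℝ) /
        (JJ (Ts S U) k).card) - (if (s + k + d) % 2 = 0 then 2 * cc d else 0)| ≤ δ := by
  have hmain := hM S (Lam f hS hQ hθ) (Ts S U) J₀ ?_ hsize ?_ ?_ ?_ hJ₀ ?_ ?_
  · obtain ⟨s, k1, k2⟩ := hmain
    refine ⟨s, k1, fun d => ?_⟩
    have hu : ∀ J J' : Finset S, @Union.union (Finset S)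
        (@Finset.instUnion S fun a b => Classical.propDecidable (a = b)) J J' = J ∪ J' := by
      intro J J'
      ext x
      simp only [Finset.mem_union]
    have k3 := k2 d
    simp only [hu] at k3
    exact k3
  · rintro _ ⟨α, hα, rfl⟩
    exact psi_iso rec le_rfl hG hsq hS hcon hQ hα
  · intro i hi j hj hij
    rw [Finset.disjoint_left]
    intro x hx hx'
    exact Finset.disjoint_left.1 (hdj i hi j hj hij) (mem_Ts.1 hx) (mem_Ts.1 hx')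
  · intro j _ hj
    obtain ⟨q, hq⟩ := hne j hj
    exact ⟨⟨q, hUS j hj hq⟩, mem_Ts.2 hq⟩
  · rw [card_Ts' (hUS 0 (Nat.zero_le k))]
    exact h0
  · rintro _ ⟨α, hα, rfl⟩ h1 h3
    by_contra hne'
    have hns : ¬ IsSquare α := by
      rintro ⟨s, rfl⟩
      exact hne' (psi_self hS hQ hθ (left_ne_zero_of_mul hα.ne))
    have hall : ∀ q ∈ S, Ev (𝔔 q) α := fun q hq => (psi_fst α ⟨q, hq⟩).1 (h1 ⟨q, hq⟩)
    have h4 := prA hG hQ (hUS 0 (Nat.zero_le k)) (hP 0 (Nat.zero_le k)).1 hα hns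
      (fun q hq _ => hall q hq)
    have h5 : ((U 0).filter fun q => Sq1 (𝔔 q) α) = U 0 := by
      rw [Finset.filter_eq_self]
      intro q hq
      have hqS := hUS 0 (Nat.zero_le k) hq
      have h6 := h3 ⟨q, hqS⟩ (mem_Ts.2 hq)
      exact ((psi_snd α ⟨q, hqS⟩).1 h6).1 (hall q hqS)
    rw [h5] at h4
    have h7 : (1 : ℝ) ≤ (U 0).card := by exact_mod_cast (hne 0 (Nat.zero_le k)).card_pos
    nlinarith
  · rintro j hj1 hj _ ⟨α, hα, rfl⟩ hne' hz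
    have hns : ¬ IsSquare α := by
      rintro ⟨s, rfl⟩
      exact hne' (psi_self hS hQ hθ (left_ne_zero_of_mul hα.ne))
    have hz' : ∀ q ∈ S, q ∉ (Finset.range j).biUnion U → Ev (𝔔 q) α := by
      intro q hq hqk
      refine (psi_fst α ⟨q, hq⟩).1 (hz ⟨q, hq⟩ fun m hm hmem => hqk ?_)
      exact Finset.mem_biUnion.2 ⟨m, Finset.mem_range.2 hm, mem_Ts.1 hmem⟩
    have hevj : ∀ i : S, i ∈ Ts S U j → Ev (𝔔 i) α := by
      intro i hi
      refine hz' i i.2 fun hmem => ?_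
      obtain ⟨m, hm, hmi⟩ := Finset.mem_biUnion.1 hmem
      rw [Finset.mem_range] at hm
      exact Finset.disjoint_left.1 (hdj m (by omega) j hj (by omega)) hmi (mem_Ts.1 hi)
    have hle : (1 / 2 + ε' j) * ((U j).card : ℝ) ≤ (1 / 2 + ε) * (U j).card :=
      mul_le_mul_of_nonneg_right (by linarith [hεj j hj1 hj]) (Nat.cast_nonneg _)
    rw [card_Ts' (hUS j hj)]
    constructor
    · have h1 := prA hG hQ (hUS j hj) (hP j hj).1 hα hns hz'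
      have h3 : (((Ts S U j).filter fun i => (psi θ S 𝔔 α i).2 = 0).card : ℝ) ≤
          (((U j).filter fun q => Sq1 (𝔔 q) α).card : ℝ) := by
        rw [← card_Ts (S := S) (hUS j hj) fun q => Sq1 (𝔔 q) α]
        refine Nat.cast_le.2 (Finset.card_le_card fun i hi => ?_)
        rw [Finset.mem_filter] at hi ⊢
        exact ⟨hi.1, ((psi_snd α i).1 hi.2).1 (hevj i hi.1)⟩
      exact (h3.trans h1).trans hle
    · have h1 := prB hG hQ (hUS j hj) (hP j hj).2 hα hns hz'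
      have h3 : (((Ts S U j).filter fun i => (psi θ S 𝔔 α i).2 ≠ 0).card : ℝ) ≤
          (((U j).filter fun q => ¬ Sq1 (𝔔 q) α).card : ℝ) := by
        have hcT := card_Ts (S := S) (hUS j hj) fun q => ¬ Sq1 (𝔔 q) α
        have hcT' : ((U j).filter fun q => ¬ Sq1 (𝔔 q) α).card =
            ((Ts S U j).filter fun i : S => ¬ Sq1 (𝔔 (i : ℕ)) α).card := by
          convert hcT.symm
        rw [hcT']
        refine Nat.cast_le.2 (Finset.card_le_card fun i hi => ?_)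
        rw [Finset.mem_filter] at hi ⊢
        refine ⟨hi.1, fun hs => hi.2 ?_⟩
        rw [psi_snd]
        exact ⟨fun _ => hs, fun hn => absurd (hevj i hi.1) hn⟩
      exact (h3.trans h1).trans hle

end

/-! ### Over the rational numbers -/

section

variable {L : Type} [Field L] [NumberField L] [Algebra ℚ L]
  {f : (𝓞 ℚ)[X]} {θ : L} {S : Finset ℕ} {𝔮 : ℕ → Ideal (𝓞 ℚ)} {𝔔 : ℕ → HeightOneSpectrum (𝓞 L)}

theorem size (hSZE : S_SZE) {W : ℕ} {r P : ℕ → (𝓞 ℚ)[X]}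
    (hG : IsGen 1 f θ) (hsq : SqF 1 f) (h2 : f.coeff 2 = 0) (h16 : (16 : 𝓞 ℚ) ∣ f.coeff 1 - 1)
    (h16' : (16 : 𝓞 ℚ) ∣ f.coeff 0 - 1) (hS : GoodS 1 W S 𝔮 r P)
    (hcon : ∀ q ∈ S, Cg (sp ℚ q) f (P q)) (hQ : IsQ θ S 𝔮 𝔔) (hθ : θ ≠ 0)
    (hsqp : ∀ α, InM f θ S 𝔔 α → psi θ S 𝔔 α = 0 → IsSquare α) :
    2 ^ Fintype.card S ≤ Nat.card (Lam f hS hQ hθ) := by
  obtain ⟨X, hX1, hX2, hX3⟩ := hSZE L f θ W S 𝔮 r P hG hsq h2 h16 h16' hS (cg_sp hS hcon)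
  have hXM : ∀ x ∈ X, InM f θ S 𝔔 x := by
    intro x hx
    obtain ⟨h1, h3, h4, h₀, h5, h6, h7⟩ := hX3 x hx
    exact ⟨h1, h3, fun 𝔓 h𝔓 => h4 𝔓 fun q hq hO hv => h𝔓 q hq (hQ.uniq q hq 𝔓 hO hv), h₀, h5,
      ⟨h6, h7⟩⟩
  rw [Fintype.card_coe]
  refine hX1.trans ?_
  have hfin : Finite (Lam f hS hQ hθ) := inferInstance
  rw [← Fintype.card_coe, ← Nat.card_eq_fintype_card]
  refine Nat.card_le_card_of_injective
    (fun x : X => (⟨psi θ S 𝔔 (x : L), ⟨x, hXM x x.2, rfl⟩⟩ : Lam f hS hQ hθ)) ?_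
  intro x y hxy
  have hxy' : psi θ S 𝔔 (x : L) = psi θ S 𝔔 (y : L) := congrArg Subtype.val hxy
  by_contra hne
  have hne' : (x : L) ≠ y := fun h => hne (Subtype.ext h)
  refine hX2 x x.2 y y.2 hne' (hsqp _ ((hXM x x.2).mul (hXM y y.2)) ?_)
  rw [psi_mul hS hQ hθ (hXM x x.2).ne (hXM y y.2).ne, hxy']
  funext Q
  exact Prod.ext (CharTwo.add_self_eq_zero _) (CharTwo.add_self_eq_zero _)

end

/-- The second sequence of levels. -/
noncomputable def T2 (T : ℕ → Finset ℕ) (k : ℕ) : ℕ → Finset ℕ := Function.update T k (T (k + 1))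

theorem t2_lt {T : ℕ → Finset ℕ} {k j : ℕ} (h : j < k) : T2 T k j = T j :=
  Function.update_of_ne h.ne _ _

theorem t2_self {T : ℕ → Finset ℕ} {k : ℕ} : T2 T k k = T (k + 1) := Function.update_self _ _ _

/-- The levels `0, ..., k - 1` are followed by two levels which are independent of each other. -/
def pk (k : ℕ) (j : ℕ) : ℕ := if j = k + 1 then k else j

theorem pk_le (k j : ℕ) : pk k j ≤ j := by
  unfold pk
  split_ifs <;> omega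

/-- The pseudorandomness. -/
def PR2 {F : Type} [Field F] [NumberField F] (k : ℕ) (T : ℕ → Finset ℕ) (𝔮 : ℕ → Ideal (𝓞 F))
    (ε : ℕ → ℝ) (f : (𝓞 F)[X]) : Prop :=
  ∀ j < k + 2, PrAt 1 f 𝔮 ((Finset.range (pk k j)).biUnion T) (T j) (ε j) ∧
    PrAtN 1 f 𝔮 ((Finset.range (pk k j)).biUnion T) (T j) (ε j)

theorem PR2.one {F : Type} [Field F] [NumberField F] {k : ℕ} {T : ℕ → Finset ℕ}
    {𝔮 : ℕ → Ideal (𝓞 F)} {ε : ℕ → ℝ} {f : (𝓞 F)[X]} (h : PR2 k T 𝔮 ε f) : PrU f 𝔮 T k ε := by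
  intro j hj
  have h1 := h j (by omega)
  have e : pk k j = j := if_neg (by omega)
  rw [e] at h1
  exact h1

theorem PR2.two {F : Type} [Field F] [NumberField F] {k : ℕ} {T : ℕ → Finset ℕ}
    {𝔮 : ℕ → Ideal (𝓞 F)} {ε : ℕ → ℝ} {f : (𝓞 F)[X]} (h : PR2 k T 𝔮 ε f) (hε : ε (k + 1) = ε k) :
    PrU f 𝔮 (T2 T k) k ε := by
  intro j hj
  have hb : (Finset.range j).biUnion (T2 T k) = (Finset.range j).biUnion T :=
    bi_congr fun i hi => t2_lt (hi.trans_le hj)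
  rw [hb]
  rcases hj.lt_or_eq with hj' | rfl
  · rw [t2_lt hj']
    have h1 := h j (by omega)
    have e : pk k j = j := if_neg (by omega)
    rw [e] at h1
    exact h1
  · rw [t2_self]
    have h1 := h (j + 1) (by omega)
    have e : pk j (j + 1) = j := if_pos rfl
    rw [e, hε] at h1
    exact h1

theorem jn_union {S : Finset ℕ} (J J' : Finset S) : Jn S (J ∪ J') = Jn S J ∪ Jn S J' := by
  unfold Jn
  exact Finset.map_union _ _

/-- The distribution over the twists of one curve. -/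
theorem pdist (hSZE : S_SZE) (hSTEP : S_STEP) {n₀ k W : ℕ} {δ ε : ℝ} (hM : McdC n₀ δ k ε)
    (hk : 1 ≤ k) {T : ℕ → Finset ℕ} {𝔮 : ℕ → Ideal (𝓞 ℚ)} {r P : ℕ → (𝓞 ℚ)[X]}
    {ε' : ℕ → ℝ} {f : (𝓞 ℚ)[X]} {S : Finset ℕ} (hSd : (Finset.range (k + 2)).biUnion T = S)
    (hS : GoodS 1 W S 𝔮 r P)
    (hdj : ∀ i < k + 2, ∀ j < k + 2, i ≠ j → Disjoint (T i) (T j))
    (hne : ∀ j < k + 2, (T j).Nonempty) (h0 : (T 0).card ≤ n₀) {q₀ : ℕ} (hq₀ : q₀ ∈ T 0)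
    (hε0 : ε' 0 ≤ 1 / 4) (hεj : ∀ j, 1 ≤ j → j ≤ k → ε' j ≤ ε) (hεk : ε' (k + 1) = ε' k)
    (hf : GdQ W S P (PR2 k T 𝔮 ε') f) :
    ∃ d : Finset ℕ → ℕ, (∀ J ⊆ S, SelCard (((f.coeff 1 : 𝓞 ℚ) : ℚ) * ((Dp J : ℕ) : ℚ) ^ 2)
        (((f.coeff 0 : 𝓞 ℚ) : ℚ) * ((Dp J : ℕ) : ℚ) ^ 3) (d J)) ∧
      ∀ e : ℕ, |(((JJ T k).filter fun J => d (insert q₀ J) = e).card : ℝ) / (JJ T k).card +
        (((JJ (T2 T k) k).filter fun J => d J = e).card : ℝ) / (JJ (T2 T k) k).card - 2 * cc e| ≤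
        2 * δ := by
  obtain ⟨hm, hd, h2, hirr, hsq, hsm, hf₁, h16, h16', hcon, hP⟩ := hf
  obtain ⟨L, _, _, _, θ, hG⟩ := Pool.Agent.N667.PF.gen ℚ 1 f hm hd hirr
  have hθ := theta_ne hG
  have hTS : ∀ j < k + 2, T j ⊆ S := by
    intro j hj q hq
    rw [← hSd]
    exact Finset.mem_biUnion.2 ⟨j, Finset.mem_range.2 hj, hq⟩
  obtain ⟨𝔔, hQ⟩ := exists_Q exq le_rfl hG hsq hS hcon
  have hPU := hP.one
  have hsqp : ∀ α, InM f θ S 𝔔 α → psi θ S 𝔔 α = 0 → IsSquare α := by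
    intro α hα h0'
    by_contra hns
    have hz1 : ∀ q ∈ S, Ev (𝔔 q) α ∧ U0 (𝔔 q) ((q : L) * θ) α := by
      intro q hq
      have h1 := congrFun h0' ⟨q, hq⟩
      exact ⟨(psi_fst α ⟨q, hq⟩).1 (by rw [h1]; rfl), (psi_snd α ⟨q, hq⟩).1 (by rw [h1]; rfl)⟩
    have h1 := prA hG hQ (hTS 0 (by omega)) (hPU 0 (Nat.zero_le k)).1 hα hns
      (fun q hq _ => (hz1 q hq).1)
    have h5 : ((T 0).filter fun q => Sq1 (𝔔 q) α) = T 0 := by
      rw [Finset.filter_eq_self]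
      intro q hq
      have hqS := hTS 0 (by omega) hq
      exact (hz1 q hqS).2.1 (hz1 q hqS).1
    rw [h5] at h1
    have h7 : (1 : ℝ) ≤ (T 0).card := by exact_mod_cast (hne 0 (by omega)).card_pos
    nlinarith
  have hsize := size hSZE hG hsq h2 h16 h16' hS hcon hQ hθ hsqp
  have hiso : ∀ l ∈ Lam f hS hQ hθ, ∑ i, (l i).1 * (l i).2 = 0 := by
    rintro _ ⟨α, hα, rfl⟩
    exact psi_iso rec le_rfl hG hsq hS hcon hQ hα
  have hq₀S : q₀ ∈ S := hTS 0 (by omega) hq₀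
  obtain ⟨i₀, hi₀⟩ : ∃ i₀ : S, i₀ = ⟨q₀, hq₀S⟩ := ⟨_, rfl⟩
  -- the two sequences
  obtain ⟨s₁, hs₁, hd₁⟩ := pd1 hM hG hsq hS hcon hQ hθ hsize (U := T)
    (fun j hj => hTS j (by omega)) (fun i hi j hj hij => hdj i (by omega) j (by omega) hij)
    (fun j hj => hne j (by omega)) h0 hPU hε0 hεj {i₀} (by
      intro x hx
      rw [Finset.mem_singleton] at hx
      rw [hx, hi₀]
      exact mem_Ts.2 hq₀)
  have hT2S : ∀ j ≤ k, T2 T k j ⊆ S := by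
    intro j hj
    rcases hj.lt_or_eq with hj' | rfl
    · rw [t2_lt hj']
      exact hTS j (by omega)
    · rw [t2_self]
      exact hTS (j + 1) (by omega)
  obtain ⟨s₂, hs₂, hd₂⟩ := pd1 hM hG hsq hS hcon hQ hθ hsize (U := T2 T k) hT2S
    (by
      have key : ∀ i j, i < j → j ≤ k → Disjoint (T2 T k i) (T2 T k j) := by
        intro i j hij hj
        rw [t2_lt (hij.trans_le hj)]
        rcases hj.lt_or_eq with hj' | rfl
        · rw [t2_lt hj']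
          exact hdj i (by omega) j (by omega) (by omega)
        · rw [t2_self]
          exact hdj i (by omega) (j + 1) (by omega) (by omega)
      intro i hi j hj hij
      rcases lt_or_gt_of_ne hij with h | h
      · exact key i j h hj
      · exact (key j i h hi).symm)
    (by
      intro j hj
      rcases hj.lt_or_eq with hj' | rfl
      · rw [t2_lt hj']
        exact hne j (by omega)
      · rw [t2_self]
        exact hne (j + 1) (by omega))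
    (by rw [t2_lt (by omega)]; exact h0) (hP.two hεk) hε0 hεj ∅ (Finset.empty_subset _)
  -- the dimensions
  have hpow : ∀ J : Finset S, ∃ e : ℕ, Nat.card (Sj (Lam f hS hQ hθ) J) = 2 ^ e := fun J =>
    WALK.pow_two _
  choose ex hex using hpow
  have hch : ∀ J : Finset ℕ, ∃ e' : ℕ, ∀ J' : Finset S, Jn S J' = J → e' = ex J' := by
    intro J
    by_cases h : ∃ J' : Finset S, Jn S J' = J
    · obtain ⟨J', rfl⟩ := h
      exact ⟨ex J', fun J'' h' => by rw [jn_inj h']⟩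
    · exact ⟨0, fun J' h' => absurd ⟨J', h'⟩ h⟩
  choose d hd' using hch
  have hinj2 : ∀ a b : ℕ, (2 : ℕ) ^ a = 2 ^ b ↔ a = b := fun a b =>
    ⟨fun h => Nat.pow_right_injective le_rfl h, fun h => by rw [h]⟩
  have hcard : ∀ (U : ℕ → Finset ℕ) (J₀ : Finset S), (∀ j ≤ k, U j ⊆ S) → ∀ e : ℕ,
      ((JJ (Ts S U) k).filter fun J => Nat.card (Sj (Lam f hS hQ hθ) (J₀ ∪ J)) = 2 ^ e).card =
      ((JJ U k).filter fun J => d (Jn S J₀ ∪ J) = e).card := by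
    intro U J₀ hU e
    rw [← jj_ts k fun j _ hj => hU j hj, Finset.filter_image,
      Finset.card_image_of_injective _ jn_inj]
    congr 1
    refine Finset.filter_congr fun J _ => ?_
    rw [hex, hinj2, ← jn_union, hd' _ _ rfl]
  have hcJ : ∀ (U : ℕ → Finset ℕ), (∀ j ≤ k, U j ⊆ S) → (JJ (Ts S U) k).card = (JJ U k).card :=
    fun U hU => jj_card k fun j _ hj => hU j hj
  refine ⟨d, ?_, ?_⟩
  · intro J hJ
    obtain ⟨J', rfl⟩ : ∃ J' : Finset S, Jn S J' = J := by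
      refine ⟨J.subtype (· ∈ S), ?_⟩
      ext q
      constructor
      · intro hq
        have hqS : q ∈ S := Jn_sub hq
        rw [mem_Jn hqS, Finset.mem_subtype] at hq
        exact hq
      · intro hq
        rw [mem_Jn (hJ hq), Finset.mem_subtype]
        exact hq
    rw [hd' _ J' rfl]
    exact sel_Jn loc loccF hG hsq h2 hirr hsm hf₁ hS hcon hQ hθ hsqp (hex J')
  · intro e
    have g1 := hd₁ e
    have g2 := hd₂ e
    rw [hcard T {i₀} (fun j hj => hTS j (by omega)) e, hcJ T (fun j hj => hTS j (by omega))] at g1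
    rw [hcard (T2 T k) ∅ hT2S e, hcJ (T2 T k) hT2S] at g2
    have e1 : ∀ J : Finset ℕ, Jn S ({i₀} : Finset S) ∪ J = insert q₀ J := by
      intro J
      have : Jn S ({i₀} : Finset S) = {q₀} := by
        unfold Jn
        rw [Finset.map_singleton, hi₀]
        rfl
      rw [this]
      rfl
    have e2 : ∀ J : Finset ℕ, Jn S (∅ : Finset S) ∪ J = J := by
      intro J
      have : Jn S (∅ : Finset S) = ∅ := by
        unfold Jn
        rw [Finset.map_empty]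
      rw [this, Finset.empty_union]
    simp only [e1] at g1
    simp only [e2] at g2
    -- the parity
    have hpar : (s₁ + s₂) % 2 = 1 := by
      have hst := hSTEP S (Lam f hS hQ hθ) ∅ i₀ hiso hsize (Finset.notMem_empty _)
      rw [insert_empty_eq, hs₁, hs₂] at hst
      rcases hst with ⟨-, h⟩ | ⟨-, h⟩
      · have : (2 : ℕ) ^ s₂ = 2 ^ (s₁ + 1) := by rw [h, pow_succ]; ring
        have := (hinj2 _ _).1 this
        omega
      · have : (2 : ℕ) ^ s₁ = 2 ^ (s₂ + 1) := by rw [h, pow_succ]; ring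
        have := (hinj2 _ _).1 this
        omega
    have hsum : (if (s₁ + k + e) % 2 = 0 then 2 * cc e else 0) +
        (if (s₂ + k + e) % 2 = 0 then 2 * cc e else 0) = 2 * cc e := by
      rcases Nat.mod_two_eq_zero_or_one (s₁ + k + e) with h | h
      · rw [if_pos h, if_neg (by omega), add_zero]
      · rw [if_neg (by omega), if_pos (by omega), zero_add]
    rw [← hsum]
    rw [abs_le] at g1 g2 ⊢
    constructor
    · linarith [g1.1, g2.1]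
    · linarith [g1.2, g2.2]

end Pool.Agent.Run7.h245.DI
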